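import Mathlib

/-!
# Exchangeability of disjoint blocks

`Sg` is a family of labelings `P → L` that is closed under permutations of `P` (for example all
injections).  `pos z t` is the position whose label is read by the `t`-th query for `z`; some
queries (`t ∉ N`) do not depend on `z`.  If the other positions are pairwise different for the
`z ∈ W`, then the number of labelings for which all `z ∈ X` and at most `s` of the `z ∈ W` are
accepted is at most `|Sg| C(s, |X|) / C(|W|, |X|)`.
-/

namespace Pool.Agent.GGX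

open Finset

section block

variable {P Z τ : Type*}

/-- the permutation of the positions induced by a permutation `e` of `Z` that preserves `W` -/
theorem exch_perm (W : Set Z) (N : Set τ) (pos : Z → τ → P)
    (hinj : ∀ z ∈ W, ∀ z' ∈ W, ∀ t ∈ N, ∀ t' ∈ N, pos z t = pos z' t' → z = z' ∧ t = t')
    (e : Equiv.Perm Z) (he : ∀ z, z ∈ W ↔ e z ∈ W) :
    ∃ π : Equiv.Perm P, (∀ z ∈ W, ∀ t ∈ N, π (pos z t) = pos (e z) t) ∧
      ∀ q, (∀ z ∈ W, ∀ t ∈ N, q ≠ pos z t) → π q = q := by
  classical
  let S : Type _ := {z : Z // z ∈ W} × {t : τ // t ∈ N}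
  let f : S → P := fun s => pos s.1.1 s.2.1
  have hf : Function.Injective f := by
    rintro ⟨⟨z, hz⟩, ⟨t, ht⟩⟩ ⟨⟨z', hz'⟩, ⟨t', ht'⟩⟩ h
    obtain ⟨h1, h2⟩ := hinj z hz z' hz' t ht t' ht' h
    subst h1
    subst h2
    rfl
  let eS : Equiv.Perm S := Equiv.prodCongr (e.subtypeEquiv he) (Equiv.refl _)
  refine ⟨eS.extendDomain (Equiv.ofInjective f hf), ?_, ?_⟩
  · intro z hz t ht
    have h := Equiv.Perm.extendDomain_apply_image eS (Equiv.ofInjective f hf)
      (⟨⟨z, hz⟩, ⟨t, ht⟩⟩ : S)
    exact h
  · intro q hq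
    apply Equiv.Perm.extendDomain_apply_not_subtype
    rintro ⟨⟨⟨z, hz⟩, ⟨t, ht⟩⟩, h⟩
    exact hq z hz t ht h.symm

end block

/-- a permutation carrying a subset of `W` to another one of the same size -/
theorem exists_perm_image {Z : Type*} [DecidableEq Z] (W X Y : Finset Z) (hX : X ⊆ W)
    (hY : Y ⊆ W) (h : X.card = Y.card) :
    ∃ e : Equiv.Perm Z, (∀ z, z ∈ W ↔ e z ∈ W) ∧ ∀ z, z ∈ X ↔ e z ∈ Y := by
  classical
  obtain ⟨e, he⟩ : ∃ e : Equiv.Perm {z // z ∈ W}, ∀ z, z.1 ∈ X ↔ (e z).1 ∈ Y := by
    have h1 : Fintype.card {z : {z // z ∈ W} // z.1 ∈ X} =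
        Fintype.card {z : {z // z ∈ W} // z.1 ∈ Y} := by
      have h2 : ∀ V : Finset Z, V ⊆ W → Fintype.card {z : {z // z ∈ W} // z.1 ∈ V} = V.card := by
        intro V hV
        rw [← Fintype.card_coe V]
        refine Fintype.card_congr ⟨fun z => ⟨z.1.1, z.2⟩, fun z => ⟨⟨z.1, hV z.2⟩, z.2⟩, ?_, ?_⟩
        · intro z; rfl
        · intro z; rfl
      rw [h2 X hX, h2 Y hY, h]
    have f1 := Fintype.equivOfCardEq h1
    exact ⟨f1.extendSubtype, fun z => by
      constructor
      · intro hz
        exact f1.extendSubtype_mem z hz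
      · intro hz
        by_contra hcon
        exact f1.extendSubtype_not_mem z hcon hz⟩
  refine ⟨e.ofSubtype, ?_, ?_⟩
  · intro z
    by_cases hz : z ∈ W
    · rw [Equiv.Perm.ofSubtype_apply_of_mem e hz]
      exact ⟨fun _ => (e ⟨z, hz⟩).2, fun _ => hz⟩
    · rw [Equiv.Perm.ofSubtype_apply_of_not_mem e hz]
  · intro z
    by_cases hz : z ∈ W
    · rw [Equiv.Perm.ofSubtype_apply_of_mem e hz]
      exact he ⟨z, hz⟩
    · rw [Equiv.Perm.ofSubtype_apply_of_not_mem e hz]
      exact ⟨fun h => absurd (hX h) hz, fun h => absurd (hY h) hz⟩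

/-- **Exchangeability.**  The number of the labelings for which all elements of `X` and at most
`s` elements of `W` are accepted. -/
theorem exch_card {P Z L τ : Type*} [DecidableEq Z] (W X : Finset Z) (hX : X ⊆ W)
    (N : Set τ) (pos : Z → τ → P)
    (hinj : ∀ z ∈ W, ∀ z' ∈ W, ∀ t ∈ N, ∀ t' ∈ N, pos z t = pos z' t' → z = z' ∧ t = t')
    (hcst : ∀ z z', ∀ t, t ∉ N → pos z t = pos z' t)
    (hsep : ∀ z ∈ W, ∀ z' ∈ W, ∀ t ∈ N, ∀ t' , t' ∉ N → pos z t ≠ pos z' t')
    (Sg : Finset (P → L)) (hSg : ∀ π : Equiv.Perm P, ∀ σ ∈ Sg, σ ∘ π ∈ Sg)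
    (D : (τ → L) → Prop) (s : ℕ) (E : Finset (P → L)) (hE : E ⊆ Sg)
    (acc : (P → L) → Finset Z) (hacc : ∀ σ z, z ∈ acc σ ↔ z ∈ W ∧ D (fun t => σ (pos z t)))
    (hED : ∀ σ ∈ E, X ⊆ acc σ ∧ (acc σ).card ≤ s) :
    E.card * W.card.choose X.card ≤ Sg.card * s.choose X.card := by
  classical
  let F : Finset Z → Finset (P → L) := fun Y => Sg.filter (fun σ => Y ⊆ acc σ ∧ (acc σ).card ≤ s)
  have hY : ∀ Y ∈ W.powersetCard X.card, E.card ≤ (F Y).card := by
    intro Y hYm
    rw [mem_powersetCard] at hYm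
    obtain ⟨e, he1, he2⟩ := exists_perm_image W Y X hYm.1 hX hYm.2
    obtain ⟨π, hπ1, hπ2⟩ := exch_perm (W : Set Z) N pos
      (fun z hz z' hz' => hinj z (by exact_mod_cast hz) z' (by exact_mod_cast hz')) e
      (fun z => by simpa using he1 z)
    have key : ∀ σ : P → L, ∀ z ∈ W, (fun t => (σ ∘ π) (pos z t)) = fun t => σ (pos (e z) t) := by
      intro σ z hz
      funext t
      by_cases ht : t ∈ N
      · simp only [Function.comp_apply]
        rw [hπ1 z (by exact_mod_cast hz) t ht]
      · simp only [Function.comp_apply]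
        rw [hπ2 (pos z t), hcst z (e z) t ht]
        intro z' hz' t' ht' hh
        exact hsep z' (by exact_mod_cast hz') z hz t' ht' t ht hh.symm
    have hmem : ∀ σ : P → L, ∀ z, z ∈ acc (σ ∘ π) ↔ e z ∈ acc σ := by
      intro σ z
      rw [hacc, hacc]
      constructor
      · rintro ⟨h1, h2⟩
        rw [key σ z h1] at h2
        exact ⟨(he1 z).mp h1, h2⟩
      · rintro ⟨h1, h2⟩
        have h3 := (he1 z).mpr h1
        refine ⟨h3, ?_⟩
        rw [key σ z h3]
        exact h2
    apply card_le_card_of_injOn (fun σ => σ ∘ π)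
    · intro σ hσ
      have hσ' : σ ∈ E := hσ
      obtain ⟨h1, h2⟩ := hED σ hσ'
      simp only [F, coe_filter, Set.mem_ofPred_eq]
      refine ⟨hSg π σ (hE hσ'), ?_, ?_⟩
      · intro z hz
        exact (hmem σ z).mpr (h1 ((he2 z).mp hz))
      · refine le_trans ?_ h2
        apply card_le_card_of_injOn (fun z => e z)
        · intro z hz
          exact (hmem σ z).mp hz
        · intro z _ z' _ h
          exact e.injective h
    · intro σ _ σ' _ h
      funext q
      have := congrFun h (π.symm q)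
      simpa using this
  have hsum : ∑ Y ∈ W.powersetCard X.card, (F Y).card ≤ Sg.card * s.choose X.card := by
    calc ∑ Y ∈ W.powersetCard X.card, (F Y).card
        = ∑ Y ∈ W.powersetCard X.card, ∑ σ ∈ Sg,
            (if Y ⊆ acc σ ∧ (acc σ).card ≤ s then 1 else 0) := by
          refine sum_congr rfl (fun Y _ => ?_)
          rw [card_filter]
      _ = ∑ σ ∈ Sg, ∑ Y ∈ W.powersetCard X.card,
            (if Y ⊆ acc σ ∧ (acc σ).card ≤ s then 1 else 0) := sum_comm
      _ ≤ ∑ _σ ∈ Sg, s.choose X.card := by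
          refine sum_le_sum (fun σ _ => ?_)
          rw [← card_filter]
          by_cases hs : (acc σ).card ≤ s
          · calc ((W.powersetCard X.card).filter
                  (fun Y => Y ⊆ acc σ ∧ (acc σ).card ≤ s)).card
                ≤ ((acc σ).powersetCard X.card).card := by
                  apply card_le_card
                  intro Y hY
                  rw [mem_filter, mem_powersetCard] at hY
                  exact mem_powersetCard.mpr ⟨hY.2.1, hY.1.2⟩
              _ = (acc σ).card.choose X.card := card_powersetCard _ _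
              _ ≤ s.choose X.card := Nat.choose_le_choose _ hs
          · have : (W.powersetCard X.card).filter
                (fun Y => Y ⊆ acc σ ∧ (acc σ).card ≤ s) = ∅ := by
              apply filter_eq_empty_iff.mpr
              intro Y _ h
              exact hs h.2
            rw [this]
            simp
      _ = Sg.card * s.choose X.card := by simp
  calc E.card * W.card.choose X.card = ∑ _Y ∈ W.powersetCard X.card, E.card := by
        rw [sum_const, card_powersetCard, smul_eq_mul, mul_comm]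
    _ ≤ ∑ Y ∈ W.powersetCard X.card, (F Y).card := sum_le_sum hY
    _ ≤ Sg.card * s.choose X.card := hsum

/-- **Union bound over the advice.**  `Sg'` is the set of the labelings for which the structure
works; each of them is handled by one of the `H` advice values; for the advice `α` there are a set
`W α` of arguments and a set `X α ⊆ W α` of at least `m` of them of which at most `E` are
rejected; at most `F` of the others are accepted. -/
theorem exch_union {P Z L : Type*} [DecidableEq Z] (H M m E F : ℕ) (hEm : E ≤ m)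
    (τ : Fin H → Type*)
    (W X : Fin H → Finset Z) (hX : ∀ α, X α ⊆ W α) (hm : ∀ α, m ≤ (X α).card)
    (hM : ∀ α, M + (X α).card ≤ (W α).card)
    (N : ∀ α, Set (τ α)) (pos : ∀ α, Z → τ α → P)
    (hinj : ∀ α, ∀ z ∈ W α, ∀ z' ∈ W α, ∀ t ∈ N α, ∀ t' ∈ N α,
      pos α z t = pos α z' t' → z = z' ∧ t = t')
    (hcst : ∀ α, ∀ z z', ∀ t, t ∉ N α → pos α z t = pos α z' t)
    (hsep : ∀ α, ∀ z ∈ W α, ∀ z' ∈ W α, ∀ t ∈ N α, ∀ t' , t' ∉ N α → pos α z t ≠ pos α z' t')
    (Sg : Finset (P → L)) (hSg : ∀ π : Equiv.Perm P, ∀ σ ∈ Sg, σ ∘ π ∈ Sg)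
    (D : ∀ α, (τ α → L) → Prop) (Sg' : Finset (P → L)) (hSg' : Sg' ⊆ Sg)
    (hw : ∀ σ ∈ Sg', ∃ α, ∃ R A : Finset Z, R.card ≤ E ∧ A.card ≤ F ∧
      (∀ z ∈ X α, z ∉ R → D α (fun t => σ (pos α z t))) ∧
      (∀ z ∈ W α, z ∉ X α → z ∉ A → ¬ D α (fun t => σ (pos α z t)))) :
    Sg'.card * (M + m).choose (m - E) ≤
      H * (Sg.card * (m.choose (m - E) * (m + F).choose (m - E))) := by
  classical
  -- the labelings handled by `α`
  let G : Fin H → Finset (P → L) := fun α => Sg'.filter (fun σ => ∃ R A : Finset Z,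
      R.card ≤ E ∧ A.card ≤ F ∧
      (∀ z ∈ X α, z ∉ R → D α (fun t => σ (pos α z t))) ∧
      (∀ z ∈ W α, z ∉ X α → z ∉ A → ¬ D α (fun t => σ (pos α z t))))
  have h1 : ∀ α, (G α).card * (M + m).choose (m - E) ≤
      Sg.card * (m.choose (m - E) * (m + F).choose (m - E)) := by
    intro α
    obtain ⟨X', hX', hc⟩ := exists_subset_card_eq (hm α)
    have hMW : M ≤ (W α \ X α).card := by
      rw [card_sdiff_of_subset (hX α)]
      have := hM α
      omega
    obtain ⟨Y', hY', hcY⟩ := exists_subset_card_eq hMW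
    have hd : Disjoint Y' X' := by
      rw [disjoint_left]
      intro z h h'
      exact (mem_sdiff.mp (hY' h)).2 (hX' h')
    have hWsub : Y' ∪ X' ⊆ W α := by
      intro z hz
      rcases mem_union.mp hz with h | h
      · exact (mem_sdiff.mp (hY' h)).1
      · exact hX α (hX' h)
    have hcard : (Y' ∪ X').card = M + m := by
      rw [card_union_of_disjoint hd, hcY, hc]
    let acc : (P → L) → Finset Z := fun σ =>
      (Y' ∪ X').filter (fun z => D α (fun t => σ (pos α z t)))
    let GV : Finset Z → Finset (P → L) := fun V =>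
      (G α).filter (fun σ => V ⊆ acc σ ∧ (acc σ).card ≤ m + F)
    have hGV : ∀ V ∈ X'.powersetCard (m - E),
        (GV V).card * (M + m).choose (m - E) ≤ Sg.card * (m + F).choose (m - E) := by
      intro V hV
      rw [mem_powersetCard] at hV
      have := exch_card (Y' ∪ X') V (hV.1.trans subset_union_right) (N α) (pos α)
        (fun z hz z' hz' => hinj α z (hWsub hz) z' (hWsub hz')) (hcst α)
        (fun z hz z' hz' => hsep α z (hWsub hz) z' (hWsub hz')) Sg hSg (D α) (m + F) (GV V)
        (fun σ hσ => hSg' (mem_filter.mp (mem_filter.mp hσ).1).1) acc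
        (fun σ z => by simp only [acc, mem_filter])
        (fun σ hσ => (mem_filter.mp hσ).2)
      rwa [hcard, hV.2] at this
    have hcov : G α ⊆ (X'.powersetCard (m - E)).biUnion GV := by
      intro σ hσ
      obtain ⟨R, A, hR, hA, hr, ha⟩ := (mem_filter.mp hσ).2
      have h2 : m - E ≤ (X' ∩ acc σ).card := by
        have h3 : X' ⊆ (X' ∩ acc σ) ∪ R := by
          intro z hz
          by_cases h4 : z ∈ R
          · exact mem_union_right _ h4
          · refine mem_union_left _ (mem_inter.mpr ⟨hz, mem_filter.mpr ⟨mem_union_right _ hz, ?_⟩⟩)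
            exact hr z (hX' hz) h4
        have h5 := card_le_card h3
        have h6 := card_union_le (X' ∩ acc σ) R
        omega
      obtain ⟨V, hV, hVc⟩ := exists_subset_card_eq h2
      rw [mem_biUnion]
      refine ⟨V, mem_powersetCard.mpr ⟨hV.trans inter_subset_left, hVc⟩, ?_⟩
      refine mem_filter.mpr ⟨hσ, hV.trans inter_subset_right, ?_⟩
      have h7 : acc σ ⊆ X' ∪ A := by
        intro z hz
        rw [mem_filter] at hz
        rcases mem_union.mp hz.1 with h8 | h8
        · by_contra hcon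
          have h9 : z ∉ A := fun h => hcon (mem_union_right _ h)
          exact ha z (mem_sdiff.mp (hY' h8)).1 (mem_sdiff.mp (hY' h8)).2 h9 hz.2
        · exact mem_union_left _ h8
      have h10 := card_le_card h7
      have h11 := card_union_le X' A
      omega
    calc (G α).card * (M + m).choose (m - E)
        ≤ (∑ V ∈ X'.powersetCard (m - E), (GV V).card) * (M + m).choose (m - E) :=
          Nat.mul_le_mul_right _ ((card_le_card hcov).trans card_biUnion_le)
      _ = ∑ V ∈ X'.powersetCard (m - E), (GV V).card * (M + m).choose (m - E) := by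
          rw [sum_mul]
      _ ≤ ∑ _V ∈ X'.powersetCard (m - E), Sg.card * (m + F).choose (m - E) :=
          sum_le_sum hGV
      _ = Sg.card * (m.choose (m - E) * (m + F).choose (m - E)) := by
          rw [sum_const, card_powersetCard, hc, smul_eq_mul]
          ring
  have h2 : Sg' ⊆ (univ : Finset (Fin H)).biUnion G := by
    intro σ hσ
    obtain ⟨α, hα⟩ := hw σ hσ
    rw [mem_biUnion]
    exact ⟨α, mem_univ _, mem_filter.mpr ⟨hσ, hα⟩⟩
  calc Sg'.card * (M + m).choose (m - E)
      ≤ (∑ α : Fin H, (G α).card) * (M + m).choose (m - E) :=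
        Nat.mul_le_mul_right _ ((card_le_card h2).trans card_biUnion_le)
    _ = ∑ α : Fin H, (G α).card * (M + m).choose (m - E) := by
        rw [sum_mul]
    _ ≤ ∑ _α : Fin H, Sg.card * (m.choose (m - E) * (m + F).choose (m - E)) :=
        sum_le_sum (fun α _ => h1 α)
    _ = H * (Sg.card * (m.choose (m - E) * (m + F).choose (m - E))) := by simp

end Pool.Agent.GGX
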