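import Mathlib
import Pool.Agent.GGX.Exch

/-!
# Selection of arguments with disjoint query positions

`Q` is a set of pairs `(c, g)`; the query `(c, g)` for the argument `z` reads the label of
`c z + g`.
-/

namespace Pool.Agent.GGX

open Finset

section sel

variable {K : Type*} [Field K] [Fintype K] [DecidableEq K]

/-- `z` and `z'` have a common position for two non-constant queries -/
def Conf (Q : Finset (K × K)) (z z' : K) : Prop :=
  ∃ q ∈ Q, ∃ q' ∈ Q, q.1 ≠ 0 ∧ q'.1 ≠ 0 ∧ q.1 * z + q.2 = q'.1 * z' + q'.2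

/-- two queries with different slopes have the same position for `z` -/
def Self (Q : Finset (K × K)) (z : K) : Prop :=
  ∃ q ∈ Q, ∃ q' ∈ Q, q.1 ≠ q'.1 ∧ q.1 * z + q.2 = q'.1 * z + q'.2

omit [Fintype K] [DecidableEq K] in
theorem Conf.symm {Q : Finset (K × K)} {z z' : K} (h : Conf Q z z') : Conf Q z' z := by
  obtain ⟨q, hq, q', hq', h1, h2, h3⟩ := h
  exact ⟨q', hq', q, hq, h2, h1, h3.symm⟩

open Classical in
theorem self_card (Q : Finset (K × K)) :
    ((univ : Finset K).filter (Self Q)).card ≤ Q.card ^ 2 := by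
  have h : (univ : Finset K).filter (Self Q) ⊆
      (Q ×ˢ Q).image (fun q => (q.2.2 - q.1.2) / (q.1.1 - q.2.1)) := by
    intro z hz
    obtain ⟨q, hq, q', hq', h1, h2⟩ := (mem_filter.mp hz).2
    rw [mem_image]
    refine ⟨(q, q'), mem_product.mpr ⟨hq, hq'⟩, ?_⟩
    have h3 : q.1 - q'.1 ≠ 0 := sub_ne_zero.mpr h1
    simp only
    rw [div_eq_iff h3]
    linear_combination -h2
  calc ((univ : Finset K).filter (Self Q)).card ≤ _ := card_le_card h
    _ ≤ (Q ×ˢ Q).card := card_image_le
    _ = Q.card ^ 2 := by rw [card_product]; ring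

open Classical in
theorem conf_card (Q : Finset (K × K)) (z : K) :
    ((univ : Finset K).filter (Conf Q z)).card ≤ Q.card ^ 2 := by
  have h : (univ : Finset K).filter (Conf Q z) ⊆
      (Q ×ˢ Q).image (fun q => (q.1.1 * z + q.1.2 - q.2.2) / q.2.1) := by
    intro z' hz
    obtain ⟨q, hq, q', hq', h1, h2, h3⟩ := (mem_filter.mp hz).2
    rw [mem_image]
    refine ⟨(q, q'), mem_product.mpr ⟨hq, hq'⟩, ?_⟩
    simp only
    rw [div_eq_iff h2]
    linear_combination h3
  calc ((univ : Finset K).filter (Conf Q z)).card ≤ _ := card_le_card h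
    _ ≤ (Q ×ˢ Q).card := card_image_le
    _ = Q.card ^ 2 := by rw [card_product]; ring

/-- a maximal independent set -/
theorem exists_indep {V : Type*} [DecidableEq V] (r : V → V → Prop) (hr : ∀ x y, r x y → r y x)
    (A : Finset V) (d : ℕ) (hd : ∀ x ∈ A, ∀ B ⊆ A, (∀ y ∈ B, r x y) → B.card ≤ d) :
    ∃ I ⊆ A, (∀ x ∈ I, ∀ y ∈ I, x ≠ y → ¬ r x y) ∧ A.card ≤ I.card * (d + 1) := by
  classical
  induction A using Finset.strongInduction with
  | _ A ih =>
    rcases A.eq_empty_or_nonempty with hA | ⟨x, hx⟩
    · exact ⟨∅, empty_subset _, by simp, by simp [hA]⟩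
    · let A' := A.filter (fun y => y ≠ x ∧ ¬ r x y)
      have hA' : A' ⊂ A := by
        refine ⟨filter_subset _ _, fun h => ?_⟩
        exact (mem_filter.mp (h hx)).2.1 rfl
      obtain ⟨I, hI, hind, hc⟩ := ih A' hA' (fun y hy B hB h =>
        hd y (hA'.1 hy) B (hB.trans hA'.1) h)
      have hxI : x ∉ I := fun h => (mem_filter.mp (hI h)).2.1 rfl
      refine ⟨insert x I, ?_, ?_, ?_⟩
      · intro y hy
        rcases mem_insert.mp hy with rfl | h
        · exact hx
        · exact hA'.1 (hI h)
      · intro y hy z hz hne hyz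
        rcases mem_insert.mp hy with rfl | h1
        · rcases mem_insert.mp hz with rfl | h2
          · exact hne rfl
          · exact (mem_filter.mp (hI h2)).2.2 hyz
        · rcases mem_insert.mp hz with rfl | h2
          · exact (mem_filter.mp (hI h1)).2.2 (hr _ _ hyz)
          · exact hind y h1 z h2 hne hyz
      · have h1 : (A.filter (fun y => r x y)).card ≤ d :=
          hd x hx _ (filter_subset _ _) (fun y hy => (mem_filter.mp hy).2)
        have h2 : A ⊆ A' ∪ (insert x (A.filter (fun y => r x y))) := by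
          intro y hy
          by_cases h3 : y = x
          · exact mem_union_right _ (mem_insert.mpr (Or.inl h3))
          · by_cases h4 : r x y
            · exact mem_union_right _ (mem_insert_of_mem (mem_filter.mpr ⟨hy, h4⟩))
            · exact mem_union_left _ (mem_filter.mpr ⟨hy, h3, h4⟩)
        have h5 := card_le_card h2
        have h6 := card_union_le A' (insert x (A.filter (fun y => r x y)))
        have h7 := card_insert_le x (A.filter (fun y => r x y))
        rw [card_insert_of_notMem hxI]
        have h8 : (I.card + 1) * (d + 1) = I.card * (d + 1) + (d + 1) := by ring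
        omega

open Classical in
/-- **Selection.** `S` is the set of the sums; `X` are sums, the other elements of `W` are not. -/
theorem select (S : Finset K) (Q : Finset (K × K)) (B : ℕ)
    (hB : (S.filter (fun x => ∃ x' ∈ S, x' ≠ x ∧ Conf Q x x')).card ≤ B) :
    ∃ X W : Finset K, X ⊆ W ∧ (∀ z ∈ W, (z ∈ S ↔ z ∈ X)) ∧
      S.card ≤ X.card + B + Q.card ^ 2 ∧
      Fintype.card K ≤ (W.card - X.card) * (Q.card ^ 2 + 1) + S.card * (Q.card ^ 2 + 1)
        + Q.card ^ 2 ∧
      (∀ z ∈ W, ¬ Self Q z) ∧ (∀ z ∈ W, ∀ z' ∈ W, z ≠ z' → ¬ Conf Q z z') := by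
  set X := S.filter (fun x => ¬ (∃ x' ∈ S, x' ≠ x ∧ Conf Q x x') ∧ ¬ Self Q x) with hX
  -- the non-sums without conflict with `X`
  set V := (univ : Finset K).filter
    (fun z => z ∉ S ∧ ¬ Self Q z ∧ ∀ x ∈ X, ¬ Conf Q x z) with hV
  obtain ⟨I, hI, hind, hc⟩ := exists_indep (Conf Q) (fun _ _ h => h.symm) V (Q.card ^ 2)
    (fun x _ B _ h => (card_le_card (fun y hy => mem_filter.mpr ⟨mem_univ _, h y hy⟩)).trans
      (conf_card Q x))
  have hdisj : Disjoint X I := by
    rw [disjoint_left]
    intro z h1 h2
    exact (mem_filter.mp (hI h2)).2.1 (mem_filter.mp h1).1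
  refine ⟨X, X ∪ I, subset_union_left, ?_, ?_, ?_, ?_, ?_⟩
  · intro z hz
    constructor
    · intro h
      rcases mem_union.mp hz with h1 | h1
      · exact h1
      · exact absurd h (mem_filter.mp (hI h1)).2.1
    · intro h
      exact (mem_filter.mp h).1
  · have h1 : S ⊆ X ∪ (S.filter (fun x => ∃ x' ∈ S, x' ≠ x ∧ Conf Q x x') ∪
        (univ : Finset K).filter (Self Q)) := by
      intro x hx
      by_cases h2 : ∃ x' ∈ S, x' ≠ x ∧ Conf Q x x'
      · exact mem_union_right _ (mem_union_left _ (mem_filter.mpr ⟨hx, h2⟩))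
      · by_cases h3 : Self Q x
        · exact mem_union_right _ (mem_union_right _ (mem_filter.mpr ⟨mem_univ _, h3⟩))
        · exact mem_union_left _ (mem_filter.mpr ⟨hx, h2, h3⟩)
    have h2 := card_le_card h1
    have h3 := card_union_le X (S.filter (fun x => ∃ x' ∈ S, x' ≠ x ∧ Conf Q x x') ∪
        (univ : Finset K).filter (Self Q))
    have h4 := card_union_le (S.filter (fun x => ∃ x' ∈ S, x' ≠ x ∧ Conf Q x x'))
      ((univ : Finset K).filter (Self Q))
    have h5 := self_card Q
    omega
  · have h1 : (univ : Finset K) ⊆ V ∪ (S ∪ ((univ : Finset K).filter (Self Q) ∪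
        X.biUnion (fun x => (univ : Finset K).filter (Conf Q x)))) := by
      intro z _
      by_cases h2 : z ∈ S
      · exact mem_union_right _ (mem_union_left _ h2)
      · by_cases h3 : Self Q z
        · exact mem_union_right _ (mem_union_right _ (mem_union_left _
            (mem_filter.mpr ⟨mem_univ _, h3⟩)))
        · by_cases h4 : ∀ x ∈ X, ¬ Conf Q x z
          · exact mem_union_left _ (mem_filter.mpr ⟨mem_univ _, h2, h3, h4⟩)
          · push Not at h4
            obtain ⟨x, hx, h5⟩ := h4
            exact mem_union_right _ (mem_union_right _ (mem_union_right _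
              (mem_biUnion.mpr ⟨x, hx, mem_filter.mpr ⟨mem_univ _, h5⟩⟩)))
    have h2 := card_le_card h1
    have h3 := card_union_le V (S ∪ ((univ : Finset K).filter (Self Q) ∪
        X.biUnion (fun x => (univ : Finset K).filter (Conf Q x))))
    have h4 := card_union_le S ((univ : Finset K).filter (Self Q) ∪
        X.biUnion (fun x => (univ : Finset K).filter (Conf Q x)))
    have h5 := card_union_le ((univ : Finset K).filter (Self Q))
      (X.biUnion (fun x => (univ : Finset K).filter (Conf Q x)))
    have h6 := self_card Q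
    have h7 : (X.biUnion (fun x => (univ : Finset K).filter (Conf Q x))).card ≤
        S.card * Q.card ^ 2 := by
      calc (X.biUnion (fun x => (univ : Finset K).filter (Conf Q x))).card
          ≤ ∑ x ∈ X, ((univ : Finset K).filter (Conf Q x)).card := card_biUnion_le
        _ ≤ ∑ _x ∈ X, Q.card ^ 2 := sum_le_sum (fun x _ => conf_card Q x)
        _ = X.card * Q.card ^ 2 := by simp
        _ ≤ S.card * Q.card ^ 2 := Nat.mul_le_mul_right _ (card_le_card (filter_subset _ _))
    have h8 : (X ∪ I).card - X.card = I.card := by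
      rw [card_union_of_disjoint hdisj]
      omega
    rw [h8]
    rw [card_univ] at h2
    have h9 : S.card * (Q.card ^ 2 + 1) = S.card * Q.card ^ 2 + S.card := by ring
    omega
  · intro z hz
    rcases mem_union.mp hz with h | h
    · exact (mem_filter.mp h).2.2
    · exact (mem_filter.mp (hI h)).2.2.1
  · intro z hz z' hz' hne hconf
    rcases mem_union.mp hz with h | h
    · rcases mem_union.mp hz' with h' | h'
      · exact (mem_filter.mp h).2.1 ⟨z', (mem_filter.mp h').1, Ne.symm hne, hconf⟩
      · exact (mem_filter.mp (hI h')).2.2.2 z h hconf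
    · rcases mem_union.mp hz' with h' | h'
      · exact (mem_filter.mp (hI h)).2.2.2 z' h' hconf.symm
      · exact hind z h z' h' hne hconf

end sel

end Pool.Agent.GGX
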