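import Mathlib

/-!
# Arithmetic for the generic group model theorem
-/

namespace Pool.Agent.GGX

open Real

/-- `(M / m) ^ m ≤ C(M + m, m)` -/
theorem choose_lower (M m : ℕ) :
    ((M : ℝ) / m) ^ m ≤ ((M + m).choose m : ℝ) := by
  have h1 : ((M + m + 1 - m : ℕ) ^ m : ℝ) / (m.factorial : ℝ) ≤ ((M + m).choose m : ℝ) :=
    Nat.pow_le_choose (α := ℝ) m (M + m)
  have h2 : (m.factorial : ℝ) ≤ (m : ℝ) ^ m := by exact_mod_cast Nat.factorial_le_pow m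
  have h3 : (0 : ℝ) < m.factorial := by exact_mod_cast Nat.factorial_pos m
  refine le_trans ?_ h1
  rw [div_pow]
  have h4 : (M : ℝ) ^ m ≤ ((M + m + 1 - m : ℕ) : ℝ) ^ m := by
    refine pow_le_pow_left₀ (Nat.cast_nonneg _) ?_ m
    have : M ≤ M + m + 1 - m := by omega
    exact_mod_cast this
  exact div_le_div₀ (by positivity) h4 h3 h2

/-- from the union bound to a bound for the logarithm of the number of advice values -/
theorem log_bound (H M m s s' : ℕ) (hm : 0 < m) (hM : 0 < M) (hs : 0 < s) (hs' : s ≤ 2 * s')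
    (h : s' * (M + m).choose m ≤ H * s) :
    (m : ℝ) * (logb 2 M - logb 2 m) ≤ logb 2 H + 1 := by
  have h1 : s * (M + m).choose m ≤ s * (2 * H) := by
    calc s * (M + m).choose m ≤ 2 * s' * (M + m).choose m := Nat.mul_le_mul_right _ hs'
      _ = 2 * (s' * (M + m).choose m) := by ring
      _ ≤ 2 * (H * s) := Nat.mul_le_mul_left _ h
      _ = s * (2 * H) := by ring
  have h2 : (M + m).choose m ≤ 2 * H := Nat.le_of_mul_le_mul_left h1 hs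
  have h3 : ((M : ℝ) / m) ^ m ≤ 2 * (H : ℝ) := by
    refine (choose_lower M m).trans ?_
    exact_mod_cast h2
  have hmR : (0 : ℝ) < m := by exact_mod_cast hm
  have hMR : (0 : ℝ) < M := by exact_mod_cast hM
  have hpos : (0 : ℝ) < ((M : ℝ) / m) ^ m := by positivity
  have hH : (0 : ℝ) < H := by linarith
  have h4 := logb_le_logb_of_le (b := 2) (by norm_num) hpos h3
  rw [logb_pow, logb_div hMR.ne' hmR.ne', logb_mul (by norm_num) hH.ne', logb_self_eq_one (by norm_num)] at h4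
  linarith

/-- the number of arguments outside the sums that can be chosen greedily -/
theorem many_nonsums (n T p w q : ℕ) (hT : 1 ≤ T) (hq : q ≤ T)
    (hp : 4 * n ^ 2 * (n ^ 2 + 1) ≤ p) (hTn : T ≤ n)
    (h : p ≤ w * (q ^ 2 + 1) + n ^ 2 * (q ^ 2 + 1) + q ^ 2) :
    (p : ℝ) / (4 * (T : ℝ) ^ 2) ≤ w := by
  have hTR : (1 : ℝ) ≤ T := by exact_mod_cast hT
  have hq2 : ((q : ℝ)) ^ 2 ≤ (T : ℝ) ^ 2 := by
    have : (q : ℝ) ≤ T := by exact_mod_cast hq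
    exact pow_le_pow_left₀ (Nat.cast_nonneg _) this 2
  have hT1 : (1 : ℝ) ≤ (T : ℝ) ^ 2 := one_le_pow₀ hTR
  have hTnR : (T : ℝ) ^ 2 ≤ (n : ℝ) ^ 2 := by
    have : (T : ℝ) ≤ n := by exact_mod_cast hTn
    exact pow_le_pow_left₀ (by positivity) this 2
  have hpR : 4 * (n : ℝ) ^ 2 * ((n : ℝ) ^ 2 + 1) ≤ p := by exact_mod_cast hp
  have hR : (p : ℝ) ≤ w * ((q : ℝ) ^ 2 + 1) + (n : ℝ) ^ 2 * ((q : ℝ) ^ 2 + 1) + (q : ℝ) ^ 2 := by
    exact_mod_cast h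
  have hw : (0 : ℝ) ≤ w := Nat.cast_nonneg _
  have hn2 : (0 : ℝ) ≤ (n : ℝ) ^ 2 := by positivity
  rw [div_le_iff₀ (by positivity)]
  have h1 : (p : ℝ) ≤ (w + (n : ℝ) ^ 2) * (2 * (T : ℝ) ^ 2) + (T : ℝ) ^ 2 := by
    have : (w + (n : ℝ) ^ 2) * ((q : ℝ) ^ 2 + 1) ≤ (w + (n : ℝ) ^ 2) * (2 * (T : ℝ) ^ 2) := by
      refine mul_le_mul_of_nonneg_left ?_ (by positivity)
      linarith
    nlinarith
  have h2 : 2 * ((n : ℝ) ^ 2 * (2 * (T : ℝ) ^ 2) + (T : ℝ) ^ 2) ≤ p := by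
    have : 4 * (T : ℝ) ^ 2 * ((n : ℝ) ^ 2 + 1) ≤ 4 * (n : ℝ) ^ 2 * ((n : ℝ) ^ 2 + 1) := by
      refine mul_le_mul_of_nonneg_right ?_ (by positivity)
      linarith
    nlinarith
  nlinarith

/-- choice of the parameters `k` and `r` -/
theorem choose_params (δ : ℝ) (hδ : 0 < δ) :
    ∃ k : ℕ, 2 ≤ k ∧ ∀ ε : ℝ, 0 < ε → ∃ n0 : ℕ, 1 ≤ n0 ∧ ∀ n ≥ n0, ∀ T : ℕ, 1 ≤ T →
      (T : ℝ) ≤ (n : ℝ) ^ (1 - δ) →
      T ≤ n ∧ ∃ r : ℕ, T ≤ r ^ k ∧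
        ((4 * n * (k + 1 + k * r) * T + 4 * T ^ 2 + T ^ 2 : ℕ) : ℝ) ≤ ε * (n : ℝ) ^ 2 := by
  obtain ⟨k1, hk1⟩ := exists_nat_ge (2 / δ)
  set k : ℕ := max 2 k1 with hk
  have hk2 : 2 ≤ k := le_max_left _ _
  have hkδ : 2 ≤ (k : ℝ) * δ := by
    have h1 : (k1 : ℝ) ≤ k := by exact_mod_cast le_max_right 2 k1
    have h2 : 2 / δ ≤ (k : ℝ) := hk1.trans h1
    rwa [div_le_iff₀ hδ] at h2
  refine ⟨k, hk2, ?_⟩
  intro ε hε
  obtain ⟨n1, hn1⟩ := exists_nat_ge ((((12 * k + 9 : ℕ) : ℝ) / ε) ^ (2 / δ))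
  refine ⟨max 1 n1, le_max_left _ _, ?_⟩
  intro n hn T hT hTn
  have hn1' : 1 ≤ n := (le_max_left _ _).trans hn
  have hnR : (1 : ℝ) ≤ n := by exact_mod_cast hn1'
  have hn0 : (0 : ℝ) < n := by linarith
  have hTn' : (T : ℝ) ≤ n := by
    refine hTn.trans ?_
    have := rpow_le_rpow_of_exponent_le hnR (show 1 - δ ≤ 1 by linarith)
    rwa [rpow_one] at this
  refine ⟨by exact_mod_cast hTn', ⌈(n : ℝ) ^ (δ / 2)⌉₊, ?_, ?_⟩
  · have h1 : (n : ℝ) ^ (δ / 2) ≤ (⌈(n : ℝ) ^ (δ / 2)⌉₊ : ℝ) := Nat.le_ceil _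
    have h2 : (n : ℝ) ≤ ((⌈(n : ℝ) ^ (δ / 2)⌉₊ : ℝ)) ^ k := by
      calc (n : ℝ) = (n : ℝ) ^ (1 : ℝ) := (rpow_one _).symm
        _ ≤ (n : ℝ) ^ (δ / 2 * k) := rpow_le_rpow_of_exponent_le hnR (by linarith)
        _ = ((n : ℝ) ^ (δ / 2)) ^ k := by rw [rpow_mul hn0.le, rpow_natCast]
        _ ≤ _ := pow_le_pow_left₀ (by positivity) h1 k
    have h3 : (T : ℝ) ≤ ((⌈(n : ℝ) ^ (δ / 2)⌉₊ : ℝ)) ^ k := hTn'.trans h2
    exact_mod_cast h3
  · set r : ℕ := ⌈(n : ℝ) ^ (δ / 2)⌉₊ with hr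
    have hrle : (r : ℝ) ≤ (n : ℝ) ^ (δ / 2) + 1 := (Nat.ceil_lt_add_one (by positivity)).le
    set y : ℝ := (n : ℝ) ^ (δ / 2) with hy
    have hy1 : 1 ≤ y := one_le_rpow hnR (by linarith)
    have hy0 : 0 < y := by linarith
    have hyy : y * y = (n : ℝ) ^ δ := by
      rw [hy, ← rpow_add hn0]
      congr 1
      ring
    have hTy : (T : ℝ) * (y * y) ≤ n := by
      calc (T : ℝ) * (y * y) ≤ (n : ℝ) ^ (1 - δ) * (n : ℝ) ^ δ := by
            rw [hyy]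
            exact mul_le_mul_of_nonneg_right hTn (by positivity)
        _ = n := by
            rw [← rpow_add hn0]
            simp
    have hbig : ((12 * k + 9 : ℕ) : ℝ) ≤ ε * y := by
      have h1 : (((12 * k + 9 : ℕ) : ℝ) / ε) ^ (2 / δ) ≤ n :=
        hn1.trans (by exact_mod_cast (le_max_right 1 n1).trans hn)
      have h2 := rpow_le_rpow (by positivity) h1 (show 0 ≤ δ / 2 by positivity)
      rw [← rpow_mul (by positivity)] at h2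
      have h3 : 2 / δ * (δ / 2) = 1 := by field_simp
      rw [h3, rpow_one, div_le_iff₀ hε] at h2
      linarith
    have hTy1 : (T : ℝ) * y ≤ n / y := by
      rw [le_div_iff₀ hy0]
      linarith [hTy]
    have hT0 : (0 : ℝ) ≤ T := Nat.cast_nonneg _
    have hk0 : (0 : ℝ) ≤ k := Nat.cast_nonneg _
    have hTle : (T : ℝ) ≤ n / y := by
      refine le_trans ?_ hTy1
      exact le_mul_of_one_le_right hT0 hy1
    have hmain : 4 * (n : ℝ) * ((k : ℝ) + 1 + k * r) * T + 5 * (T : ℝ) ^ 2 ≤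
        (12 * (k : ℝ) + 9) * ((n : ℝ) * (n / y)) := by
      have e1 : ((k : ℝ) + 1 + k * r) * T ≤ (3 * (k : ℝ) + 1) * (n / y) := by
        have : ((k : ℝ) + 1 + k * r) ≤ (2 * (k : ℝ) + 1) + k * y := by nlinarith
        calc ((k : ℝ) + 1 + k * r) * T ≤ ((2 * (k : ℝ) + 1) + k * y) * T :=
              mul_le_mul_of_nonneg_right this hT0
          _ = (2 * (k : ℝ) + 1) * T + k * (T * y) := by ring
          _ ≤ (2 * (k : ℝ) + 1) * (n / y) + k * (n / y) := by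
              refine add_le_add (mul_le_mul_of_nonneg_left hTle (by positivity))
                (mul_le_mul_of_nonneg_left hTy1 hk0)
          _ = _ := by ring
      have e2 : (T : ℝ) ^ 2 ≤ (n : ℝ) * (n / y) := by
        rw [pow_two]
        exact mul_le_mul hTn' hTle hT0 (by positivity)
      have e3 : 4 * (n : ℝ) * (((k : ℝ) + 1 + k * r) * T) ≤
          4 * (n : ℝ) * ((3 * (k : ℝ) + 1) * (n / y)) :=
        mul_le_mul_of_nonneg_left e1 (by positivity)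
      nlinarith
    have hfin : (12 * (k : ℝ) + 9) * ((n : ℝ) * (n / y)) ≤ ε * (n : ℝ) ^ 2 := by
      have h1 : (12 * (k : ℝ) + 9) ≤ ε * y := by
        have := hbig
        push_cast at this
        exact this
      calc (12 * (k : ℝ) + 9) * ((n : ℝ) * (n / y)) ≤ (ε * y) * ((n : ℝ) * (n / y)) :=
            mul_le_mul_of_nonneg_right h1 (by positivity)
        _ = ε * (n : ℝ) ^ 2 := by
            field_simp
    push_cast
    linarith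

/-- the bound needed for the number of the bad arrays -/
theorem count_bound (n k : ℕ) (hn8 : 8 ≤ n) :
    n * ((4 * n + 1) ^ (4 * k) + 8 * n ^ 12) ≤ n ^ (8 * k + 15) := by
  have h0 : 4 * n + 1 ≤ n ^ 2 := by
    calc 4 * n + 1 ≤ 8 * n := by omega
      _ ≤ n * n := Nat.mul_le_mul_right _ hn8
      _ = n ^ 2 := by ring
  have h1 : (4 * n + 1) ^ (4 * k) ≤ n ^ (8 * k) := by
    calc (4 * n + 1) ^ (4 * k) ≤ (n ^ 2) ^ (4 * k) := Nat.pow_le_pow_left h0 _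
      _ = n ^ (8 * k) := by
        rw [← pow_mul]
        congr 1
        ring
  have h2 : 8 * n ^ 12 ≤ n ^ (8 * k + 13) := by
    calc 8 * n ^ 12 ≤ n * n ^ 12 := Nat.mul_le_mul_right _ hn8
      _ = n ^ 13 := by ring
      _ ≤ n ^ (8 * k + 13) := Nat.pow_le_pow_right (by omega) (by omega)
  have h3 : n ^ (8 * k) ≤ n ^ (8 * k + 13) := Nat.pow_le_pow_right (by omega) (by omega)
  calc n * ((4 * n + 1) ^ (4 * k) + 8 * n ^ 12) ≤ n * (n ^ (8 * k + 13) + n ^ (8 * k + 13)) :=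
        Nat.mul_le_mul_left _ (Nat.add_le_add (h1.trans h3) h2)
    _ = 2 * n ^ (8 * k + 14) := by ring
    _ ≤ n * n ^ (8 * k + 14) := Nat.mul_le_mul_right _ (by omega)
    _ = n ^ (8 * k + 15) := by ring

/-- the greedy number is large -/
theorem greedy_large (n T p M : ℕ) (hT : 1 ≤ T) (hTn : T ≤ n)
    (hp : 8 * n ^ 2 * (n ^ 2 + 2) ≤ p)
    (h : p < (M + 1) * (T ^ 2 + 1) + (n ^ 2 * (T ^ 2 + 1) + T ^ 2)) :
    (p : ℝ) / (4 * (T : ℝ) ^ 2) ≤ M := by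
  have hTR : (1 : ℝ) ≤ T := by exact_mod_cast hT
  have hT1 : (1 : ℝ) ≤ (T : ℝ) ^ 2 := one_le_pow₀ hTR
  have hTnR : (T : ℝ) ^ 2 ≤ (n : ℝ) ^ 2 := by
    have : (T : ℝ) ≤ n := by exact_mod_cast hTn
    exact pow_le_pow_left₀ (by positivity) this 2
  have hpR : 8 * (n : ℝ) ^ 2 * ((n : ℝ) ^ 2 + 2) ≤ p := by exact_mod_cast hp
  have hR : (p : ℝ) < (M + 1) * ((T : ℝ) ^ 2 + 1) + ((n : ℝ) ^ 2 * ((T : ℝ) ^ 2 + 1) + (T : ℝ) ^ 2) := by
    exact_mod_cast h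
  have hM : (0 : ℝ) ≤ M := Nat.cast_nonneg _
  have hn2 : (0 : ℝ) ≤ (n : ℝ) ^ 2 := by positivity
  rw [div_le_iff₀ (by positivity)]
  have h1 : (p : ℝ) ≤ (M + 1 + (n : ℝ) ^ 2) * (2 * (T : ℝ) ^ 2) + (T : ℝ) ^ 2 := by
    have : (M + 1 + (n : ℝ) ^ 2) * ((T : ℝ) ^ 2 + 1) ≤ (M + 1 + (n : ℝ) ^ 2) * (2 * (T : ℝ) ^ 2) := by
      refine mul_le_mul_of_nonneg_left ?_ (by positivity)
      linarith
    linarith
  have h2 : 8 * (T : ℝ) ^ 2 * ((n : ℝ) ^ 2 + 2) ≤ p := by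
    refine le_trans ?_ hpR
    refine mul_le_mul_of_nonneg_right ?_ (by positivity)
    linarith
  nlinarith

/-- from the greedy number to a power of `p` -/
theorem power_bound (n T p M m C : ℕ) (ε : ℝ) (hε : 0 < ε) (hε1 : ε < 1) (hn : 8 ≤ n)
    (hT : 1 ≤ T) (hTn : T ≤ n) (hC : 10 / ε ≤ C) (hp : n ^ C ≤ p)
    (hM : (p : ℝ) / (4 * (T : ℝ) ^ 2) ≤ M)
    (hm : (1 - ε / 2) * (n : ℝ) ^ 2 ≤ m) (hmn : m ≤ n ^ 2) :
    (p : ℝ) ^ ((1 - ε) * (n : ℝ) ^ 2) ≤ ((M + m).choose m : ℝ) := by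
  have hn8R : (8 : ℝ) ≤ n := by exact_mod_cast hn
  have hn1R : (1 : ℝ) ≤ n := by linarith
  have hn0 : (0 : ℝ) < n := by linarith
  have hTR : (1 : ℝ) ≤ T := by exact_mod_cast hT
  have hC0 : (0 : ℝ) < C := lt_of_lt_of_le (by positivity) hC
  have hpR : (n : ℝ) ^ (C : ℝ) ≤ p := by
    rw [rpow_natCast]
    exact_mod_cast hp
  have hp1 : (1 : ℝ) ≤ p := (one_le_rpow hn1R hC0.le).trans hpR
  have hp0 : (0 : ℝ) < p := by linarith
  have hm0 : (0 : ℝ) < m := by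
    refine lt_of_lt_of_le ?_ hm
    have : 0 < 1 - ε / 2 := by linarith
    positivity
  have hTnR : (T : ℝ) ^ 2 ≤ (n : ℝ) ^ 2 := by
    have : (T : ℝ) ≤ n := by exact_mod_cast hTn
    exact pow_le_pow_left₀ (by positivity) this 2
  have hmnR : (m : ℝ) ≤ (n : ℝ) ^ 2 := by exact_mod_cast hmn
  have h4 : (4 : ℝ) * (n : ℝ) ^ 2 * (n : ℝ) ^ 2 ≤ (p : ℝ) ^ (ε / 2) := by
    have h41 : (n : ℝ) ^ (5 : ℕ) ≤ (p : ℝ) ^ (ε / 2) := by
      have h5 : (n : ℝ) ^ ((C : ℝ) * (ε / 2)) ≤ (p : ℝ) ^ (ε / 2) := by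
        rw [rpow_mul hn0.le]
        exact rpow_le_rpow (by positivity) hpR (by positivity)
      refine le_trans ?_ h5
      rw [← rpow_natCast]
      refine rpow_le_rpow_of_exponent_le hn1R ?_
      rw [div_le_iff₀ hε] at hC
      push_cast
      linarith
    refine le_trans ?_ h41
    calc (4 : ℝ) * (n : ℝ) ^ 2 * (n : ℝ) ^ 2 ≤ (n : ℝ) * (n : ℝ) ^ 2 * (n : ℝ) ^ 2 := by
          refine mul_le_mul_of_nonneg_right (mul_le_mul_of_nonneg_right ?_ ?_) ?_ <;>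
            first | linarith | positivity
      _ = (n : ℝ) ^ (5 : ℕ) := by ring
  have h6 : (p : ℝ) ^ (1 - ε / 2) ≤ (M : ℝ) / m := by
    rw [le_div_iff₀ hm0]
    refine le_trans ?_ hM
    rw [le_div_iff₀ (by positivity)]
    calc (p : ℝ) ^ (1 - ε / 2) * m * (4 * (T : ℝ) ^ 2)
        ≤ (p : ℝ) ^ (1 - ε / 2) * (n : ℝ) ^ 2 * (4 * (n : ℝ) ^ 2) := by
          refine mul_le_mul (mul_le_mul_of_nonneg_left hmnR (by positivity)) (by linarith)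
            (by positivity) (by positivity)
      _ = (p : ℝ) ^ (1 - ε / 2) * (4 * (n : ℝ) ^ 2 * (n : ℝ) ^ 2) := by ring
      _ ≤ (p : ℝ) ^ (1 - ε / 2) * (p : ℝ) ^ (ε / 2) :=
          mul_le_mul_of_nonneg_left h4 (by positivity)
      _ = p := by
          rw [← rpow_add hp0]
          simp
  refine le_trans ?_ (choose_lower M m)
  calc (p : ℝ) ^ ((1 - ε) * (n : ℝ) ^ 2) ≤ (p : ℝ) ^ ((1 - ε / 2) * m) := by
        refine rpow_le_rpow_of_exponent_le hp1 ?_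
        have e1 : (1 - ε) * (n : ℝ) ^ 2 ≤ (1 - ε / 2) * ((1 - ε / 2) * (n : ℝ) ^ 2) := by
          have : (1 - ε) ≤ (1 - ε / 2) * (1 - ε / 2) := by nlinarith [sq_nonneg ε]
          calc (1 - ε) * (n : ℝ) ^ 2 ≤ ((1 - ε / 2) * (1 - ε / 2)) * (n : ℝ) ^ 2 :=
                mul_le_mul_of_nonneg_right this (by positivity)
            _ = _ := by ring
        refine e1.trans (mul_le_mul_of_nonneg_left hm (by linarith))
    _ = ((p : ℝ) ^ (1 - ε / 2)) ^ m := by rw [rpow_mul hp0.le, rpow_natCast]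
    _ ≤ ((M : ℝ) / m) ^ m := pow_le_pow_left₀ (by positivity) h6 m

/-- **All parameters**, in the form used in the assembly. -/
theorem params (δ : ℝ) (hδ : 0 < δ) (hδ1 : δ < 1) :
    ∃ k : ℕ, 2 ≤ k ∧ ∀ ε : ℝ, 0 < ε → ε < 1 → ∃ C n0 : ℕ, ∀ n ≥ n0, ∀ p : ℕ, n ^ C ≤ p →
      ∀ T : ℕ, (T : ℝ) ≤ (n : ℝ) ^ (1 - δ) →
      ∃ r m M : ℕ, T ≤ r ^ k ∧
        m + (4 * n * ((k + 1 + k * r) * T) + 4 * T ^ 2) + T ^ 2 ≤ n ^ 2 ∧
        M * (T ^ 2 + 1) + n ^ 2 * (T ^ 2 + 1) + T ^ 2 ≤ p ∧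
        (p : ℝ) ^ ((1 - ε) * (n : ℝ) ^ 2) ≤ ((M + m).choose m : ℝ) ∧
        n * ((4 * n + 1) ^ (4 * k) + 8 * n ^ 12) ≤ p := by
  obtain ⟨k, hk2, hk⟩ := choose_params δ hδ
  refine ⟨k, hk2, ?_⟩
  intro ε hε hε1
  obtain ⟨n1, hn1, hmain⟩ := hk (ε / 2) (by positivity)
  obtain ⟨C1, hC1⟩ := exists_nat_ge (10 / ε)
  refine ⟨max (8 * k + 15) C1, max 8 n1, ?_⟩
  intro n hn p hp T hT
  have hn8 : 8 ≤ n := (le_max_left _ _).trans hn
  have hnn1 : n1 ≤ n := (le_max_right _ _).trans hn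
  set C : ℕ := max (8 * k + 15) C1 with hC
  have hC15 : 8 * k + 15 ≤ C := le_max_left _ _
  have hn8R : (8 : ℝ) ≤ n := by exact_mod_cast hn8
  have hn1R : (1 : ℝ) ≤ n := by linarith
  have hn0 : (0 : ℝ) < n := by linarith
  -- the replacement of `T` by `max T 1`
  set T' : ℕ := max T 1 with hT'
  have hT'1 : 1 ≤ T' := le_max_right _ _
  have hTT' : T ≤ T' := le_max_left _ _
  have hT'R : (T' : ℝ) ≤ (n : ℝ) ^ (1 - δ) := by
    rcases le_total T 1 with h | h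
    · rw [hT', max_eq_right h]
      push_cast
      exact one_le_rpow hn1R (by linarith)
    · rw [hT', max_eq_left h]
      exact hT
  obtain ⟨hT'n, r, hr, hsmall⟩ := hmain n hnn1 T' hT'1 hT'R
  set m : ℕ := n ^ 2 - (4 * n * (k + 1 + k * r) * T' + 4 * T' ^ 2 + T' ^ 2) with hm
  set M : ℕ := (p - (n ^ 2 * (T' ^ 2 + 1) + T' ^ 2)) / (T' ^ 2 + 1) with hM
  have hle : 4 * n * (k + 1 + k * r) * T' + 4 * T' ^ 2 + T' ^ 2 ≤ n ^ 2 := by
    have h1 : ((4 * n * (k + 1 + k * r) * T' + 4 * T' ^ 2 + T' ^ 2 : ℕ) : ℝ) ≤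
        ((n ^ 2 : ℕ) : ℝ) := by
      push_cast
      push_cast at hsmall
      nlinarith [sq_nonneg (n : ℝ)]
    exact_mod_cast h1
  have hmR : (1 - ε / 2) * (n : ℝ) ^ 2 ≤ m := by
    rw [hm, Nat.cast_sub hle]
    push_cast
    push_cast at hsmall
    linarith
  have hmn : m ≤ n ^ 2 := Nat.sub_le _ _
  have hm0 : (0 : ℝ) < m := by
    refine lt_of_lt_of_le ?_ hmR
    have : 0 < 1 - ε / 2 := by linarith
    positivity
  have hT2 : T' ^ 2 ≤ n ^ 2 := Nat.pow_le_pow_left hT'n 2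
  have hT2' : T ^ 2 ≤ T' ^ 2 := Nat.pow_le_pow_left hTT' 2
  -- the size of `p`
  have hpn : n ^ (8 * k + 15) ≤ p := (Nat.pow_le_pow_right (by omega) hC15).trans hp
  have hp6 : n ^ 6 ≤ p := (Nat.pow_le_pow_right (by omega) (by omega)).trans hpn
  have hpbig : 8 * n ^ 2 * (n ^ 2 + 2) ≤ p := by
    refine le_trans ?_ hp6
    have e1 : n ^ 2 + 2 ≤ 2 * n ^ 2 := by nlinarith
    have e2 : 16 ≤ n ^ 2 := by nlinarith
    calc 8 * n ^ 2 * (n ^ 2 + 2) ≤ 8 * n ^ 2 * (2 * n ^ 2) := Nat.mul_le_mul_left _ e1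
      _ = 16 * (n ^ 2 * n ^ 2) := by ring
      _ ≤ n ^ 2 * (n ^ 2 * n ^ 2) := Nat.mul_le_mul_right _ e2
      _ = n ^ 6 := by ring
  have hsub : n ^ 2 * (T' ^ 2 + 1) + T' ^ 2 ≤ p := by
    refine le_trans ?_ hpbig
    have e1 : n ^ 2 * (T' ^ 2 + 1) ≤ n ^ 2 * (n ^ 2 + 2) := Nat.mul_le_mul_left _ (by omega)
    have e2 : T' ^ 2 ≤ n ^ 2 * (n ^ 2 + 2) := by
      calc T' ^ 2 ≤ n ^ 2 := hT2
        _ = n ^ 2 * 1 := by ring
        _ ≤ n ^ 2 * (n ^ 2 + 2) := Nat.mul_le_mul_left _ (by omega)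
    calc n ^ 2 * (T' ^ 2 + 1) + T' ^ 2 ≤ n ^ 2 * (n ^ 2 + 2) + n ^ 2 * (n ^ 2 + 2) :=
          Nat.add_le_add e1 e2
      _ = 2 * (n ^ 2 * (n ^ 2 + 2)) := by ring
      _ ≤ 8 * (n ^ 2 * (n ^ 2 + 2)) := Nat.mul_le_mul_right _ (by norm_num)
      _ = 8 * n ^ 2 * (n ^ 2 + 2) := by ring
  have hMle : M * (T' ^ 2 + 1) + n ^ 2 * (T' ^ 2 + 1) + T' ^ 2 ≤ p := by
    have : M * (T' ^ 2 + 1) ≤ p - (n ^ 2 * (T' ^ 2 + 1) + T' ^ 2) := Nat.div_mul_le_self _ _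
    omega
  have hMge : (p : ℝ) / (4 * (T' : ℝ) ^ 2) ≤ M := by
    refine greedy_large n T' p M hT'1 hT'n hpbig ?_
    have h1 : p - (n ^ 2 * (T' ^ 2 + 1) + T' ^ 2) < (M + 1) * (T' ^ 2 + 1) := by
      have := Nat.lt_mul_div_succ (p - (n ^ 2 * (T' ^ 2 + 1) + T' ^ 2)) (Nat.succ_pos (T' ^ 2))
      rw [mul_comm (M + 1)]
      exact this
    omega
  refine ⟨r, m, M, hTT'.trans hr, ?_, ?_, ?_, (count_bound n k hn8).trans hpn⟩
  · have h1 : 4 * n * ((k + 1 + k * r) * T) ≤ 4 * n * (k + 1 + k * r) * T' := by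
      rw [← mul_assoc]
      exact Nat.mul_le_mul_left _ hTT'
    omega
  · have h1 : M * (T ^ 2 + 1) ≤ M * (T' ^ 2 + 1) := Nat.mul_le_mul_left _ (by omega)
    have h2 : n ^ 2 * (T ^ 2 + 1) ≤ n ^ 2 * (T' ^ 2 + 1) := Nat.mul_le_mul_left _ (by omega)
    omega
  · refine power_bound n T' p M m C ε hε hε1 hn8 hT'1 hT'n (hC1.trans ?_) hp hMge hmR hmn
    exact_mod_cast le_max_right _ _

/-- from the greedy number to a power of `p`, with errors -/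
theorem power_bound2 (n T p M m E F C : ℕ) (ε : ℝ) (hε : 0 < ε) (hε1 : ε < 1) (hn : 8 ≤ n)
    (hT : 1 ≤ T) (hTn : T ≤ n) (hC : 40 / ε ≤ C) (hp : n ^ C ≤ p)
    (hM : (p : ℝ) / (4 * (T : ℝ) ^ 2) ≤ M)
    (hm : (1 - ε / 8) * (n : ℝ) ^ 2 ≤ m) (hmn : m ≤ n ^ 2)
    (hE : (E : ℝ) ≤ ε / 8 * (n : ℝ) ^ 2) (hF : (F : ℝ) ≤ (p : ℝ) ^ (ε / 8)) :
    E ≤ m ∧ (p : ℝ) ^ ((1 - ε) * (n : ℝ) ^ 2) * (m.choose (m - E) : ℝ) *
      ((m + F).choose (m - E) : ℝ) ≤ ((M + m).choose (m - E) : ℝ) := by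
  have hn8R : (8 : ℝ) ≤ n := by exact_mod_cast hn
  have hn1R : (1 : ℝ) ≤ n := by linarith
  have hn0 : (0 : ℝ) < n := by linarith
  have hn2 : (0 : ℝ) < (n : ℝ) ^ 2 := by positivity
  have hTR : (1 : ℝ) ≤ T := by exact_mod_cast hT
  have hC0 : (0 : ℝ) < C := lt_of_lt_of_le (by positivity) hC
  have hpR : (n : ℝ) ^ (C : ℝ) ≤ p := by
    rw [rpow_natCast]
    exact_mod_cast hp
  have hp1 : (1 : ℝ) ≤ p := (one_le_rpow hn1R hC0.le).trans hpR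
  have hp0 : (0 : ℝ) < p := by linarith
  have hEm : E ≤ m := by
    have : (E : ℝ) ≤ m := by
      refine hE.trans (le_trans ?_ hm)
      exact mul_le_mul_of_nonneg_right (by linarith) hn2.le
    exact_mod_cast this
  refine ⟨hEm, ?_⟩
  set m' : ℕ := m - E with hm'
  have hm'R : (1 - ε / 4) * (n : ℝ) ^ 2 ≤ m' := by
    rw [hm', Nat.cast_sub hEm]
    have : (1 - ε / 4) * (n : ℝ) ^ 2 = (1 - ε / 8) * (n : ℝ) ^ 2 - ε / 8 * (n : ℝ) ^ 2 := by ring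
    linarith
  have hm0 : (0 : ℝ) < m' := by
    refine lt_of_lt_of_le ?_ hm'R
    have : 0 < 1 - ε / 4 := by linarith
    positivity
  have hm'm : m' ≤ m := Nat.sub_le _ _
  have hTnR : (T : ℝ) ^ 2 ≤ (n : ℝ) ^ 2 := by
    have : (T : ℝ) ≤ n := by exact_mod_cast hTn
    exact pow_le_pow_left₀ (by positivity) this 2
  have hmnR : (m : ℝ) ≤ (n : ℝ) ^ 2 := by exact_mod_cast hmn
  have hm'nR : (m' : ℝ) ≤ (n : ℝ) ^ 2 := by exact_mod_cast hm'm.trans hmn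
  set y : ℝ := (p : ℝ) ^ (ε / 8) with hy
  have hy0 : 0 < y := by positivity
  have h41 : (n : ℝ) ^ (5 : ℕ) ≤ y := by
    have h5 : (n : ℝ) ^ ((C : ℝ) * (ε / 8)) ≤ (p : ℝ) ^ (ε / 8) := by
      rw [rpow_mul hn0.le]
      exact rpow_le_rpow (by positivity) hpR (by positivity)
    refine le_trans ?_ h5
    rw [← rpow_natCast]
    refine rpow_le_rpow_of_exponent_le hn1R ?_
    rw [div_le_iff₀ hε] at hC
    push_cast
    linarith
  have hn5 : (n : ℝ) ^ 2 ≤ (n : ℝ) ^ (5 : ℕ) := pow_le_pow_right₀ hn1R (by norm_num)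
  have h2y : (2 : ℝ) ≤ y := by
    refine le_trans ?_ h41
    refine le_trans ?_ hn5
    nlinarith
  have hn2y : (n : ℝ) ^ 2 ≤ y := hn5.trans h41
  have h4y : (4 : ℝ) * (n : ℝ) ^ 2 * (n : ℝ) ^ 2 ≤ y := by
    refine le_trans ?_ h41
    have : (4 : ℝ) * ((n : ℝ) ^ 2 * (n : ℝ) ^ 2) ≤ (n : ℝ) * ((n : ℝ) ^ 2 * (n : ℝ) ^ 2) :=
      mul_le_mul_of_nonneg_right (by linarith) (by positivity)
    calc (4 : ℝ) * (n : ℝ) ^ 2 * (n : ℝ) ^ 2 = (4 : ℝ) * ((n : ℝ) ^ 2 * (n : ℝ) ^ 2) := by ring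
      _ ≤ (n : ℝ) * ((n : ℝ) ^ 2 * (n : ℝ) ^ 2) := this
      _ = (n : ℝ) ^ (5 : ℕ) := by ring
  -- the lower bound
  have h6 : (p : ℝ) ^ (1 - ε / 8) ≤ (M : ℝ) / m' := by
    rw [le_div_iff₀ hm0]
    refine le_trans ?_ hM
    rw [le_div_iff₀ (by positivity)]
    calc (p : ℝ) ^ (1 - ε / 8) * m' * (4 * (T : ℝ) ^ 2)
        ≤ (p : ℝ) ^ (1 - ε / 8) * (n : ℝ) ^ 2 * (4 * (n : ℝ) ^ 2) := by
          refine mul_le_mul (mul_le_mul_of_nonneg_left hm'nR (by positivity)) (by linarith)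
            (by positivity) (by positivity)
      _ = (p : ℝ) ^ (1 - ε / 8) * (4 * (n : ℝ) ^ 2 * (n : ℝ) ^ 2) := by ring
      _ ≤ (p : ℝ) ^ (1 - ε / 8) * y := mul_le_mul_of_nonneg_left h4y (by positivity)
      _ = p := by
          rw [hy, ← rpow_add hp0]
          simp
  have hlow : (p : ℝ) ^ ((1 - ε / 8) * m') ≤ ((M + m).choose m' : ℝ) := by
    calc (p : ℝ) ^ ((1 - ε / 8) * m') = ((p : ℝ) ^ (1 - ε / 8)) ^ m' := by
          rw [rpow_mul hp0.le, rpow_natCast]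
      _ ≤ ((M : ℝ) / m') ^ m' := pow_le_pow_left₀ (by positivity) h6 m'
      _ ≤ ((M + m').choose m' : ℝ) := choose_lower M m'
      _ ≤ ((M + m).choose m' : ℝ) := by
          exact_mod_cast Nat.choose_le_choose m' (Nat.add_le_add_left hm'm M)
  -- the upper bounds
  have hup1 : (m.choose m' : ℝ) ≤ (p : ℝ) ^ (ε / 8 * (n : ℝ) ^ 2) := by
    calc (m.choose m' : ℝ) ≤ ((2 ^ m : ℕ) : ℝ) := by exact_mod_cast Nat.choose_le_two_pow m m'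
      _ = (2 : ℝ) ^ (m : ℝ) := by rw [rpow_natCast]; push_cast; rfl
      _ ≤ (2 : ℝ) ^ ((n : ℝ) ^ 2) := rpow_le_rpow_of_exponent_le (by norm_num) hmnR
      _ ≤ y ^ ((n : ℝ) ^ 2) := rpow_le_rpow (by norm_num) h2y hn2.le
      _ = (p : ℝ) ^ (ε / 8 * (n : ℝ) ^ 2) := by rw [hy, ← rpow_mul hp0.le]
  have hmF : ((m + F : ℕ) : ℝ) ≤ (p : ℝ) ^ (ε / 4) := by
    push_cast
    have : (p : ℝ) ^ (ε / 4) = y * y := by
      rw [hy, ← rpow_add hp0]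
      congr 1
      ring
    rw [this]
    have h1 : (m : ℝ) + F ≤ 2 * y := by linarith
    exact h1.trans (mul_le_mul_of_nonneg_right h2y hy0.le)
  have hup2 : ((m + F).choose m' : ℝ) ≤ (p : ℝ) ^ (ε / 4 * m') := by
    calc ((m + F).choose m' : ℝ) ≤ (((m + F) ^ m' : ℕ) : ℝ) := by
          exact_mod_cast Nat.choose_le_pow (m + F) m'
      _ = (((m + F : ℕ) : ℝ)) ^ m' := by push_cast; rfl
      _ ≤ ((p : ℝ) ^ (ε / 4)) ^ m' := pow_le_pow_left₀ (Nat.cast_nonneg _) hmF m'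
      _ = (p : ℝ) ^ (ε / 4 * m') := by rw [rpow_mul hp0.le, rpow_natCast]
  refine le_trans ?_ hlow
  calc (p : ℝ) ^ ((1 - ε) * (n : ℝ) ^ 2) * (m.choose m' : ℝ) * ((m + F).choose m' : ℝ)
      ≤ (p : ℝ) ^ ((1 - ε) * (n : ℝ) ^ 2) * (p : ℝ) ^ (ε / 8 * (n : ℝ) ^ 2) *
        (p : ℝ) ^ (ε / 4 * m') := by
        refine mul_le_mul (mul_le_mul_of_nonneg_left hup1 (by positivity)) hup2
          (Nat.cast_nonneg _) (by positivity)
    _ = (p : ℝ) ^ ((1 - ε) * (n : ℝ) ^ 2 + ε / 8 * (n : ℝ) ^ 2 + ε / 4 * m') := by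
        rw [rpow_add hp0, rpow_add hp0]
    _ ≤ (p : ℝ) ^ ((1 - ε / 8) * m') := by
        refine rpow_le_rpow_of_exponent_le hp1 ?_
        have e1 : (1 - 7 * ε / 8) * (n : ℝ) ^ 2 ≤ (1 - 3 * ε / 8) * ((1 - ε / 4) * (n : ℝ) ^ 2) := by
          have : (1 - 7 * ε / 8) ≤ (1 - 3 * ε / 8) * (1 - ε / 4) := by nlinarith [sq_nonneg ε]
          calc (1 - 7 * ε / 8) * (n : ℝ) ^ 2 ≤ ((1 - 3 * ε / 8) * (1 - ε / 4)) * (n : ℝ) ^ 2 :=
                mul_le_mul_of_nonneg_right this hn2.le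
            _ = _ := by ring
        have e2 : (1 - 3 * ε / 8) * ((1 - ε / 4) * (n : ℝ) ^ 2) ≤ (1 - 3 * ε / 8) * m' :=
          mul_le_mul_of_nonneg_left hm'R (by linarith)
        linarith

/-- **All parameters**, with errors, in the form used in the assembly. -/
theorem params2 (δ : ℝ) (hδ : 0 < δ) (hδ1 : δ < 1) :
    ∃ k : ℕ, 2 ≤ k ∧ ∀ ε : ℝ, 0 < ε → ε < 1 → ∃ C n0 : ℕ, ∀ n ≥ n0, ∀ p : ℕ, n ^ C ≤ p →
      ∀ T : ℕ, (T : ℝ) ≤ (n : ℝ) ^ (1 - δ) →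
      ∀ E F : ℕ, (E : ℝ) ≤ ε / 8 * (n : ℝ) ^ 2 → (F : ℝ) ≤ (p : ℝ) ^ (ε / 8) →
      ∃ r m M : ℕ, T ≤ r ^ k ∧ E ≤ m ∧
        m + (4 * n * ((k + 1 + k * r) * T) + 4 * T ^ 2) + T ^ 2 ≤ n ^ 2 ∧
        M * (T ^ 2 + 1) + n ^ 2 * (T ^ 2 + 1) + T ^ 2 ≤ p ∧
        (p : ℝ) ^ ((1 - ε) * (n : ℝ) ^ 2) * (m.choose (m - E) : ℝ) *
          ((m + F).choose (m - E) : ℝ) ≤ ((M + m).choose (m - E) : ℝ) ∧
        n * ((4 * n + 1) ^ (4 * k) + 8 * n ^ 12) ≤ p := by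
  obtain ⟨k, hk2, hk⟩ := choose_params δ hδ
  refine ⟨k, hk2, ?_⟩
  intro ε hε hε1
  obtain ⟨n1, hn1, hmain⟩ := hk (ε / 8) (by positivity)
  obtain ⟨C1, hC1⟩ := exists_nat_ge (40 / ε)
  refine ⟨max (8 * k + 15) C1, max 8 n1, ?_⟩
  intro n hn p hp T hT E F hE hF
  have hn8 : 8 ≤ n := (le_max_left _ _).trans hn
  have hnn1 : n1 ≤ n := (le_max_right _ _).trans hn
  set C : ℕ := max (8 * k + 15) C1 with hC
  have hC15 : 8 * k + 15 ≤ C := le_max_left _ _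
  have hn8R : (8 : ℝ) ≤ n := by exact_mod_cast hn8
  have hn1R : (1 : ℝ) ≤ n := by linarith
  have hn0 : (0 : ℝ) < n := by linarith
  -- the replacement of `T` by `max T 1`
  set T' : ℕ := max T 1 with hT'
  have hT'1 : 1 ≤ T' := le_max_right _ _
  have hTT' : T ≤ T' := le_max_left _ _
  have hT'R : (T' : ℝ) ≤ (n : ℝ) ^ (1 - δ) := by
    rcases le_total T 1 with h | h
    · rw [hT', max_eq_right h]
      push_cast
      exact one_le_rpow hn1R (by linarith)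
    · rw [hT', max_eq_left h]
      exact hT
  obtain ⟨hT'n, r, hr, hsmall⟩ := hmain n hnn1 T' hT'1 hT'R
  set m : ℕ := n ^ 2 - (4 * n * (k + 1 + k * r) * T' + 4 * T' ^ 2 + T' ^ 2) with hm
  set M : ℕ := (p - (n ^ 2 * (T' ^ 2 + 1) + T' ^ 2)) / (T' ^ 2 + 1) with hM
  have hle : 4 * n * (k + 1 + k * r) * T' + 4 * T' ^ 2 + T' ^ 2 ≤ n ^ 2 := by
    have h1 : ((4 * n * (k + 1 + k * r) * T' + 4 * T' ^ 2 + T' ^ 2 : ℕ) : ℝ) ≤
        ((n ^ 2 : ℕ) : ℝ) := by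
      push_cast
      push_cast at hsmall
      nlinarith [sq_nonneg (n : ℝ)]
    exact_mod_cast h1
  have hmR : (1 - ε / 8) * (n : ℝ) ^ 2 ≤ m := by
    rw [hm, Nat.cast_sub hle]
    push_cast
    push_cast at hsmall
    linarith
  have hmn : m ≤ n ^ 2 := Nat.sub_le _ _
  have hT2 : T' ^ 2 ≤ n ^ 2 := Nat.pow_le_pow_left hT'n 2
  have hT2' : T ^ 2 ≤ T' ^ 2 := Nat.pow_le_pow_left hTT' 2
  -- the size of `p`
  have hpn : n ^ (8 * k + 15) ≤ p := (Nat.pow_le_pow_right (by omega) hC15).trans hp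
  have hp6 : n ^ 6 ≤ p := (Nat.pow_le_pow_right (by omega) (by omega)).trans hpn
  have hpbig : 8 * n ^ 2 * (n ^ 2 + 2) ≤ p := by
    refine le_trans ?_ hp6
    have e1 : n ^ 2 + 2 ≤ 2 * n ^ 2 := by nlinarith
    have e2 : 16 ≤ n ^ 2 := by nlinarith
    calc 8 * n ^ 2 * (n ^ 2 + 2) ≤ 8 * n ^ 2 * (2 * n ^ 2) := Nat.mul_le_mul_left _ e1
      _ = 16 * (n ^ 2 * n ^ 2) := by ring
      _ ≤ n ^ 2 * (n ^ 2 * n ^ 2) := Nat.mul_le_mul_right _ e2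
      _ = n ^ 6 := by ring
  have hMle : M * (T' ^ 2 + 1) + n ^ 2 * (T' ^ 2 + 1) + T' ^ 2 ≤ p := by
    have hsub : n ^ 2 * (T' ^ 2 + 1) + T' ^ 2 ≤ p := by
      refine le_trans ?_ hpbig
      have e1 : n ^ 2 * (T' ^ 2 + 1) ≤ n ^ 2 * (n ^ 2 + 2) := Nat.mul_le_mul_left _ (by omega)
      have e2 : T' ^ 2 ≤ n ^ 2 * (n ^ 2 + 2) := by
        calc T' ^ 2 ≤ n ^ 2 := hT2
          _ = n ^ 2 * 1 := by ring
          _ ≤ n ^ 2 * (n ^ 2 + 2) := Nat.mul_le_mul_left _ (by omega)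
      calc n ^ 2 * (T' ^ 2 + 1) + T' ^ 2 ≤ n ^ 2 * (n ^ 2 + 2) + n ^ 2 * (n ^ 2 + 2) :=
            Nat.add_le_add e1 e2
        _ = 2 * (n ^ 2 * (n ^ 2 + 2)) := by ring
        _ ≤ 8 * (n ^ 2 * (n ^ 2 + 2)) := Nat.mul_le_mul_right _ (by norm_num)
        _ = 8 * n ^ 2 * (n ^ 2 + 2) := by ring
    have : M * (T' ^ 2 + 1) ≤ p - (n ^ 2 * (T' ^ 2 + 1) + T' ^ 2) := Nat.div_mul_le_self _ _
    omega
  have hMge : (p : ℝ) / (4 * (T' : ℝ) ^ 2) ≤ M := by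
    refine greedy_large n T' p M hT'1 hT'n hpbig ?_
    have h1 : p - (n ^ 2 * (T' ^ 2 + 1) + T' ^ 2) < (M + 1) * (T' ^ 2 + 1) := by
      have := Nat.lt_mul_div_succ (p - (n ^ 2 * (T' ^ 2 + 1) + T' ^ 2)) (Nat.succ_pos (T' ^ 2))
      rw [mul_comm (M + 1)]
      exact this
    omega
  have hC40 : 40 / ε ≤ (C : ℝ) := hC1.trans (by exact_mod_cast le_max_right _ _)
  obtain ⟨hEm, hpow⟩ := power_bound2 n T' p M m E F C ε hε hε1 hn8 hT'1 hT'n hC40 hp hMge hmR hmn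
    hE hF
  refine ⟨r, m, M, hTT'.trans hr, hEm, ?_, ?_, hpow, (count_bound n k hn8).trans hpn⟩
  · have h1 : 4 * n * ((k + 1 + k * r) * T) ≤ 4 * n * (k + 1 + k * r) * T' := by
      rw [← mul_assoc]
      exact Nat.mul_le_mul_left _ hTT'
    omega
  · have h1 : M * (T ^ 2 + 1) ≤ M * (T' ^ 2 + 1) := Nat.mul_le_mul_left _ (by omega)
    have h2 : n ^ 2 * (T ^ 2 + 1) ≤ n ^ 2 * (T' ^ 2 + 1) := Nat.mul_le_mul_left _ (by omega)
    omega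

/-- **Final inequality** for generic arrays. -/
theorem final_bound (n T p w q H s s' m : ℕ) (ε : ℝ) (hε : ε < 1) (hn : 1 ≤ n) (hT : 1 ≤ T)
    (hTn : T ≤ n) (hq : q ≤ T) (hp : 4 * n ^ 2 * (n ^ 2 + 1) ≤ p)
    (h : p ≤ w * (q ^ 2 + 1) + n ^ 2 * (q ^ 2 + 1) + q ^ 2)
    (hm : (1 - ε) * (n : ℝ) ^ 2 ≤ m) (hmn : m ≤ n ^ 2)
    (hs : 0 < s) (hs' : s ≤ 2 * s') (hH : s' * (w + m).choose m ≤ H * s) :
    (1 - ε) * (n : ℝ) ^ 2 * (logb 2 p - 2 * logb 2 T - 2 * logb 2 n - 2) ≤ logb 2 H + 1 := by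
  have hnR : (1 : ℝ) ≤ n := by exact_mod_cast hn
  have hTR : (1 : ℝ) ≤ T := by exact_mod_cast hT
  have hm0 : (0 : ℝ) < m := by
    refine lt_of_lt_of_le ?_ hm
    have : 0 < 1 - ε := by linarith
    positivity
  have hmN : 0 < m := by exact_mod_cast hm0
  have hw := many_nonsums n T p w q hT hq hp hTn h
  have hpR : 4 * (n : ℝ) ^ 2 * ((n : ℝ) ^ 2 + 1) ≤ p := by exact_mod_cast hp
  have hp0 : (0 : ℝ) < p := by
    refine lt_of_lt_of_le ?_ hpR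
    positivity
  have hw0 : (0 : ℝ) < w := lt_of_lt_of_le (by positivity) hw
  have hwN : 0 < w := by exact_mod_cast hw0
  have hb := log_bound H w m s s' hmN hwN hs hs' hH
  have h1 : logb 2 p - 2 * logb 2 T - 2 ≤ logb 2 w := by
    have h2 := logb_le_logb_of_le (b := 2) (by norm_num) (by positivity) hw
    rw [logb_div hp0.ne' (by positivity), logb_mul (by norm_num) (by positivity), logb_pow] at h2
    have h3 : logb 2 4 = 2 := by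
      rw [show (4 : ℝ) = 2 ^ (2 : ℕ) by norm_num, logb_pow, logb_self_eq_one (by norm_num)]
      norm_num
    rw [h3] at h2
    push_cast at h2
    linarith
  have h2 : logb 2 m ≤ 2 * logb 2 n := by
    have : (m : ℝ) ≤ (n : ℝ) ^ 2 := by exact_mod_cast hmn
    have h3 := logb_le_logb_of_le (b := 2) (by norm_num) hm0 this
    rw [logb_pow] at h3
    push_cast at h3
    linarith
  have h3 : 0 ≤ logb 2 p - 2 * logb 2 T - 2 * logb 2 n - 2 := by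
    have h4 : 4 * ((T : ℝ) ^ 2 * (n : ℝ) ^ 2) ≤ p := by
      have hTnR : (T : ℝ) ^ 2 ≤ (n : ℝ) ^ 2 := by
        have : (T : ℝ) ≤ n := by exact_mod_cast hTn
        exact pow_le_pow_left₀ (by positivity) this 2
      have h5 : (T : ℝ) ^ 2 * (n : ℝ) ^ 2 ≤ (n : ℝ) ^ 2 * (n : ℝ) ^ 2 :=
        mul_le_mul_of_nonneg_right hTnR (by positivity)
      nlinarith [sq_nonneg (n : ℝ)]
    have h5 := logb_le_logb_of_le (b := 2) (by norm_num) (by positivity) h4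
    have h6 : logb 2 4 = 2 := by
      rw [show (4 : ℝ) = 2 ^ (2 : ℕ) by norm_num, logb_pow, logb_self_eq_one (by norm_num)]
      norm_num
    rw [logb_mul (by norm_num) (by positivity), logb_mul (by positivity) (by positivity),
      logb_pow, logb_pow, h6] at h5
    push_cast at h5
    linarith
  have h4 : (1 - ε) * (n : ℝ) ^ 2 * (logb 2 p - 2 * logb 2 T - 2 * logb 2 n - 2) ≤
      m * (logb 2 p - 2 * logb 2 T - 2 * logb 2 n - 2) := mul_le_mul_of_nonneg_right hm h3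
  have h5 : (m : ℝ) * (logb 2 p - 2 * logb 2 T - 2 * logb 2 n - 2) ≤
      m * (logb 2 w - logb 2 m) := mul_le_mul_of_nonneg_left (by linarith) hm0.le
  linarith

end Pool.Agent.GGX
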