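import Mathlib
import Pool.Agent.GGX.Arith

/-!
# Arithmetic for the sharp form of the generic group model theorem
-/

namespace Pool.Agent.GGX

open Real

/-- from the greedy number to a power of `p`, with errors; `N₀` is the number of the pairs that
are not excluded by the bound -/
theorem power_bound3 (n T p M m E F C : ℕ) (N₀ ε : ℝ) (hε : 0 < ε) (hε1 : ε < 1) (hn : 8 ≤ n)
    (hT : 1 ≤ T) (hTn : T ≤ n) (hC : 40 / ε ≤ C) (hp : n ^ C ≤ p)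
    (hM : (p : ℝ) / (4 * (T : ℝ) ^ 2) ≤ M)
    (hm : N₀ - ε / 8 * (n : ℝ) ^ 2 ≤ m) (hmn : m ≤ n ^ 2)
    (hE : (E : ℝ) ≤ ε / 8 * (n : ℝ) ^ 2) (hF : (F : ℝ) ≤ (p : ℝ) ^ (ε / 8)) :
    (p : ℝ) ^ (N₀ - ε * (n : ℝ) ^ 2) * (m.choose (m - E) : ℝ) *
      ((m + F).choose (m - E) : ℝ) ≤ ((M + m).choose (m - E) : ℝ) := by
  have hn8R : (8 : ℝ) ≤ n := by exact_mod_cast hn
  have hn1R : (1 : ℝ) ≤ n := by linarith
  have hn0 : (0 : ℝ) < n := by linarith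
  have hn2 : (0 : ℝ) < (n : ℝ) ^ 2 := by positivity
  have hTR : (1 : ℝ) ≤ T := by exact_mod_cast hT
  have hC0 : (0 : ℝ) < C := lt_of_lt_of_le (by positivity) hC
  have hpR : (n : ℝ) ^ (C : ℝ) ≤ p := by
    rw [rpow_natCast]
    exact_mod_cast hp
  have hp1 : (1 : ℝ) ≤ p := (one_le_rpow hn1R hC0.le).trans hpR
  have hp0 : (0 : ℝ) < p := by linarith
  have hεn : 0 < ε * (n : ℝ) ^ 2 := by positivity
  rcases Nat.lt_or_ge E m with hEm | hmE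
  swap
  · rw [Nat.sub_eq_zero_of_le hmE]
    simp only [Nat.choose_zero_right, Nat.cast_one, mul_one]
    refine rpow_le_one_of_one_le_of_nonpos hp1 ?_
    have : (m : ℝ) ≤ E := by exact_mod_cast hmE
    nlinarith
  set m' : ℕ := m - E with hm'
  have hm'pos : 0 < m' := Nat.sub_pos_of_lt hEm
  have hm0 : (0 : ℝ) < m' := by exact_mod_cast hm'pos
  have hm'R : N₀ - ε / 4 * (n : ℝ) ^ 2 ≤ m' := by
    rw [hm', Nat.cast_sub hEm.le]
    have : ε / 4 * (n : ℝ) ^ 2 = ε / 8 * (n : ℝ) ^ 2 + ε / 8 * (n : ℝ) ^ 2 := by ring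
    linarith
  have hm'm : m' ≤ m := Nat.sub_le _ _
  have hTnR : (T : ℝ) ^ 2 ≤ (n : ℝ) ^ 2 := by
    have : (T : ℝ) ≤ n := by exact_mod_cast hTn
    exact pow_le_pow_left₀ (by positivity) this 2
  have hmnR : (m : ℝ) ≤ (n : ℝ) ^ 2 := by exact_mod_cast hmn
  have hm'nR : (m' : ℝ) ≤ (n : ℝ) ^ 2 := by exact_mod_cast hm'm.trans hmn
  set y : ℝ := (p : ℝ) ^ (ε / 8) with hy
  have hy0 : 0 < y := by positivity
  have h41 : (n : ℝ) ^ (5 : ℕ) ≤ y := by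
    have h5 : (n : ℝ) ^ ((C : ℝ) * (ε / 8)) ≤ (p : ℝ) ^ (ε / 8) := by
      rw [rpow_mul hn0.le]
      exact rpow_le_rpow (by positivity) hpR (by positivity)
    refine le_trans ?_ h5
    rw [← rpow_natCast]
    refine rpow_le_rpow_of_exponent_le hn1R ?_
    rw [div_le_iff₀ hε] at hC
    push_cast
    linarith
  have hn5 : (n : ℝ) ^ 2 ≤ (n : ℝ) ^ (5 : ℕ) := pow_le_pow_right₀ hn1R (by norm_num)
  have h2y : (2 : ℝ) ≤ y := by
    refine le_trans ?_ h41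
    refine le_trans ?_ hn5
    nlinarith
  have hn2y : (n : ℝ) ^ 2 ≤ y := hn5.trans h41
  have h4y : (4 : ℝ) * (n : ℝ) ^ 2 * (n : ℝ) ^ 2 ≤ y := by
    refine le_trans ?_ h41
    have : (4 : ℝ) * ((n : ℝ) ^ 2 * (n : ℝ) ^ 2) ≤ (n : ℝ) * ((n : ℝ) ^ 2 * (n : ℝ) ^ 2) :=
      mul_le_mul_of_nonneg_right (by linarith) (by positivity)
    calc (4 : ℝ) * (n : ℝ) ^ 2 * (n : ℝ) ^ 2 = (4 : ℝ) * ((n : ℝ) ^ 2 * (n : ℝ) ^ 2) := by ring
      _ ≤ (n : ℝ) * ((n : ℝ) ^ 2 * (n : ℝ) ^ 2) := this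
      _ = (n : ℝ) ^ (5 : ℕ) := by ring
  -- the lower bound
  have h6 : (p : ℝ) ^ (1 - ε / 8) ≤ (M : ℝ) / m' := by
    rw [le_div_iff₀ hm0]
    refine le_trans ?_ hM
    rw [le_div_iff₀ (by positivity)]
    calc (p : ℝ) ^ (1 - ε / 8) * m' * (4 * (T : ℝ) ^ 2)
        ≤ (p : ℝ) ^ (1 - ε / 8) * (n : ℝ) ^ 2 * (4 * (n : ℝ) ^ 2) := by
          refine mul_le_mul (mul_le_mul_of_nonneg_left hm'nR (by positivity)) (by linarith)
            (by positivity) (by positivity)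
      _ = (p : ℝ) ^ (1 - ε / 8) * (4 * (n : ℝ) ^ 2 * (n : ℝ) ^ 2) := by ring
      _ ≤ (p : ℝ) ^ (1 - ε / 8) * y := mul_le_mul_of_nonneg_left h4y (by positivity)
      _ = p := by
          rw [hy, ← rpow_add hp0]
          simp
  have hlow : (p : ℝ) ^ ((1 - ε / 8) * m') ≤ ((M + m).choose m' : ℝ) := by
    calc (p : ℝ) ^ ((1 - ε / 8) * m') = ((p : ℝ) ^ (1 - ε / 8)) ^ m' := by
          rw [rpow_mul hp0.le, rpow_natCast]
      _ ≤ ((M : ℝ) / m') ^ m' := pow_le_pow_left₀ (by positivity) h6 m'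
      _ ≤ ((M + m').choose m' : ℝ) := choose_lower M m'
      _ ≤ ((M + m).choose m' : ℝ) := by
          exact_mod_cast Nat.choose_le_choose m' (Nat.add_le_add_left hm'm M)
  -- the upper bounds
  have hup1 : (m.choose m' : ℝ) ≤ (p : ℝ) ^ (ε / 8 * (n : ℝ) ^ 2) := by
    calc (m.choose m' : ℝ) ≤ ((2 ^ m : ℕ) : ℝ) := by exact_mod_cast Nat.choose_le_two_pow m m'
      _ = (2 : ℝ) ^ (m : ℝ) := by rw [rpow_natCast]; push_cast; rfl
      _ ≤ (2 : ℝ) ^ ((n : ℝ) ^ 2) := rpow_le_rpow_of_exponent_le (by norm_num) hmnR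
      _ ≤ y ^ ((n : ℝ) ^ 2) := rpow_le_rpow (by norm_num) h2y hn2.le
      _ = (p : ℝ) ^ (ε / 8 * (n : ℝ) ^ 2) := by rw [hy, ← rpow_mul hp0.le]
  have hmF : ((m + F : ℕ) : ℝ) ≤ (p : ℝ) ^ (ε / 4) := by
    push_cast
    have : (p : ℝ) ^ (ε / 4) = y * y := by
      rw [hy, ← rpow_add hp0]
      congr 1
      ring
    rw [this]
    have h1 : (m : ℝ) + F ≤ 2 * y := by linarith
    exact h1.trans (mul_le_mul_of_nonneg_right h2y hy0.le)
  have hup2 : ((m + F).choose m' : ℝ) ≤ (p : ℝ) ^ (ε / 4 * m') := by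
    calc ((m + F).choose m' : ℝ) ≤ (((m + F) ^ m' : ℕ) : ℝ) := by
          exact_mod_cast Nat.choose_le_pow (m + F) m'
      _ = (((m + F : ℕ) : ℝ)) ^ m' := by push_cast; rfl
      _ ≤ ((p : ℝ) ^ (ε / 4)) ^ m' := pow_le_pow_left₀ (Nat.cast_nonneg _) hmF m'
      _ = (p : ℝ) ^ (ε / 4 * m') := by rw [rpow_mul hp0.le, rpow_natCast]
  refine le_trans ?_ hlow
  calc (p : ℝ) ^ (N₀ - ε * (n : ℝ) ^ 2) * (m.choose m' : ℝ) * ((m + F).choose m' : ℝ)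
      ≤ (p : ℝ) ^ (N₀ - ε * (n : ℝ) ^ 2) * (p : ℝ) ^ (ε / 8 * (n : ℝ) ^ 2) *
        (p : ℝ) ^ (ε / 4 * m') := by
        refine mul_le_mul (mul_le_mul_of_nonneg_left hup1 (by positivity)) hup2
          (Nat.cast_nonneg _) (by positivity)
    _ = (p : ℝ) ^ (N₀ - ε * (n : ℝ) ^ 2 + ε / 8 * (n : ℝ) ^ 2 + ε / 4 * m') := by
        rw [rpow_add hp0, rpow_add hp0]
    _ ≤ (p : ℝ) ^ ((1 - ε / 8) * m') := by
        refine rpow_le_rpow_of_exponent_le hp1 ?_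
        have e1 : 3 * ε / 8 * (m' : ℝ) ≤ 3 * ε / 8 * (n : ℝ) ^ 2 :=
          mul_le_mul_of_nonneg_left hm'nR (by positivity)
        have e2 : (1 - ε / 8) * (m' : ℝ) = m' - 3 * ε / 8 * m' + ε / 4 * m' := by ring
        rw [e2]
        linarith

/-- the bound for the number of the bad arrays: `n³ 4ⁿ n^(13 n) ≤ p ^ r` -/
theorem bad_bound (n p r C : ℕ) (ε : ℝ) (hε : 0 < ε) (hn : 4 ≤ n)
    (hC : 17 * 16 / ε ≤ C) (hp : n ^ C ≤ p) (hr : ε * n / 16 ≤ r) :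
    n ^ 3 * (4 ^ n * n ^ (13 * n)) ≤ p ^ r := by
  have hn1R : (1 : ℝ) ≤ n := by
    have : 1 ≤ n := by omega
    exact_mod_cast this
  have hn0 : (0 : ℝ) < n := by linarith
  have h1 : n ^ 3 * (4 ^ n * n ^ (13 * n)) ≤ n ^ (17 * n) := by
    calc n ^ 3 * (4 ^ n * n ^ (13 * n)) ≤ n ^ (3 * n) * (n ^ n * n ^ (13 * n)) := by
          refine Nat.mul_le_mul (Nat.pow_le_pow_right (by omega) (by omega))
            (Nat.mul_le_mul_right _ (Nat.pow_le_pow_left hn n))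
      _ = n ^ (17 * n) := by
          rw [← pow_add, ← pow_add]
          congr 1
          ring
  have h2 : n ^ (17 * n) ≤ n ^ (C * r) := by
    refine Nat.pow_le_pow_right (by omega) ?_
    have : (17 : ℝ) * n ≤ C * r := by
      rw [div_le_iff₀ hε] at hC
      have hr' : ε * n ≤ 16 * r := by linarith
      have hr0 : (0 : ℝ) ≤ r := Nat.cast_nonneg _
      have h3 : 17 * 16 * (ε * n) ≤ (C * ε) * (16 * r) := by
        refine mul_le_mul hC hr' (by positivity) (by positivity)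
      have h4 : ε * (17 * n) ≤ ε * (C * r) := by linarith
      exact le_of_mul_le_mul_left h4 hε
    exact_mod_cast this
  calc n ^ 3 * (4 ^ n * n ^ (13 * n)) ≤ n ^ (17 * n) := h1
    _ ≤ n ^ (C * r) := h2
    _ = (n ^ C) ^ r := by rw [pow_mul]
    _ ≤ p ^ r := Nat.pow_le_pow_left hp r

/-- the bound for the number of the bad arrays, in the form of `Tri.card_bad` -/
theorem bad_bound4 (n p r C : ℕ) (ε : ℝ) (hε : 0 < ε) (hn : 8 ≤ n)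
    (hC : 28 * 16 / ε ≤ C) (hp : n ^ C ≤ p) (hr : ε * n / 16 ≤ r) :
    4 * n * ((n + 2) ^ 2 * ((n + 1) ^ (n + 1) * (4 ^ n * (n + 1) ^ (12 * n)))) ≤ p ^ r := by
  have hn1R : (1 : ℝ) ≤ n := by
    have : 1 ≤ n := by omega
    exact_mod_cast this
  have hn0 : (0 : ℝ) < n := by linarith
  have e1 : n + 1 ≤ n ^ 2 := by nlinarith
  have e2 : n + 2 ≤ n ^ 2 := by nlinarith
  have h1 : 4 * n * ((n + 2) ^ 2 * ((n + 1) ^ (n + 1) * (4 ^ n * (n + 1) ^ (12 * n)))) ≤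
      n ^ (28 * n) := by
    calc 4 * n * ((n + 2) ^ 2 * ((n + 1) ^ (n + 1) * (4 ^ n * (n + 1) ^ (12 * n))))
        ≤ (n * n) * ((n ^ 2) ^ 2 * ((n ^ 2) ^ (n + 1) * (n ^ n * (n ^ 2) ^ (12 * n)))) := by
          refine Nat.mul_le_mul (Nat.mul_le_mul_right _ (by omega)) ?_
          refine Nat.mul_le_mul (Nat.pow_le_pow_left e2 2) ?_
          refine Nat.mul_le_mul (Nat.pow_le_pow_left e1 _) ?_
          exact Nat.mul_le_mul (Nat.pow_le_pow_left (by omega) _) (Nat.pow_le_pow_left e1 _)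
      _ = n ^ (27 * n + 8) := by
          rw [← pow_mul, ← pow_mul, ← pow_mul, ← pow_two, ← pow_add, ← pow_add, ← pow_add,
            ← pow_add]
          congr 1
          ring
      _ ≤ n ^ (28 * n) := Nat.pow_le_pow_right (by omega) (by omega)
  have h2 : n ^ (28 * n) ≤ n ^ (C * r) := by
    refine Nat.pow_le_pow_right (by omega) ?_
    have : (28 : ℝ) * n ≤ C * r := by
      rw [div_le_iff₀ hε] at hC
      have hr' : ε * n ≤ 16 * r := by linarith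
      have hr0 : (0 : ℝ) ≤ r := Nat.cast_nonneg _
      have h3 : 28 * 16 * (ε * n) ≤ (C * ε) * (16 * r) := by
        refine mul_le_mul hC hr' (by positivity) (by positivity)
      have h4 : ε * (28 * n) ≤ ε * (C * r) := by linarith
      exact le_of_mul_le_mul_left h4 hε
    exact_mod_cast this
  calc 4 * n * ((n + 2) ^ 2 * ((n + 1) ^ (n + 1) * (4 ^ n * (n + 1) ^ (12 * n))))
      ≤ n ^ (28 * n) := h1
    _ ≤ n ^ (C * r) := h2
    _ = (n ^ C) ^ r := by rw [pow_mul]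
    _ ≤ p ^ r := Nat.pow_le_pow_left hp r

/-- **All parameters** for the sharp theorem; `r = ⌈ε n / 16⌉`, `m = n² - n (T + s + r)`. -/
theorem params3 (ε : ℝ) (hε : 0 < ε) (hε1 : ε < 1) :
    ∃ C n0 : ℕ, ∀ n ≥ n0, 8 ≤ n ∧ ∀ p : ℕ, n ^ C ≤ p → n ^ 6 ≤ p ∧
      4 * n * ((n + 2) ^ 2 * ((n + 1) ^ (n + 1) * (4 ^ n * (n + 1) ^ (12 * n)))) ≤
        p ^ ⌈ε * n / 16⌉₊ ∧
      ∀ T s : ℕ, T ≤ n → ∃ M : ℕ,
        M * (T ^ 2 + 1) + n ^ 2 * (T ^ 2 + 1) + T ^ 2 ≤ p ∧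
        ∀ E F : ℕ, (E : ℝ) ≤ ε / 8 * (n : ℝ) ^ 2 → (F : ℝ) ≤ (p : ℝ) ^ (ε / 8) →
        ∀ m : ℕ, m = n ^ 2 - n * (T + s + ⌈ε * n / 16⌉₊) →
        (p : ℝ) ^ ((n : ℝ) * (n - T - s) - ε * (n : ℝ) ^ 2) * (m.choose (m - E) : ℝ) *
          ((m + F).choose (m - E) : ℝ) ≤ ((M + m).choose (m - E) : ℝ) := by
  obtain ⟨C1, hC1⟩ := exists_nat_ge (28 * 16 / ε)
  obtain ⟨n1, hn1⟩ := exists_nat_ge (16 / ε)
  refine ⟨max 6 C1, max 8 n1, ?_⟩
  intro n hn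
  have hn8 : 8 ≤ n := (le_max_left _ _).trans hn
  have hnn1 : n1 ≤ n := (le_max_right _ _).trans hn
  refine ⟨hn8, ?_⟩
  intro p hp
  set C : ℕ := max 6 C1 with hC
  have hCR : 28 * 16 / ε ≤ (C : ℝ) := hC1.trans (by exact_mod_cast le_max_right _ _)
  have hC40 : 40 / ε ≤ (C : ℝ) := by
    refine le_trans ?_ hCR
    exact div_le_div_of_nonneg_right (by norm_num) hε.le
  have hp6 : n ^ 6 ≤ p := (Nat.pow_le_pow_right (by omega) (le_max_left _ _)).trans hp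
  have hn8R : (8 : ℝ) ≤ n := by exact_mod_cast hn8
  have hn0 : (0 : ℝ) < n := by linarith
  refine ⟨hp6, bad_bound4 n p _ C ε hε hn8 hCR hp (Nat.le_ceil _), ?_⟩
  intro T s hTn
  set r : ℕ := ⌈ε * n / 16⌉₊ with hr
  set T' : ℕ := max T 1 with hT'
  have hT'1 : 1 ≤ T' := le_max_right _ _
  have hTT' : T ≤ T' := le_max_left _ _
  have hT'n : T' ≤ n := max_le hTn (by omega)
  have hT2 : T' ^ 2 ≤ n ^ 2 := Nat.pow_le_pow_left hT'n 2
  have hT2' : T ^ 2 ≤ T' ^ 2 := Nat.pow_le_pow_left hTT' 2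
  set M : ℕ := (p - (n ^ 2 * (T' ^ 2 + 1) + T' ^ 2)) / (T' ^ 2 + 1) with hM
  have hpbig : 8 * n ^ 2 * (n ^ 2 + 2) ≤ p := by
    refine le_trans ?_ hp6
    have e1 : n ^ 2 + 2 ≤ 2 * n ^ 2 := by nlinarith
    have e2 : 16 ≤ n ^ 2 := by nlinarith
    calc 8 * n ^ 2 * (n ^ 2 + 2) ≤ 8 * n ^ 2 * (2 * n ^ 2) := Nat.mul_le_mul_left _ e1
      _ = 16 * (n ^ 2 * n ^ 2) := by ring
      _ ≤ n ^ 2 * (n ^ 2 * n ^ 2) := Nat.mul_le_mul_right _ e2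
      _ = n ^ 6 := by ring
  have hsub : n ^ 2 * (T' ^ 2 + 1) + T' ^ 2 ≤ p := by
    refine le_trans ?_ hpbig
    have e1 : n ^ 2 * (T' ^ 2 + 1) ≤ n ^ 2 * (n ^ 2 + 2) := Nat.mul_le_mul_left _ (by omega)
    have e2 : T' ^ 2 ≤ n ^ 2 * (n ^ 2 + 2) := by
      calc T' ^ 2 ≤ n ^ 2 := hT2
        _ = n ^ 2 * 1 := by ring
        _ ≤ n ^ 2 * (n ^ 2 + 2) := Nat.mul_le_mul_left _ (by omega)
    calc n ^ 2 * (T' ^ 2 + 1) + T' ^ 2 ≤ n ^ 2 * (n ^ 2 + 2) + n ^ 2 * (n ^ 2 + 2) :=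
          Nat.add_le_add e1 e2
      _ = 2 * (n ^ 2 * (n ^ 2 + 2)) := by ring
      _ ≤ 8 * (n ^ 2 * (n ^ 2 + 2)) := Nat.mul_le_mul_right _ (by norm_num)
      _ = 8 * n ^ 2 * (n ^ 2 + 2) := by ring
  have hMle : M * (T' ^ 2 + 1) + n ^ 2 * (T' ^ 2 + 1) + T' ^ 2 ≤ p := by
    have : M * (T' ^ 2 + 1) ≤ p - (n ^ 2 * (T' ^ 2 + 1) + T' ^ 2) := Nat.div_mul_le_self _ _
    omega
  have hMge : (p : ℝ) / (4 * (T' : ℝ) ^ 2) ≤ M := by
    refine greedy_large n T' p M hT'1 hT'n hpbig ?_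
    have h1 : p - (n ^ 2 * (T' ^ 2 + 1) + T' ^ 2) < (M + 1) * (T' ^ 2 + 1) := by
      have := Nat.lt_mul_div_succ (p - (n ^ 2 * (T' ^ 2 + 1) + T' ^ 2)) (Nat.succ_pos (T' ^ 2))
      rw [mul_comm (M + 1)]
      exact this
    omega
  refine ⟨M, ?_, ?_⟩
  · have h1 : M * (T ^ 2 + 1) ≤ M * (T' ^ 2 + 1) := Nat.mul_le_mul_left _ (by omega)
    have h2 : n ^ 2 * (T ^ 2 + 1) ≤ n ^ 2 * (T' ^ 2 + 1) := Nat.mul_le_mul_left _ (by omega)
    omega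
  · intro E F hE hF m hm
    refine power_bound3 n T' p M m E F C _ ε hε hε1 hn8 hT'1 hT'n hC40 hp hMge ?_ ?_ hE hF
    · have h1 : (n : ℝ) ^ 2 - n * (T + s + r) ≤ m := by
        have h2 : n ^ 2 ≤ m + n * (T + s + r) := by omega
        have h3 : ((n ^ 2 : ℕ) : ℝ) ≤ ((m + n * (T + s + r) : ℕ) : ℝ) := by exact_mod_cast h2
        push_cast at h3
        linarith
      have h2 : (r : ℝ) ≤ ε * n / 16 + 1 := (Nat.ceil_lt_add_one (by positivity)).le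
      have h3 : (1 : ℝ) ≤ ε * n / 16 := by
        have h4 : 16 / ε ≤ (n : ℝ) := hn1.trans (by exact_mod_cast hnn1)
        rw [div_le_iff₀ hε] at h4
        linarith
      have h4 : (n : ℝ) * r ≤ n * (ε * n / 8) := mul_le_mul_of_nonneg_left (by linarith) hn0.le
      nlinarith
    · rw [hm]
      exact Nat.sub_le _ _

end Pool.Agent.GGX
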