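import Mathlib
import Pool.Agent.GGX.Sel

/-!
# Triangular systems of coincidences, and the selection of the sums

The unknowns are the `2 n` entries of the two arrays, ordered `b 0 < b 1 < ... < a 0 < a 1 < ...`.
A coincidence `c x + g = c' y + g'` of positions of queries for two sums `x`, `y` is a linear
equation.  For all but few arrays, for every set of few queries, no large triangular system of
such equations holds, and so most sums have pairwise disjoint positions.
-/

namespace Pool.Agent.GGX.Tri

open Finset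

/-- the indices of the entries of the two arrays -/
abbrev Ix (n : ℕ) := Fin n ⊕ Fin n

/-- two queries and two pairs of indices -/
abbrev Pat (n T : ℕ) := (Fin T × Fin T) × ((Fin n × Fin n) × (Fin n × Fin n))

section defs

variable {K : Type*} [Field K] {n T : ℕ}

/-- the sum with the pair of indices `u` -/
def sm (f : Ix n → K) (u : Fin n × Fin n) : K := f (Sum.inl u.1) + f (Sum.inr u.2)

/-- the coincidence -/
def Eqn (D : Fin T → K × K) (f : Ix n → K) (e : Pat n T) : Prop :=
  (D e.1.1).1 * sm f e.2.1 + (D e.1.1).2 = (D e.1.2).1 * sm f e.2.2 + (D e.1.2).2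

/-- `x` is the leading unknown of the coincidence -/
def Lead (D : Fin T → K × K) (e : Pat n T) : Ix n → Prop
  | Sum.inl i => e.2.1.1 = i ∧ ((e.2.2.1 < i ∧ (D e.1.1).1 ≠ 0) ∨
      (e.2.2.1 = i ∧ (D e.1.1).1 ≠ (D e.1.2).1))
  | Sum.inr j => e.2.1.2 = j ∧ e.2.2.2 < j ∧ e.2.1.1 = e.2.2.1 ∧
      (D e.1.1).1 = (D e.1.2).1 ∧ (D e.1.1).1 ≠ 0

/-- `f` solves a triangular system with the leading unknowns in `A` -/
def Sol (D : Fin T → K × K) (A : Finset (Ix n)) (τ : Ix n → Pat n T) (f : Ix n → K) : Prop :=
  ∀ x ∈ A, Lead D (τ x) x ∧ Eqn D f (τ x)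

theorem sol_inj (D : Fin T → K × K) (A : Finset (Ix n)) (τ : Ix n → Pat n T) (f f' : Ix n → K)
    (hf : Sol D A τ f) (hf' : Sol D A τ f') (h : ∀ x, x ∉ A → f x = f' x) : f = f' := by
  have hr : ∀ k : ℕ, ∀ j : Fin n, (j : ℕ) = k → f (Sum.inr j) = f' (Sum.inr j) := by
    intro k
    induction k using Nat.strong_induction_on with
    | _ k ih =>
      intro j hj
      by_cases hA : Sum.inr j ∈ A
      · obtain ⟨hl, he⟩ := hf _ hA
        obtain ⟨-, he'⟩ := hf' _ hA
        obtain ⟨h1, h2, h3, h4, h5⟩ := hl
        have hlt : ((τ (Sum.inr j)).2.2.2 : ℕ) < k := by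
          rw [← hj]; exact_mod_cast h2
        have hih := ih _ hlt _ rfl
        unfold Eqn sm at he he'
        rw [← h3, h1, ← h4] at he he'
        have h6 : (D (τ (Sum.inr j)).1.1).1 * f (Sum.inr j) =
            (D (τ (Sum.inr j)).1.1).1 * f' (Sum.inr j) := by
          rw [hih] at he
          linear_combination he - he'
        exact mul_left_cancel₀ h5 h6
      · exact h _ hA
  have hrr : ∀ j : Fin n, f (Sum.inr j) = f' (Sum.inr j) := fun j => hr _ j rfl
  have hl : ∀ k : ℕ, ∀ i : Fin n, (i : ℕ) = k → f (Sum.inl i) = f' (Sum.inl i) := by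
    intro k
    induction k using Nat.strong_induction_on with
    | _ k ih =>
      intro i hi
      by_cases hA : Sum.inl i ∈ A
      · obtain ⟨hl, he⟩ := hf _ hA
        obtain ⟨-, he'⟩ := hf' _ hA
        obtain ⟨h1, h2⟩ := hl
        unfold Eqn sm at he he'
        rw [h1] at he he'
        rw [hrr, hrr] at he
        rcases h2 with ⟨h2, h3⟩ | ⟨h2, h3⟩
        · have hlt : ((τ (Sum.inl i)).2.2.1 : ℕ) < k := by
            rw [← hi]; exact_mod_cast h2
          have hih := ih _ hlt _ rfl
          rw [hih] at he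
          have h6 : (D (τ (Sum.inl i)).1.1).1 * f (Sum.inl i) =
              (D (τ (Sum.inl i)).1.1).1 * f' (Sum.inl i) := by
            linear_combination he - he'
          exact mul_left_cancel₀ h3 h6
        · rw [h2] at he he'
          have h6 : ((D (τ (Sum.inl i)).1.1).1 - (D (τ (Sum.inl i)).1.2).1) * f (Sum.inl i) =
              ((D (τ (Sum.inl i)).1.1).1 - (D (τ (Sum.inl i)).1.2).1) * f' (Sum.inl i) := by
            linear_combination he - he'
          exact mul_left_cancel₀ (sub_ne_zero.mpr h3) h6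
      · exact h _ hA
  funext x
  rcases x with i | j
  · exact hl _ i rfl
  · exact hrr j

end defs

section count

variable {K : Type*} [Field K] [Fintype K] {n T : ℕ}

open Classical in
theorem card_sol (D : Fin T → K × K) (A : Finset (Ix n)) (τ : Ix n → Pat n T) :
    ((univ : Finset (Ix n → K)).filter (Sol D A τ)).card * Fintype.card K ^ A.card ≤
      Fintype.card K ^ (2 * n) := by
  have h1 : ((univ : Finset (Ix n → K)).filter (Sol D A τ)).card ≤
      (univ : Finset ({x : Ix n // x ∉ A} → K)).card := by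
    refine card_le_card_of_injOn (fun f x => f x.1) (fun _ _ => mem_univ _) ?_
    intro f hf f' hf' h
    rw [mem_coe, mem_filter] at hf hf'
    refine sol_inj D A τ f f' hf.2 hf'.2 (fun x hx => ?_)
    exact congrFun h ⟨x, hx⟩
  have h2 : (univ : Finset ({x : Ix n // x ∉ A} → K)).card =
      Fintype.card K ^ (2 * n - A.card) := by
    rw [card_univ, Fintype.card_fun]
    congr 1
    have h3 : Fintype.card {x : Ix n // x ∉ A} = Fintype.card (Ix n) - A.card := by
      rw [Fintype.card_subtype_compl]
      simp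
    rw [h3]
    simp [Fintype.card_sum, two_mul]
  have h4 : A.card ≤ 2 * n := by
    calc A.card ≤ Fintype.card (Ix n) := card_le_univ _
      _ = 2 * n := by simp [Fintype.card_sum, two_mul]
  calc ((univ : Finset (Ix n → K)).filter (Sol D A τ)).card * Fintype.card K ^ A.card
      ≤ Fintype.card K ^ (2 * n - A.card) * Fintype.card K ^ A.card := by
        rw [← h2]
        exact Nat.mul_le_mul_right _ h1
    _ = Fintype.card K ^ (2 * n) := by
        rw [← pow_add]
        congr 1
        omega

/-- the parameters of a triangular system: slopes, slope of each query, shifts, leading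
unknowns, equations -/
abbrev Par (K : Type*) (n T s : ℕ) :=
  (Fin s → K) × (Fin T → Fin s) × (Fin T → K) × Finset (Ix n) × (Ix n → Pat n T)

open Classical in
/-- the arrays with a triangular system of `T + s + r` coincidences for some `T` queries with
at most `s` slopes -/
noncomputable def badTS (K : Type*) [Field K] [Fintype K] (n r T s : ℕ) :
    Finset (Ix n → K) :=
  (univ : Finset (Par K n T s)).biUnion fun θ =>
    if θ.2.2.2.1.card = T + s + r then
      univ.filter (Sol (fun t => (θ.1 (θ.2.1 t), θ.2.2.1 t)) θ.2.2.2.1 θ.2.2.2.2)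
    else ∅

theorem card_badTS (r s : ℕ) :
    (badTS K n r T s).card * Fintype.card K ^ r ≤
      s ^ T * (4 ^ n * (T ^ 2 * n ^ 4) ^ (2 * n)) * Fintype.card K ^ (2 * n) := by
  classical
  have hp : 0 < Fintype.card K := Fintype.card_pos
  have h1 : (badTS K n r T s).card * Fintype.card K ^ (T + s + r) ≤
      Fintype.card (Par K n T s) * Fintype.card K ^ (2 * n) := by
    calc (badTS K n r T s).card * Fintype.card K ^ (T + s + r)
        ≤ (∑ θ : Par K n T s, (if θ.2.2.2.1.card = T + s + r then
      univ.filter (Sol (fun t => (θ.1 (θ.2.1 t), θ.2.2.1 t)) θ.2.2.2.1 θ.2.2.2.2)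
        else (∅ : Finset (Ix n → K))).card) * Fintype.card K ^ (T + s + r) :=
          Nat.mul_le_mul_right _ card_biUnion_le
      _ = ∑ θ : Par K n T s, (if θ.2.2.2.1.card = T + s + r then
      univ.filter (Sol (fun t => (θ.1 (θ.2.1 t), θ.2.2.1 t)) θ.2.2.2.1 θ.2.2.2.2)
        else (∅ : Finset (Ix n → K))).card * Fintype.card K ^ (T + s + r) := by
          rw [sum_mul]
      _ ≤ ∑ _θ : Par K n T s, Fintype.card K ^ (2 * n) := by
          apply sum_le_sum
          intro θ _
          split_ifs with h
          · have := card_sol (K := K) (n := n) (fun t => (θ.1 (θ.2.1 t), θ.2.2.1 t))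
              θ.2.2.2.1 θ.2.2.2.2
            rw [h] at this
            exact this
          · simp
      _ = Fintype.card (Par K n T s) * Fintype.card K ^ (2 * n) := by
          rw [sum_const, card_univ, smul_eq_mul]
  have h2 : Fintype.card (Par K n T s) = Fintype.card K ^ (T + s) *
      (s ^ T * (4 ^ n * (T ^ 2 * n ^ 4) ^ (2 * n))) := by
    simp only [Fintype.card_prod, Fintype.card_fun, Fintype.card_fin, Fintype.card_finset,
      Fintype.card_sum]
    have h3 : 2 ^ (n + n) = 4 ^ n := by
      rw [← two_mul, pow_mul]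
      norm_num
    have h4 : T * T * (n * n * (n * n)) = T ^ 2 * n ^ 4 := by ring
    rw [h3, h4, pow_add, two_mul n]
    ring
  rw [h2] at h1
  have h5 : Fintype.card K ^ (T + s) * ((badTS K n r T s).card * Fintype.card K ^ r) ≤
      Fintype.card K ^ (T + s) *
        (s ^ T * (4 ^ n * (T ^ 2 * n ^ 4) ^ (2 * n)) * Fintype.card K ^ (2 * n)) := by
    calc Fintype.card K ^ (T + s) * ((badTS K n r T s).card * Fintype.card K ^ r)
        = (badTS K n r T s).card * Fintype.card K ^ (T + s + r) := by
          rw [pow_add _ (T + s) r]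
          ring
      _ ≤ _ := h1
      _ = _ := by ring
  exact Nat.le_of_mul_le_mul_left h5 (pow_pos hp _)

/-- the exceptional arrays -/
noncomputable def bad (K : Type*) [Field K] [Fintype K] (n r : ℕ) : Finset (Ix n → K) := by
  classical
  exact (range (n + 2) ×ˢ range (n + 2)).biUnion fun u => badTS K n r u.1 u.2

theorem card_bad (r : ℕ) :
    (bad K n r).card * Fintype.card K ^ r ≤
      (n + 2) ^ 2 * ((n + 1) ^ (n + 1) * (4 ^ n * (n + 1) ^ (12 * n))) *
        Fintype.card K ^ (2 * n) := by
  classical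
  have h0 : bad K n r = (range (n + 2) ×ˢ range (n + 2)).biUnion
      fun u => badTS K n r u.1 u.2 := by
    unfold bad
    congr!
  calc (bad K n r).card * Fintype.card K ^ r
      ≤ (∑ u ∈ range (n + 2) ×ˢ range (n + 2), (badTS K n r u.1 u.2).card) *
        Fintype.card K ^ r := by
        rw [h0]
        exact Nat.mul_le_mul_right _ card_biUnion_le
    _ = ∑ u ∈ range (n + 2) ×ˢ range (n + 2),
        (badTS K n r u.1 u.2).card * Fintype.card K ^ r := by rw [sum_mul]
    _ ≤ ∑ _u ∈ range (n + 2) ×ˢ range (n + 2),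
        (n + 1) ^ (n + 1) * (4 ^ n * (n + 1) ^ (12 * n)) * Fintype.card K ^ (2 * n) := by
        apply sum_le_sum
        intro u hu
        rw [mem_product, mem_range, mem_range] at hu
        refine (card_badTS r u.2).trans ?_
        apply Nat.mul_le_mul_right
        have h1 : u.2 ^ u.1 ≤ (n + 1) ^ (n + 1) := by
          calc u.2 ^ u.1 ≤ (n + 1) ^ u.1 := Nat.pow_le_pow_left (by omega) _
            _ ≤ (n + 1) ^ (n + 1) := Nat.pow_le_pow_right (by omega) (by omega)
        have h2 : (u.1 ^ 2 * n ^ 4) ^ (2 * n) ≤ (n + 1) ^ (12 * n) := by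
          calc (u.1 ^ 2 * n ^ 4) ^ (2 * n) ≤ ((n + 1) ^ 2 * (n + 1) ^ 4) ^ (2 * n) := by
                apply Nat.pow_le_pow_left
                apply Nat.mul_le_mul
                · exact Nat.pow_le_pow_left (by omega) _
                · exact Nat.pow_le_pow_left (by omega) _
            _ = (n + 1) ^ (12 * n) := by
                rw [← pow_add, ← pow_mul]
                congr 1
                ring
        exact Nat.mul_le_mul h1 (Nat.mul_le_mul_left _ h2)
    _ = (n + 2) ^ 2 * ((n + 1) ^ (n + 1) * (4 ^ n * (n + 1) ^ (12 * n))) *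
        Fintype.card K ^ (2 * n) := by
        rw [sum_const, card_product, card_range, smul_eq_mul]
        ring

end count

section select

variable {K : Type*} [Field K] [Fintype K] {n T : ℕ}

omit [Fintype K] in
/-- few slopes: slopes and a choice of the slope for every query -/
theorem exists_enum {s : ℕ} (h : Fin T → K) (A : Finset K) (hA : A.card ≤ s)
    (hf : ∀ t, h t ∈ A) : ∃ (c : Fin s → K) (u : Fin T → Fin s), ∀ t, c (u t) = h t := by
  classical
  let e := A.equivFin
  refine ⟨fun i => if hi : (i : ℕ) < A.card then (e.symm ⟨i, hi⟩ : K) else 0,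
    fun t => ⟨e ⟨h t, hf t⟩, lt_of_lt_of_le (e ⟨h t, hf t⟩).2 hA⟩, fun t => ?_⟩
  have hlt : ((e ⟨h t, hf t⟩ : Fin A.card) : ℕ) < A.card := (e ⟨h t, hf t⟩).2
  simp only [hlt, dite_true, Fin.eta, Equiv.symm_apply_apply]

/-- no large triangular system -/
theorem card_lt_of_sol (r : ℕ) (f : Ix n → K) (hf : f ∉ bad K n r) (s : ℕ) (hT : T ≤ n + 1)
    (hs : s ≤ n + 1) (D : Fin T → K × K) (A0 : Finset K) (hA0 : A0.card ≤ s)
    (hD : ∀ t, (D t).1 ∈ A0) (A : Finset (Ix n)) (τ : Ix n → Pat n T) (hsol : Sol D A τ f) :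
    A.card < T + s + r := by
  classical
  by_contra hcon
  push Not at hcon
  obtain ⟨A', hA', hcard⟩ := exists_subset_card_eq hcon
  obtain ⟨c, u, hcu⟩ := exists_enum (fun t => (D t).1) A0 hA0 hD
  apply hf
  unfold bad
  rw [mem_biUnion]
  refine ⟨(T, s), ?_, ?_⟩
  · rw [mem_product, mem_range, mem_range]
    exact ⟨by simpa using by omega, by simpa using by omega⟩
  · unfold badTS
    rw [mem_biUnion]
    refine ⟨(c, u, fun t => (D t).2, A', τ), mem_univ _, ?_⟩
    simp only
    rw [if_pos hcard, mem_filter]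
    refine ⟨mem_univ _, ?_⟩
    have hDD : (fun t => (c (u t), (D t).2)) = D := by
      funext t
      rw [hcu]
    rw [hDD]
    intro x hx
    exact hsol x (hA' hx)

/-- the lexicographic order of the pairs -/
def Lt (y x : Fin n × Fin n) : Prop := y.1 < x.1 ∨ (y.1 = x.1 ∧ y.2 < x.2)

theorem lt_or_lt {x y : Fin n × Fin n} (h : x ≠ y) : Lt x y ∨ Lt y x := by
  rcases lt_trichotomy x.1 y.1 with h1 | h1 | h1
  · exact Or.inl (Or.inl h1)
  · rcases lt_trichotomy x.2 y.2 with h2 | h2 | h2
    · exact Or.inl (Or.inr ⟨h1, h2⟩)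
    · exact absurd (Prod.ext h1 h2) h
    · exact Or.inr (Or.inr ⟨h1.symm, h2⟩)
  · exact Or.inr (Or.inl h1)

variable [DecidableEq K]

/-- a self coincidence, or a conflict with a smaller pair -/
def Red (D : Fin T → K × K) (f : Ix n → K) (x : Fin n × Fin n) : Prop :=
  Self (univ.image D) (sm f x) ∨ ∃ y, Lt y x ∧ Conf (univ.image D) (sm f x) (sm f y)

open Classical in
/-- **Few redundant pairs.** -/
theorem card_red (r : ℕ) (f : Ix n → K) (hf : f ∉ bad K n r) (s : ℕ) (hT : T ≤ n + 1)
    (hs : s ≤ n + 1) (D : Fin T → K × K) (A0 : Finset K) (hA0 : A0.card ≤ s)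
    (hD : ∀ t, (D t).1 ∈ A0) :
    ((univ : Finset (Fin n × Fin n)).filter (Red D f)).card ≤ n * (T + s + r) := by
  -- no queries
  rcases Nat.eq_zero_or_pos T with hT0 | hTpos
  · subst hT0
    have h0 : (univ : Finset (Fin n × Fin n)).filter (Red D f) = ∅ := by
      rw [filter_eq_empty_iff]
      rintro x - (⟨q, hq, -⟩ | ⟨y, -, q, hq, -⟩)
      · simp at hq
      · simp at hq
    rw [h0]
    simp
  -- the pairs with an equation with leading unknown `a i`
  let RA : Fin n × Fin n → Prop := fun x =>
    ∃ e : Pat n T, e.2.1 = x ∧ Eqn D f e ∧ Lead D e (Sum.inl x.1)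
  -- the pure columns
  let RB : Fin n → Prop := fun j => ∃ e : Pat n T, Eqn D f e ∧ Lead D e (Sum.inr j)
  let Bc : Finset (Fin n) := univ.filter RB
  have hmemB : ∀ j, j ∈ Bc ↔ RB j := fun j => by simp [Bc]
  -- the number of pairs in a column
  have hcol : ∀ j : Fin n, ((univ : Finset (Fin n)).filter fun i => RA (i, j)).card + Bc.card <
      T + s + r := by
    intro j
    let e0 : Pat n T := ((⟨0, hTpos⟩, ⟨0, hTpos⟩), ((j, j), (j, j)))
    have hchA : ∀ i : Fin n, ∃ e : Pat n T, RA (i, j) →
        (Lead D e (Sum.inl i) ∧ Eqn D f e) := by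
      intro i
      by_cases h : RA (i, j)
      · obtain ⟨e, -, h2, h3⟩ := h
        exact ⟨e, fun _ => ⟨h3, h2⟩⟩
      · exact ⟨e0, fun h' => absurd h' h⟩
    have hchB : ∀ j : Fin n, ∃ e : Pat n T, RB j → (Lead D e (Sum.inr j) ∧ Eqn D f e) := by
      intro j
      by_cases h : RB j
      · obtain ⟨e, h2, h3⟩ := h
        exact ⟨e, fun _ => ⟨h3, h2⟩⟩
      · exact ⟨e0, fun h' => absurd h' h⟩
    choose τA hτA using hchA
    choose τB hτB using hchB
    let A : Finset (Ix n) := ((univ : Finset (Fin n)).filter fun i => RA (i, j)).disjSum Bc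
    have hsol : Sol D A (Sum.elim τA τB) f := by
      intro x hx
      rcases x with i | j'
      · rw [inl_mem_disjSum, mem_filter] at hx
        exact hτA i hx.2
      · rw [inr_mem_disjSum, hmemB] at hx
        exact hτB j' hx
    have := card_lt_of_sol r f hf s hT hs D A0 hA0 hD A _ hsol
    rwa [card_disjSum] at this
  -- the number of redundant pairs
  have hcount : ((univ : Finset (Fin n × Fin n)).filter fun x => RA x ∨ RB x.2).card ≤
      n * (T + s + r) := by
    rcases Nat.eq_zero_or_pos n with hn | hn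
    · subst hn
      simp
    have h1 : ((univ : Finset (Fin n × Fin n)).filter fun x => RA x ∨ RB x.2).card ≤
        ∑ j : Fin n, if j ∈ Bc then n else (T + s + r) - Bc.card := by
      calc ((univ : Finset (Fin n × Fin n)).filter fun x => RA x ∨ RB x.2).card
          = ∑ j : Fin n, (((univ : Finset (Fin n × Fin n)).filter
              fun x => RA x ∨ RB x.2).filter fun x => x.2 = j).card :=
            card_eq_sum_card_fiberwise (fun x _ => mem_univ _)
        _ ≤ ∑ j : Fin n, if j ∈ Bc then n else (T + s + r) - Bc.card := by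
            apply sum_le_sum
            intro j _
            split_ifs with hj
            · calc _ ≤ (univ : Finset (Fin n)).card := by
                    refine card_le_card_of_injOn (fun x => x.1) (fun _ _ => mem_univ _) ?_
                    intro x hx y hy hxy
                    rw [mem_coe, mem_filter] at hx hy
                    exact Prod.ext hxy (hx.2.trans hy.2.symm)
                _ = n := by simp
            · have h2 : (((univ : Finset (Fin n × Fin n)).filter
                  fun x => RA x ∨ RB x.2).filter fun x => x.2 = j).card ≤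
                  ((univ : Finset (Fin n)).filter fun i => RA (i, j)).card := by
                refine card_le_card_of_injOn (fun x => x.1) ?_ ?_
                · intro x hx
                  rw [mem_coe, mem_filter, mem_filter] at hx
                  rw [mem_coe, mem_filter]
                  obtain ⟨⟨-, h3⟩, h4⟩ := hx
                  refine ⟨mem_univ _, ?_⟩
                  have hxx : x = (x.1, j) := Prod.ext rfl h4
                  rcases h3 with h3 | h3
                  · rw [hxx] at h3
                    exact h3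
                  · rw [h4] at h3
                    exact absurd ((hmemB j).mpr h3) hj
                · intro x hx y hy hxy
                  rw [mem_coe, mem_filter] at hx hy
                  exact Prod.ext hxy (hx.2.trans hy.2.symm)
              have h5 := hcol j
              omega
    have h2 : (∑ j : Fin n, if j ∈ Bc then n else (T + s + r) - Bc.card) =
        Bc.card * n + (n - Bc.card) * ((T + s + r) - Bc.card) := by
      rw [sum_ite]
      simp only [sum_const, smul_eq_mul]
      congr 2
      · congr 1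
        ext j
        simp
      · have h3 : (univ.filter fun j : Fin n => j ∉ Bc) = univ \ Bc := by
          ext j
          simp
        rw [h3, card_sdiff_of_subset (subset_univ _)]
        simp
    have h3 : Bc.card ≤ n := by
      calc Bc.card ≤ (univ : Finset (Fin n)).card := card_le_univ _
        _ = n := by simp
    have h4 : Bc.card ≤ T + s + r := by
      have := hcol ⟨0, hn⟩
      omega
    rw [h2] at h1
    refine h1.trans ?_
    obtain ⟨d, hd⟩ := Nat.exists_eq_add_of_le h3
    obtain ⟨d', hd'⟩ := Nat.exists_eq_add_of_le h4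
    have h5 : n - Bc.card = d := by omega
    have h6 : T + s + r - Bc.card = d' := by omega
    rw [h5, h6, hd']
    have h7 : n = Bc.card + d := hd
    nlinarith [Nat.zero_le (Bc.card * d')]
  refine (card_le_card ?_).trans hcount
  intro x hx
  rw [mem_filter] at hx ⊢
  refine ⟨mem_univ _, ?_⟩
  rcases hx.2 with ⟨q, hq, q', hq', h1, h2⟩ | ⟨y, hlt, q, hq, q', hq', h1, h2, h3⟩
  · obtain ⟨t, -, rfl⟩ := mem_image.mp hq
    obtain ⟨t', -, rfl⟩ := mem_image.mp hq'
    exact Or.inl ⟨((t, t'), (x, x)), rfl, h2, rfl, Or.inr ⟨rfl, h1⟩⟩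
  · obtain ⟨t, -, rfl⟩ := mem_image.mp hq
    obtain ⟨t', -, rfl⟩ := mem_image.mp hq'
    rcases hlt with hlt | ⟨heq, hlt⟩
    · exact Or.inl ⟨((t, t'), (x, y)), rfl, h3, rfl, Or.inl ⟨hlt, h1⟩⟩
    · by_cases hc : (D t).1 = (D t').1
      · exact Or.inr ⟨((t, t'), (x, y)), h3, rfl, hlt, heq.symm, hc, h1⟩
      · exact Or.inl ⟨((t, t'), (x, y)), rfl, h3, rfl, Or.inr ⟨heq, hc⟩⟩

/-- **Selection.** Most pairs have pairwise disjoint positions. -/
theorem select_pairs (r : ℕ) (f : Ix n → K) (hf : f ∉ bad K n r) (s : ℕ) (hT : T ≤ n + 1)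
    (hs : s ≤ n + 1) (D : Fin T → K × K) (A0 : Finset K) (hA0 : A0.card ≤ s)
    (hD : ∀ t, (D t).1 ∈ A0) :
    ∃ X : Finset (Fin n × Fin n), n ^ 2 ≤ X.card + n * (T + s + r) ∧
      (∀ x ∈ X, ¬ Self (univ.image D) (sm f x)) ∧
      (∀ x ∈ X, ∀ y ∈ X, x ≠ y → ¬ Conf (univ.image D) (sm f x) (sm f y)) := by
  classical
  refine ⟨univ.filter fun x => ¬ Red D f x, ?_, ?_, ?_⟩
  · have h0 := card_red r f hf s hT hs D A0 hA0 hD
    have h1 := card_filter_add_card_filter_not (s := (univ : Finset (Fin n × Fin n)))
      (fun x => Red D f x)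
    have h2 : (univ : Finset (Fin n × Fin n)).card = n ^ 2 := by
      simp [sq]
    have h3 : ((univ : Finset (Fin n × Fin n)).filter (Red D f)).card =
        ((univ : Finset (Fin n × Fin n)).filter (fun x => Red D f x)).card := by
      congr!
    omega
  · intro x hx h
    rw [mem_filter] at hx
    exact hx.2 (Or.inl h)
  · intro x hx y hy hne h
    rw [mem_filter] at hx hy
    rcases lt_or_lt hne with hlt | hlt
    · exact hy.2 (Or.inr ⟨x, hlt, h.symm⟩)
    · exact hx.2 (Or.inr ⟨y, hlt, h⟩)

/-- the reversal of both arrays -/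
def rv : Ix n → Ix n := Sum.map Fin.rev Fin.rev

open Classical in
/-- **Few conflicts.** For any set `Q` of queries few sums have a conflict. -/
theorem conf_all (r T0 : ℕ) (hT0 : T0 ≤ n + 1) (f : Ix n → K) (hf : f ∉ bad K n r)
    (hf' : f ∘ rv ∉ bad K n r) (S : Finset K) (hS : S = univ.image (sm f))
    (Q : Finset (K × K)) (hQ : Q.card ≤ T0) :
    (S.filter (fun x => ∃ x' ∈ S, x' ≠ x ∧ Conf Q x x')).card ≤
        2 * (n * (2 * T0 + r)) := by
  let D : Fin Q.card → K × K := fun t => (Q.equivFin.symm t : K × K)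
  have hDQ : univ.image D = Q := by
    ext q
    rw [mem_image]
    constructor
    · rintro ⟨t, -, rfl⟩
      exact (Q.equivFin.symm t).2
    · intro hq
      exact ⟨Q.equivFin ⟨q, hq⟩, mem_univ _, by simp [D]⟩
  have hA0 : (Q.image Prod.fst).card ≤ Q.card := card_image_le
  have hD : ∀ t, (D t).1 ∈ Q.image Prod.fst := fun t =>
    mem_image_of_mem _ (Q.equivFin.symm t).2
  have h1 := card_red r f hf Q.card (by omega) (by omega) D _ hA0 hD
  have h2 := card_red r (f ∘ rv) hf' Q.card (by omega) (by omega) D _ hA0 hD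
  have hle : n * (Q.card + Q.card + r) ≤ n * (2 * T0 + r) := Nat.mul_le_mul_left _ (by omega)
  have hsm : ∀ x : Fin n × Fin n, sm (f ∘ rv) (x.1.rev, x.2.rev) = sm f x := by
    intro x
    simp [sm, rv]
  have hsub : S.filter (fun x => ∃ x' ∈ S, x' ≠ x ∧ Conf Q x x') ⊆
      (((univ : Finset (Fin n × Fin n)).filter (Red D f)).image (sm f)) ∪
      (((univ : Finset (Fin n × Fin n)).filter (Red D (f ∘ rv))).image (sm (f ∘ rv))) := by
    intro z hz
    obtain ⟨hz, z', hz', hne, hc⟩ := mem_filter.mp hz
    rw [hS] at hz hz'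
    obtain ⟨x, -, rfl⟩ := mem_image.mp hz
    obtain ⟨y, -, rfl⟩ := mem_image.mp hz'
    have hxy : x ≠ y := by
      rintro rfl
      exact hne rfl
    rcases lt_or_lt hxy with hlt | hlt
    · refine mem_union_right _ (mem_image.mpr ⟨(x.1.rev, x.2.rev), ?_, hsm x⟩)
      rw [mem_filter]
      refine ⟨mem_univ _, Or.inr ⟨(y.1.rev, y.2.rev), ?_, ?_⟩⟩
      · rcases hlt with h | ⟨h, h'⟩
        · exact Or.inl (Fin.rev_lt_rev.mpr h)
        · exact Or.inr ⟨by rw [h], Fin.rev_lt_rev.mpr h'⟩
      · rw [hsm, hsm, hDQ]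
        exact hc
    · refine mem_union_left _ (mem_image.mpr ⟨x, ?_, rfl⟩)
      rw [mem_filter]
      refine ⟨mem_univ _, Or.inr ⟨y, hlt, ?_⟩⟩
      rw [hDQ]
      exact hc
  calc _ ≤ _ := card_le_card hsub
    _ ≤ _ := card_union_le _ _
    _ ≤ n * (2 * T0 + r) + n * (2 * T0 + r) :=
        Nat.add_le_add (card_image_le.trans (h1.trans hle)) (card_image_le.trans (h2.trans hle))
    _ = 2 * (n * (2 * T0 + r)) := by ring

end select

section coll

variable {K : Type*} [Field K] [Fintype K] {n : ℕ}

open Classical in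
/-- the arrays with two equal sums -/
noncomputable def coll (K : Type*) [Field K] [Fintype K] (n : ℕ) : Finset (Ix n → K) :=
  univ.filter fun f => ∃ x y : Fin n × Fin n, x ≠ y ∧ sm f x = sm f y

theorem sm_injective (f : Ix n → K) (hf : f ∉ coll K n) : Function.Injective (sm f) := by
  classical
  intro x y h
  by_contra hne
  apply hf
  unfold coll
  exact mem_filter.mpr ⟨mem_univ _, x, y, hne, h⟩

open Classical in
theorem card_coll_pair (x y : Fin n × Fin n) (h : Lt y x) :
    ((univ : Finset (Ix n → K)).filter fun f => sm f x = sm f y).card * Fintype.card K ≤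
      Fintype.card K ^ (2 * n) := by
  let D : Fin 1 → K × K := fun _ => (1, 0)
  let e : Pat n 1 := ((0, 0), (x, y))
  let z : Ix n := if y.1 < x.1 then Sum.inl x.1 else Sum.inr x.2
  have hlead : Lead D e z := by
    simp only [z]
    split_ifs with h1
    · exact ⟨rfl, Or.inl ⟨h1, one_ne_zero⟩⟩
    · rcases h with h | ⟨h, h'⟩
      · exact absurd h h1
      · exact ⟨rfl, h', h.symm, rfl, one_ne_zero⟩
  have h1 := card_sol D {z} (fun _ => e)
  rw [card_singleton, pow_one] at h1
  refine le_trans (Nat.mul_le_mul_right _ (card_le_card ?_)) h1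
  intro f hf
  rw [mem_filter] at hf ⊢
  refine ⟨mem_univ _, ?_⟩
  intro w hw
  rw [mem_singleton] at hw
  subst hw
  refine ⟨hlead, ?_⟩
  simp only [Eqn, D, e, one_mul, add_zero]
  exact hf.2

theorem card_coll : (coll K n).card * Fintype.card K ≤ n ^ 4 * Fintype.card K ^ (2 * n) := by
  classical
  have hsub : coll K n ⊆ (univ : Finset ((Fin n × Fin n) × (Fin n × Fin n))).biUnion
      fun u => if Lt u.2 u.1 then univ.filter fun f : Ix n → K => sm f u.1 = sm f u.2 else ∅ := by
    intro f hf
    have hf' : ∃ x y : Fin n × Fin n, x ≠ y ∧ sm f x = sm f y := by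
      unfold coll at hf
      exact (mem_filter.mp hf).2
    obtain ⟨x, y, hne, h⟩ := hf'
    rw [mem_biUnion]
    rcases lt_or_lt hne with hlt | hlt
    · refine ⟨(y, x), mem_univ _, ?_⟩
      simp only
      rw [if_pos hlt, mem_filter]
      exact ⟨mem_univ _, h.symm⟩
    · refine ⟨(x, y), mem_univ _, ?_⟩
      simp only
      rw [if_pos hlt, mem_filter]
      exact ⟨mem_univ _, h⟩
  calc (coll K n).card * Fintype.card K
      ≤ (∑ u : (Fin n × Fin n) × (Fin n × Fin n),
        (if Lt u.2 u.1 then univ.filter fun f : Ix n → K => sm f u.1 = sm f u.2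
          else (∅ : Finset (Ix n → K))).card) * Fintype.card K :=
        Nat.mul_le_mul_right _ ((card_le_card hsub).trans card_biUnion_le)
    _ = ∑ u : (Fin n × Fin n) × (Fin n × Fin n),
        (if Lt u.2 u.1 then univ.filter fun f : Ix n → K => sm f u.1 = sm f u.2
          else (∅ : Finset (Ix n → K))).card * Fintype.card K := by rw [sum_mul]
    _ ≤ ∑ _u : (Fin n × Fin n) × (Fin n × Fin n), Fintype.card K ^ (2 * n) := by
        apply sum_le_sum
        intro u _
        split_ifs with h
        · exact card_coll_pair u.1 u.2 h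
        · simp
    _ = n ^ 4 * Fintype.card K ^ (2 * n) := by
        rw [sum_const, card_univ, smul_eq_mul]
        simp only [Fintype.card_prod, Fintype.card_fin]
        ring

end coll

end Pool.Agent.GGX.Tri
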