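import Mathlib

/-!
# 3SUM-Indexing in the generic group model, non-adaptive queries

The group is the additive group of a field `K` (the integers modulo a prime `p`); its elements are
only known by labels `σ : K → L` (an injective map).  The arrays `a`, `b` are known.  The memory
of the structure is an advice value `α < H`, an arbitrary function of `σ` (and of the arrays),
read for free.  For a query `z` the structure gets the labels of `T` elements `c z + g` of its
choice (the pairs `(c, g)` depend on the advice, not on `z`) and decides.
-/

namespace Pool.Agent.GGX

/-- A structure with `H` advice values and `T` queries: for every advice value `α` the queries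
`(c, g)` and the decision, a function of the `T` labels read. -/
structure Scheme (K L : Type*) (H T : ℕ) where
  query : Fin H → Fin T → K × K
  dec : Fin H → (Fin T → L) → Prop

section defs

variable {K L : Type*} {H T n : ℕ}

/-- `z` is the sum of an entry of the first array and of an entry of the second one -/
def IsSum [Add K] (a b : Fin n → K) (z : K) : Prop := ∃ i j, a i + b j = z

/-- with the labeling `σ` and the advice `α` the structure accepts `z` -/
def Accepts [Add K] [Mul K] (P : Scheme K L H T) (σ : K → L) (α : Fin H) (z : K) : Prop :=
  P.dec α (fun t => σ ((P.query α t).1 * z + (P.query α t).2))

/-- some advice makes the structure reject at most `E` sums and accept at most `F` other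
elements -/
def Works [Add K] [Mul K] (P : Scheme K L H T) (a b : Fin n → K) (E F : ℕ) (σ : K → L) :
    Prop :=
  ∃ α, Set.encard {z | IsSum a b z ∧ ¬ Accepts P σ α z} ≤ E ∧
    Set.encard {z | ¬ IsSum a b z ∧ Accepts P σ α z} ≤ F

end defs

end Pool.Agent.GGX
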