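import Mathlib
import Pool.Agent.GGX.Defs
import Pool.Agent.GGX.Exch
import Pool.Agent.GGX.Sel

/-!
# The bound for fixed arrays
-/

namespace Pool.Agent.GGX

open Finset

section core

variable {K L : Type*} [Field K] [Fintype K] [DecidableEq K] {H T n : ℕ}

open Classical in
/-- the set of the sums -/
noncomputable def sums (a b : Fin n → K) : Finset K := univ.filter (IsSum a b)

open Classical in
/-- **The bound for fixed arrays.** -/
theorem core (P : Scheme K L H T) (a b : Fin n → K) (B m M E F : ℕ) (hEm : E ≤ m)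
    (hB : ∀ Q : Finset (K × K), Q.card ≤ T →
      ((sums a b).filter (fun x => ∃ x' ∈ sums a b, x' ≠ x ∧ Conf Q x x')).card ≤ B)
    (hm : m + B + T ^ 2 ≤ (sums a b).card)
    (hM : M * (T ^ 2 + 1) + (sums a b).card * (T ^ 2 + 1) + T ^ 2 ≤ Fintype.card K)
    (Sg : Finset (K → L)) (hSg : ∀ π : Equiv.Perm K, ∀ σ ∈ Sg, σ ∘ π ∈ Sg)
    (Sg' : Finset (K → L)) (hSg' : Sg' ⊆ Sg) (hw : ∀ σ ∈ Sg', Works P a b E F σ) :
    Sg'.card * (M + m).choose (m - E) ≤
      H * (Sg.card * (m.choose (m - E) * (m + F).choose (m - E))) := by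
  -- the set of the queries for the advice `α`
  let Q : Fin H → Finset (K × K) := fun α => univ.image (P.query α)
  have hQT : ∀ α, (Q α).card ≤ T := by
    intro α
    calc (Q α).card ≤ (univ : Finset (Fin T)).card := card_image_le
      _ = T := by simp
  have hmem : ∀ α t, P.query α t ∈ Q α := fun α t => mem_image_of_mem _ (mem_univ t)
  have hQ2 : ∀ α, (Q α).card ^ 2 ≤ T ^ 2 := fun α => Nat.pow_le_pow_left (hQT α) 2
  have hsel := fun α => select (sums a b) (Q α) B (hB (Q α) (hQT α))
  choose X W hXW hWS hX hW hself hconf using hsel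
  refine exch_union H M m E F hEm (fun α => {q : K × K // q ∈ Q α}) W X hXW ?_ ?_
    (fun α => {q | q.1.1 ≠ 0}) (fun α z q => q.1.1 * z + q.1.2) ?_ ?_ ?_ Sg hSg
    (fun α l => P.dec α (fun t => l ⟨P.query α t, hmem α t⟩)) Sg' hSg' ?_
  · intro α
    have := hX α
    have := hQ2 α
    omega
  · intro α
    have h1 := hW α
    have h2 := hQ2 α
    have h3 : (X α).card ≤ (W α).card := card_le_card (hXW α)
    by_contra hcon
    push Not at hcon
    have h4 : (W α).card - (X α).card < M := by omega
    have h5 : ((W α).card - (X α).card) * ((Q α).card ^ 2 + 1) +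
        (sums a b).card * ((Q α).card ^ 2 + 1) + (Q α).card ^ 2 <
        M * (T ^ 2 + 1) + (sums a b).card * (T ^ 2 + 1) + T ^ 2 := by
      have h6 : ((W α).card - (X α).card) * ((Q α).card ^ 2 + 1) < M * (T ^ 2 + 1) := by
        calc ((W α).card - (X α).card) * ((Q α).card ^ 2 + 1)
            ≤ ((W α).card - (X α).card) * (T ^ 2 + 1) := Nat.mul_le_mul_left _ (by omega)
          _ < M * (T ^ 2 + 1) := Nat.mul_lt_mul_of_pos_right h4 (by positivity)
      have h7 : (sums a b).card * ((Q α).card ^ 2 + 1) ≤ (sums a b).card * (T ^ 2 + 1) :=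
        Nat.mul_le_mul_left _ (by omega)
      omega
    omega
  · intro α z hz z' hz' q hq q' hq' h
    have hzz : z = z' := by
      by_contra hne
      exact hconf α z hz z' hz' hne ⟨q.1, q.2, q'.1, q'.2, hq, hq', h⟩
    refine ⟨hzz, ?_⟩
    subst hzz
    by_cases hc : q.1.1 = q'.1.1
    · have h2 : q.1.2 = q'.1.2 := by
        have := h
        rw [hc] at this
        exact add_left_cancel this
      exact Subtype.ext (Prod.ext hc h2)
    · exact absurd ⟨q.1, q.2, q'.1, q'.2, hc, h⟩ (hself α z hz)
  · intro α z z' q hq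
    have : q.1.1 = 0 := by
      by_contra h
      exact hq h
    simp only [this, zero_mul]
  · intro α z hz z' hz' q hq q' hq' h
    have h0 : q'.1.1 = 0 := by
      by_contra h'
      exact hq' h'
    refine hself α z hz ⟨q.1, q.2, q'.1, q'.2, ?_, ?_⟩
    · rw [h0]
      exact hq
    · rw [h, h0]
      ring
  · intro σ hσ
    obtain ⟨α, hα1, hα2⟩ := hw σ hσ
    refine ⟨α, univ.filter (fun z => IsSum a b z ∧ ¬ Accepts P σ α z),
      univ.filter (fun z => ¬ IsSum a b z ∧ Accepts P σ α z), ?_, ?_, ?_, ?_⟩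
    · have h := hα1
      rw [Set.encard_eq_coe_toFinset_card] at h
      have h' : ({z | IsSum a b z ∧ ¬ Accepts P σ α z} : Set K).toFinset =
          univ.filter (fun z => IsSum a b z ∧ ¬ Accepts P σ α z) := by
        ext z
        simp
      rw [h'] at h
      exact_mod_cast h
    · have h := hα2
      rw [Set.encard_eq_coe_toFinset_card] at h
      have h' : ({z | ¬ IsSum a b z ∧ Accepts P σ α z} : Set K).toFinset =
          univ.filter (fun z => ¬ IsSum a b z ∧ Accepts P σ α z) := by
        ext z
        simp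
      rw [h'] at h
      exact_mod_cast h
    · intro z hz hzR
      have h1 : IsSum a b z := by
        have := (hWS α z (hXW α hz)).mpr hz
        exact (mem_filter.mp this).2
      by_contra h2
      exact hzR (mem_filter.mpr ⟨mem_univ _, h1, h2⟩)
    · intro z hz hzX hzA h2
      have h1 : ¬ IsSum a b z := by
        intro h
        exact hzX ((hWS α z hz).mp (mem_filter.mpr ⟨mem_univ _, h⟩))
      exact hzA (mem_filter.mpr ⟨mem_univ _, h1, h2⟩)

end core

end Pool.Agent.GGX
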