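import Mathlib

/-!
Generic arrays over a finite field, and the count of the arrays which are not generic.
-/

namespace Pool.Agent.GGX

open Finset

/-- index set of the two arrays: `Sum.inl i` is the i-th entry of the first array -/
abbrev Ix (n : ℕ) := Fin n ⊕ Fin n

section
variable {K : Type*} {n : ℕ}

/-- the sum `a i + b j` -/
def sm [Add K] (f : Ix n → K) (u : Fin n × Fin n) : K := f (Sum.inl u.1) + f (Sum.inr u.2)

/-- the index `x` occurs in the sum with index `u` -/
def occ (x : Ix n) (u : Fin n × Fin n) : Prop := x = Sum.inl u.1 ∨ x = Sum.inr u.2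

instance (x : Ix n) (u : Fin n × Fin n) : Decidable (occ x u) := by unfold occ; infer_instance

/-- Generic arrays: no short integer relation, and no coincidence between multiples of sums. -/
structure Gen [Field K] [DecidableEq K] (k : ℕ) (f : Ix n → K) : Prop where
  rel : ∀ m : Ix n → ℤ, (∑ j, |m j|) ≤ 4 * k → ∑ j, (m j : K) * f j = 0 → m = 0
  col : ∀ c c' h : K, c ≠ 0 → c' ≠ 0 → c ≠ c' →
    #{w : (Fin n × Fin n) × (Fin n × Fin n) | c * sm f w.1 - c' * sm f w.2 = h} ≤ 4

end

section Count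
variable {K : Type*} [Field K] [Fintype K] {ι : Type*} [Fintype ι] [DecidableEq ι]

/-- a set of functions determined by the coordinates other than `x` -/
theorem card_fresh (E : Finset (ι → K)) (x : ι)
    (hE : ∀ f ∈ E, ∀ f' ∈ E, (∀ y, y ≠ x → f y = f' y) → f = f') :
    #E * Fintype.card K ≤ Fintype.card K ^ Fintype.card ι := by
  classical
  have h1 : #(E ×ˢ (Finset.univ : Finset K)) ≤ #(Finset.univ : Finset (ι → K)) := by
    refine Finset.card_le_card_of_injOn (fun p => Function.update p.1 x (p.1 x + p.2)) ?_ ?_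
    · intro p _; exact Finset.mem_univ _
    · intro p hp p' hp' heq
      rw [Finset.mem_coe, Finset.mem_product] at hp hp'
      have hf : p.1 = p'.1 := by
        refine hE _ hp.1 _ hp'.1 fun y hy => ?_
        have := congrFun heq y
        simpa [Function.update_of_ne hy] using this
      have hx := congrFun heq x
      simp only [Function.update_self] at hx
      rw [hf] at hx
      exact Prod.ext hf (add_left_cancel hx)
  rw [Finset.card_product, Finset.card_univ, Finset.card_univ, Fintype.card_fun] at h1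
  exact h1

end Count

section Rel
variable {ι : Type*} [Fintype ι] [DecidableEq ι]

/-- the unit steps -/
def steps (ι : Type*) [Fintype ι] [DecidableEq ι] : Finset (ι → ℤ) :=
  insert 0 (Finset.univ.image fun x : ι => (Pi.single x (1 : ℤ) : ι → ℤ)) ∪
    (Finset.univ.image fun x : ι => (Pi.single x (-1 : ℤ) : ι → ℤ))

theorem zero_mem_steps : (0 : ι → ℤ) ∈ steps ι :=
  Finset.mem_union_left _ (Finset.mem_insert_self _ _)

theorem one_mem_steps (x : ι) : (Pi.single x (1 : ℤ) : ι → ℤ) ∈ steps ι :=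
  Finset.mem_union_left _ (Finset.mem_insert_of_mem
    (Finset.mem_image.2 ⟨x, Finset.mem_univ x, rfl⟩))

theorem neg_mem_steps (x : ι) : (Pi.single x (-1 : ℤ) : ι → ℤ) ∈ steps ι :=
  Finset.mem_union_right _ (Finset.mem_image.2 ⟨x, Finset.mem_univ x, rfl⟩)

/-- integer vectors with `ℓ¹` norm at most `L` (a superset of) -/
def ball (ι : Type*) [Fintype ι] [DecidableEq ι] : ℕ → Finset (ι → ℤ)
  | 0 => {0}
  | L + 1 => Finset.image₂ (· + ·) (ball ι L) (steps ι)

theorem card_ball (L : ℕ) : #(ball ι L) ≤ (2 * Fintype.card ι + 1) ^ L := by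
  induction L with
  | zero => simp [ball]
  | succ L ih =>
    rw [ball, pow_succ]
    refine (Finset.card_image₂_le _ _ _).trans (Nat.mul_le_mul ih ?_)
    unfold steps
    have h1 : #(Finset.univ.image fun x : ι => (Pi.single x (1 : ℤ) : ι → ℤ)) ≤
        Fintype.card ι := Finset.card_image_le
    have h2 : #(Finset.univ.image fun x : ι => (Pi.single x (-1 : ℤ) : ι → ℤ)) ≤
        Fintype.card ι := Finset.card_image_le
    have h3 := Finset.card_union_le
      (insert 0 (Finset.univ.image fun x : ι => (Pi.single x (1 : ℤ) : ι → ℤ)))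
      (Finset.univ.image fun x : ι => (Pi.single x (-1 : ℤ) : ι → ℤ))
    have h4 := Finset.card_insert_le (0 : ι → ℤ)
      (Finset.univ.image fun x : ι => (Pi.single x (1 : ℤ) : ι → ℤ))
    omega

theorem mem_ball (L : ℕ) (m : ι → ℤ) (hm : (∑ j, |m j|) ≤ L) : m ∈ ball ι L := by
  induction L generalizing m with
  | zero =>
    have h0 : (∑ j, |m j|) = 0 :=
      le_antisymm (by simpa using hm) (Finset.sum_nonneg fun j _ => abs_nonneg _)
    have : m = 0 := by
      funext j
      have := (Finset.sum_eq_zero_iff_of_nonneg fun j _ => abs_nonneg (m j)).1 h0 j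
        (Finset.mem_univ j)
      simpa using this
    simp [ball, this]
  | succ L ih =>
    rw [ball, Finset.mem_image₂]
    by_cases h0 : m = 0
    · subst h0
      exact ⟨0, ih 0 (by simp), 0, zero_mem_steps, by simp⟩
    · have : ∃ x, m x ≠ 0 := by
        by_contra hcon
        push Not at hcon
        exact h0 (funext hcon)
      obtain ⟨x, hx⟩ := this
      have hsplit : ∀ m : ι → ℤ, ∑ j, |m j| = |m x| + ∑ j ∈ Finset.univ.erase x, |m j| := by
        intro m
        rw [Finset.add_sum_erase _ (fun j => |m j|) (Finset.mem_univ x)]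
      have hgen : ∀ e : ℤ, |m x - e| + 1 ≤ |m x| →
          (∑ j, |(m - Pi.single x e : ι → ℤ) j|) ≤ L := by
        intro e he
        rw [hsplit] at hm ⊢
        have h1 : ∑ j ∈ Finset.univ.erase x, |(m - Pi.single x e : ι → ℤ) j| =
            ∑ j ∈ Finset.univ.erase x, |m j| := by
          refine Finset.sum_congr rfl fun j hj => ?_
          rw [Pi.sub_apply, Pi.single_eq_of_ne (Finset.ne_of_mem_erase hj), sub_zero]
        rw [h1, Pi.sub_apply, Pi.single_eq_same]
        push_cast at hm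
        linarith
      rcases lt_or_gt_of_ne hx with h | h
      · refine ⟨m - (Pi.single x (-1 : ℤ) : ι → ℤ), ih _ (hgen (-1) ?_),
          (Pi.single x (-1 : ℤ) : ι → ℤ), neg_mem_steps x, sub_add_cancel _ _⟩
        rw [abs_of_neg h, abs_of_nonpos (by omega)]; omega
      · refine ⟨m - (Pi.single x (1 : ℤ) : ι → ℤ), ih _ (hgen 1 ?_),
          (Pi.single x (1 : ℤ) : ι → ℤ), one_mem_steps x, sub_add_cancel _ _⟩
        rw [abs_of_pos h, abs_of_nonneg (by omega)]; omega

end Rel

section Ev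
variable {ι : Type*} [Fintype ι] [DecidableEq ι] {K : Type*} [CommRing K]

/-- value of an integer combination -/
def ev (f : ι → K) (m : ι → ℤ) : K := ∑ j, (m j : K) * f j

omit [DecidableEq ι] in
theorem ev_add (f : ι → K) (m m' : ι → ℤ) : ev f (m + m') = ev f m + ev f m' := by
  unfold ev
  rw [← Finset.sum_add_distrib]
  refine Finset.sum_congr rfl fun j _ => ?_
  rw [Pi.add_apply, Int.cast_add, add_mul]

theorem ev_single (f : ι → K) (x : ι) (e : ℤ) : ev f (Pi.single x e) = e * f x := by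
  unfold ev
  rw [Finset.sum_eq_single x]
  · rw [Pi.single_eq_same]
  · intro j _ hj
    rw [Pi.single_eq_of_ne hj, Int.cast_zero, zero_mul]
  · intro h; exact absurd (Finset.mem_univ x) h

omit [DecidableEq ι] in
theorem nrm_add (m m' : ι → ℤ) : (∑ j, |(m + m') j|) ≤ (∑ j, |m j|) + ∑ j, |m' j| := by
  rw [← Finset.sum_add_distrib]
  exact Finset.sum_le_sum fun j _ => by rw [Pi.add_apply]; exact abs_add_le _ _

theorem nrm_single (x : ι) (e : ℤ) : (∑ j, |(Pi.single x e : ι → ℤ) j|) = |e| := by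
  rw [Finset.sum_eq_single x]
  · rw [Pi.single_eq_same]
  · intro j _ hj
    rw [Pi.single_eq_of_ne hj, abs_zero]
  · intro h; exact absurd (Finset.mem_univ x) h

end Ev

section Sums
variable {K : Type*} [Field K] {n : ℕ}

/-- relation vector of `s u - s v` -/
def dv (u v : Fin n × Fin n) : Ix n → ℤ :=
  (Pi.single (Sum.inl u.1) 1 + Pi.single (Sum.inr u.2) 1) +
    (Pi.single (Sum.inl v.1) (-1) + Pi.single (Sum.inr v.2) (-1))

theorem ev_dv (f : Ix n → K) (u v : Fin n × Fin n) : ev f (dv u v) = sm f u - sm f v := by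
  unfold dv sm
  rw [ev_add, ev_add, ev_add, ev_single, ev_single, ev_single, ev_single]
  push_cast
  ring

theorem nrm_dv (u v : Fin n × Fin n) : (∑ j, |dv u v j|) ≤ 4 := by
  unfold dv
  refine (nrm_add _ _).trans ?_
  have h1 := nrm_add (Pi.single (Sum.inl u.1 : Ix n) (1 : ℤ)) (Pi.single (Sum.inr u.2) 1)
  have h2 := nrm_add (Pi.single (Sum.inl v.1 : Ix n) (-1 : ℤ)) (Pi.single (Sum.inr v.2) (-1))
  rw [nrm_single, nrm_single, abs_one] at h1
  rw [nrm_single, nrm_single, abs_neg, abs_one] at h2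
  linarith

theorem dv_inl (u v : Fin n × Fin n) (i : Fin n) :
    dv u v (Sum.inl i) = (if i = u.1 then 1 else 0) - (if i = v.1 then 1 else 0) := by
  simp only [dv, Pi.add_apply, Pi.single_apply, Sum.inl.injEq, reduceCtorEq, if_false, add_zero]
  split_ifs <;> simp

theorem dv_inr (u v : Fin n × Fin n) (i : Fin n) :
    dv u v (Sum.inr i) = (if i = u.2 then 1 else 0) - (if i = v.2 then 1 else 0) := by
  simp only [dv, Pi.add_apply, Pi.single_apply, Sum.inr.injEq, reduceCtorEq, if_false, zero_add]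
  split_ifs <;> simp

variable {k : ℕ} {f : Ix n → K}

theorem sm_inj (hk : 1 ≤ k)
    (hrel : ∀ m : Ix n → ℤ, (∑ j, |m j|) ≤ 4 * k → ev f m = 0 → m = 0)
    {u v : Fin n × Fin n} (h : sm f u = sm f v) : u = v := by
  have h0 : dv u v = 0 := by
    refine hrel _ ((nrm_dv u v).trans ?_) (by rw [ev_dv, h, sub_self])
    have : (1 : ℤ) ≤ k := by exact_mod_cast hk
    linarith
  have h1 := congrFun h0 (Sum.inl u.1)
  have h2 := congrFun h0 (Sum.inr u.2)
  rw [dv_inl] at h1
  rw [dv_inr] at h2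
  have h3 : u.1 = v.1 := by
    by_contra hne
    simp [hne] at h1
  have h4 : u.2 = v.2 := by
    by_contra hne
    simp [hne] at h2
  exact Prod.ext h3 h4

/-- differences with both coordinates different determine the pair -/
theorem sub_inj (hk : 2 ≤ k)
    (hrel : ∀ m : Ix n → ℤ, (∑ j, |m j|) ≤ 4 * k → ev f m = 0 → m = 0)
    {u v u' v' : Fin n × Fin n} (h : sm f u - sm f v = sm f u' - sm f v')
    (h1 : u.1 ≠ v.1) (h2 : u.2 ≠ v.2) : u = u' ∧ v = v' := by
  have h0 : dv u v + dv v' u' = 0 := by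
    refine hrel _ ((nrm_add _ _).trans ?_) (by rw [ev_add, ev_dv, ev_dv, h]; ring)
    have := nrm_dv u v
    have := nrm_dv v' u'
    have : (2 : ℤ) ≤ k := by exact_mod_cast hk
    linarith
  have a1 := congrFun h0 (Sum.inl u.1)
  have a2 := congrFun h0 (Sum.inr u.2)
  have a3 := congrFun h0 (Sum.inl v.1)
  have a4 := congrFun h0 (Sum.inr v.2)
  rw [Pi.add_apply, dv_inl, dv_inl, Pi.zero_apply] at a1 a3
  rw [Pi.add_apply, dv_inr, dv_inr, Pi.zero_apply] at a2 a4
  simp only [if_true, h1, h2, h1.symm, h2.symm, if_false] at a1 a2 a3 a4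
  refine ⟨Prod.ext ?_ ?_, Prod.ext ?_ ?_⟩
  · by_contra hne; simp only [hne, if_false] at a1; split_ifs at a1 <;> omega
  · by_contra hne; simp only [hne, if_false] at a2; split_ifs at a2 <;> omega
  · by_contra hne; simp only [hne, if_false] at a3; split_ifs at a3 <;> omega
  · by_contra hne; simp only [hne, if_false] at a4; split_ifs at a4 <;> omega

end Sums

section Five
variable {n : ℕ}

theorem card_le_two {α β : Type*} [DecidableEq α] [DecidableEq β] (L : Finset α) (P : Finset β)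
    (hP : #P = 5) (R : α → β → Prop) [∀ a b, Decidable (R a b)]
    (h1 : ∀ i ∈ L, 4 ≤ #{w ∈ P | R i w}) (h2 : ∀ w ∈ P, #{i ∈ L | R i w} ≤ 2) : #L ≤ 2 := by
  have h3 : ∑ i ∈ L, #{w ∈ P | R i w} = ∑ w ∈ P, #{i ∈ L | R i w} :=
    Finset.sum_card_bipartiteAbove_eq_sum_card_bipartiteBelow R
  have h4 : #L * 4 ≤ ∑ i ∈ L, #{w ∈ P | R i w} := by
    rw [← smul_eq_mul, ← Finset.sum_const]
    exact Finset.sum_le_sum h1
  have h5 : ∑ w ∈ P, #{i ∈ L | R i w} ≤ #P * 2 := by
    rw [← smul_eq_mul, ← Finset.sum_const]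
    exact Finset.sum_le_sum h2
  omega

/-- among five pairs of sums with different first sums there are three such that the third has a
fresh index -/
theorem exists_fresh (P : Finset ((Fin n × Fin n) × (Fin n × Fin n))) (hP : 5 ≤ #P)
    (hinj : ∀ w ∈ P, ∀ w' ∈ P, w.1 = w'.1 → w = w') :
    ∃ w₁ ∈ P, ∃ w₂ ∈ P, ∃ w₃ ∈ P, w₁ ≠ w₂ ∧ ∃ x : Ix n, (occ x w₃.1 ∨ occ x w₃.2) ∧
      ¬ occ x w₁.1 ∧ ¬ occ x w₁.2 ∧ ¬ occ x w₂.1 ∧ ¬ occ x w₂.2 := by
  classical
  obtain ⟨Q, hQP, hQ⟩ := Finset.exists_subset_card_eq hP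
  by_contra hcon
  push Not at hcon
  have key : ∀ x : Ix n, ∀ w₃ ∈ Q, (occ x w₃.1 ∨ occ x w₃.2) →
      4 ≤ #{w ∈ Q | occ x w.1 ∨ occ x w.2} := by
    intro x w₃ hw₃ hx
    have h1 : #{w ∈ Q | ¬ (occ x w.1 ∨ occ x w.2)} ≤ 1 := by
      rw [Finset.card_le_one]
      intro w₁ hw₁ w₂ hw₂
      rw [Finset.mem_filter] at hw₁ hw₂
      by_contra hne
      have h := hcon w₁ (hQP hw₁.1) w₂ (hQP hw₂.1) w₃ (hQP hw₃) hne x hx
      have hw1 := hw₁.2
      have hw2 := hw₂.2
      push Not at hw1 hw2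
      exact hw2.2 (h hw1.1 hw1.2 hw2.1)
    have h2 := Finset.card_filter_add_card_filter_not (s := Q)
      (fun w => occ x w.1 ∨ occ x w.2)
    omega
  let WL : Finset (Fin n) := {i | ∃ w ∈ Q, occ (Sum.inl i : Ix n) w.1 ∨ occ (Sum.inl i : Ix n) w.2}
  let WR : Finset (Fin n) := {i | ∃ w ∈ Q, occ (Sum.inr i : Ix n) w.1 ∨ occ (Sum.inr i : Ix n) w.2}
  have hL : #WL ≤ 2 := by
    refine card_le_two WL Q hQ (fun i w => occ (Sum.inl i : Ix n) w.1 ∨ occ (Sum.inl i : Ix n) w.2)
      ?_ ?_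
    · intro i hi
      simp only [WL, Finset.mem_filter, Finset.mem_univ, true_and] at hi
      obtain ⟨w, hw, h⟩ := hi
      exact key _ w hw h
    · intro w _
      refine (Finset.card_le_card (t := {w.1.1, w.2.1}) ?_).trans Finset.card_le_two
      intro i hi
      rw [Finset.mem_filter] at hi
      have := hi.2
      simp only [occ, Sum.inl.injEq, reduceCtorEq, or_false] at this
      simpa using this
  have hR : #WR ≤ 2 := by
    refine card_le_two WR Q hQ (fun i w => occ (Sum.inr i : Ix n) w.1 ∨ occ (Sum.inr i : Ix n) w.2)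
      ?_ ?_
    · intro i hi
      simp only [WR, Finset.mem_filter, Finset.mem_univ, true_and] at hi
      obtain ⟨w, hw, h⟩ := hi
      exact key _ w hw h
    · intro w _
      refine (Finset.card_le_card (t := {w.1.2, w.2.2}) ?_).trans Finset.card_le_two
      intro i hi
      rw [Finset.mem_filter] at hi
      have := hi.2
      simp only [occ, Sum.inr.injEq, reduceCtorEq, false_or] at this
      simpa using this
  have h5 : #Q ≤ #(WL ×ˢ WR) := by
    refine Finset.card_le_card_of_injOn (fun w => w.1) ?_ ?_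
    · intro w hw
      rw [Finset.mem_coe, Finset.mem_product]
      constructor
      · simp only [WL, Finset.mem_filter, Finset.mem_univ, true_and]
        exact ⟨w, hw, Or.inl (Or.inl rfl)⟩
      · simp only [WR, Finset.mem_filter, Finset.mem_univ, true_and]
        exact ⟨w, hw, Or.inl (Or.inr rfl)⟩
    · intro w hw w' hw' h
      exact hinj w (hQP hw) w' (hQP hw') h
  rw [Finset.card_product, hQ] at h5
  have := Nat.mul_le_mul hL hR
  omega

end Five

section Bad
variable {K : Type*} [Field K] [Fintype K] [DecidableEq K] {n : ℕ}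

/-- arrays with the relation `m` -/
def badRel (m : Ix n → ℤ) : Finset (Ix n → K) := {f | ev f m = 0}

/-- arrays for which the third pair of sums is on the line of the first two -/
def badCol (w₁ w₂ w₃ : (Fin n × Fin n) × (Fin n × Fin n)) : Finset (Ix n → K) :=
  {f | sm f w₁.1 - sm f w₂.1 ≠ 0 ∧ sm f w₁.2 - sm f w₂.2 ≠ 0 ∧
    sm f w₁.1 - sm f w₂.1 ≠ sm f w₁.2 - sm f w₂.2 ∧
    (sm f w₁.1 - sm f w₂.1) * (sm f w₁.2 - sm f w₃.2) =
      (sm f w₁.1 - sm f w₃.1) * (sm f w₁.2 - sm f w₂.2)}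

theorem card_badRel (m : Ix n → ℤ) (x : Ix n) (hx : (m x : K) ≠ 0) :
    #(badRel m : Finset (Ix n → K)) * Fintype.card K ≤ Fintype.card K ^ Fintype.card (Ix n) := by
  refine card_fresh _ x fun f hf f' hf' h => ?_
  simp only [badRel, Finset.mem_filter, Finset.mem_univ, true_and] at hf hf'
  have h1 : ∀ f : Ix n → K, ev f m = (m x : K) * f x +
      ∑ j ∈ Finset.univ.erase x, (m j : K) * f j := by
    intro f
    unfold ev
    rw [Finset.add_sum_erase _ (fun j => (m j : K) * f j) (Finset.mem_univ x)]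
  have h2 : ∑ j ∈ Finset.univ.erase x, (m j : K) * f j =
      ∑ j ∈ Finset.univ.erase x, (m j : K) * f' j :=
    Finset.sum_congr rfl fun j hj => by rw [h j (Finset.ne_of_mem_erase hj)]
  rw [h1, h2] at hf
  rw [h1] at hf'
  have h3 : (m x : K) * f x = (m x : K) * f' x := by
    rw [← hf'] at hf
    exact add_right_cancel hf
  funext y
  by_cases hy : y = x
  · rw [hy]; exact mul_left_cancel₀ hx h3
  · exact h y hy

omit [Fintype K] [DecidableEq K] in
theorem sm_of_not_occ {f f' : Ix n → K} {x : Ix n} (h : ∀ y, y ≠ x → f y = f' y)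
    {u : Fin n × Fin n} (hu : ¬ occ x u) : sm f u = sm f' u := by
  unfold occ at hu
  push Not at hu
  unfold sm
  rw [h _ hu.1.symm, h _ hu.2.symm]

omit [Fintype K] [DecidableEq K] in
theorem sm_of_occ {f f' : Ix n → K} {x : Ix n} (h : ∀ y, y ≠ x → f y = f' y)
    {u : Fin n × Fin n} (hu : occ x u) : sm f u = sm f' u + (f x - f' x) := by
  unfold sm
  rcases hu with hu | hu
  · rw [hu, h (Sum.inr u.2) (by rw [hu]; simp)]; ring
  · rw [hu, h (Sum.inl u.1) (by rw [hu]; simp)]; ring

theorem card_badCol (w₁ w₂ w₃ : (Fin n × Fin n) × (Fin n × Fin n)) (x : Ix n)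
    (hx : occ x w₃.1 ∨ occ x w₃.2) (h1 : ¬ occ x w₁.1) (h2 : ¬ occ x w₁.2)
    (h3 : ¬ occ x w₂.1) (h4 : ¬ occ x w₂.2) :
    #(badCol w₁ w₂ w₃ : Finset (Ix n → K)) * Fintype.card K ≤
      Fintype.card K ^ Fintype.card (Ix n) := by
  refine card_fresh _ x fun f hf f' hf' h => ?_
  simp only [badCol, Finset.mem_filter, Finset.mem_univ, true_and] at hf hf'
  obtain ⟨-, -, -, hf⟩ := hf
  obtain ⟨a1, a2, a3, hf'⟩ := hf'
  rw [sm_of_not_occ h h1, sm_of_not_occ h h2, sm_of_not_occ h h3, sm_of_not_occ h h4] at hf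
  have hx0 : f x - f' x = 0 := by
    by_cases c1 : occ x w₃.1 <;> by_cases c2 : occ x w₃.2
    · rw [sm_of_occ h c1, sm_of_occ h c2] at hf
      have h5 : (f x - f' x) * ((sm f' w₁.1 - sm f' w₂.1) - (sm f' w₁.2 - sm f' w₂.2)) = 0 := by
        linear_combination hf' - hf
      exact (mul_eq_zero.1 h5).resolve_right (sub_ne_zero.2 a3)
    · rw [sm_of_occ h c1, sm_of_not_occ h c2] at hf
      have h5 : (f x - f' x) * (sm f' w₁.2 - sm f' w₂.2) = 0 := by
        linear_combination hf - hf'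
      exact (mul_eq_zero.1 h5).resolve_right a2
    · rw [sm_of_not_occ h c1, sm_of_occ h c2] at hf
      have h5 : (f x - f' x) * (sm f' w₁.1 - sm f' w₂.1) = 0 := by
        linear_combination hf' - hf
      exact (mul_eq_zero.1 h5).resolve_right a1
    · exact absurd hx (by tauto)
  funext y
  by_cases hy : y = x
  · rw [hy]; exact sub_eq_zero.1 hx0
  · exact h y hy

/-- all bad arrays -/
def bad (K : Type*) [Field K] [Fintype K] [DecidableEq K] (n k : ℕ) : Finset (Ix n → K) :=
  ({m ∈ ball (Ix n) (4 * k) | ∃ x, (m x : K) ≠ 0}).biUnion badRel ∪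
  (Finset.univ.filter fun w : ((Fin n × Fin n) × (Fin n × Fin n)) ×
      (((Fin n × Fin n) × (Fin n × Fin n)) × ((Fin n × Fin n) × (Fin n × Fin n))) =>
    ∃ x : Ix n, (occ x w.2.2.1 ∨ occ x w.2.2.2) ∧ ¬ occ x w.1.1 ∧ ¬ occ x w.1.2 ∧
      ¬ occ x w.2.1.1 ∧ ¬ occ x w.2.1.2).biUnion fun w => badCol w.1 w.2.1 w.2.2

theorem card_bad (k : ℕ) : #(bad K n k) * Fintype.card K ≤
    ((4 * n + 1) ^ (4 * k) + n ^ 12) * Fintype.card K ^ (2 * n) := by
  classical
  have hix : Fintype.card (Ix n) = 2 * n := by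
    rw [Fintype.card_sum, Fintype.card_fin]; ring
  have hq : 0 < Fintype.card K := Fintype.card_pos
  unfold bad
  rw [← hix]
  set R := ({m ∈ ball (Ix n) (4 * k) | ∃ x, (m x : K) ≠ 0}) with hR
  set T := (Finset.univ.filter fun w : ((Fin n × Fin n) × (Fin n × Fin n)) ×
      (((Fin n × Fin n) × (Fin n × Fin n)) × ((Fin n × Fin n) × (Fin n × Fin n))) =>
    ∃ x : Ix n, (occ x w.2.2.1 ∨ occ x w.2.2.2) ∧ ¬ occ x w.1.1 ∧ ¬ occ x w.1.2 ∧
      ¬ occ x w.2.1.1 ∧ ¬ occ x w.2.1.2) with hT
  have h1 : #(R.biUnion (badRel : _ → Finset (Ix n → K))) * Fintype.card K ≤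
      (4 * n + 1) ^ (4 * k) * Fintype.card K ^ Fintype.card (Ix n) := by
    calc #(R.biUnion (badRel : _ → Finset (Ix n → K))) * Fintype.card K
        ≤ (∑ m ∈ R, #(badRel m : Finset (Ix n → K))) * Fintype.card K :=
          Nat.mul_le_mul_right _ Finset.card_biUnion_le
      _ = ∑ m ∈ R, #(badRel m : Finset (Ix n → K)) * Fintype.card K := Finset.sum_mul _ _ _
      _ ≤ ∑ _m ∈ R, Fintype.card K ^ Fintype.card (Ix n) := by
          refine Finset.sum_le_sum fun m hm => ?_
          obtain ⟨x, hx⟩ := (Finset.mem_filter.1 hm).2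
          exact card_badRel m x hx
      _ = #R * Fintype.card K ^ Fintype.card (Ix n) := by rw [Finset.sum_const, smul_eq_mul]
      _ ≤ (4 * n + 1) ^ (4 * k) * Fintype.card K ^ Fintype.card (Ix n) := by
          refine Nat.mul_le_mul_right _ ((Finset.card_filter_le _ _).trans ?_)
          refine (card_ball _).trans (le_of_eq ?_)
          rw [hix]; ring_nf
  have h2 : #(T.biUnion fun w => (badCol w.1 w.2.1 w.2.2 : Finset (Ix n → K))) *
      Fintype.card K ≤ n ^ 12 * Fintype.card K ^ Fintype.card (Ix n) := by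
    calc #(T.biUnion fun w => (badCol w.1 w.2.1 w.2.2 : Finset (Ix n → K))) * Fintype.card K
        ≤ (∑ w ∈ T, #(badCol w.1 w.2.1 w.2.2 : Finset (Ix n → K))) * Fintype.card K :=
          Nat.mul_le_mul_right _ Finset.card_biUnion_le
      _ = ∑ w ∈ T, #(badCol w.1 w.2.1 w.2.2 : Finset (Ix n → K)) * Fintype.card K :=
          Finset.sum_mul _ _ _
      _ ≤ ∑ _w ∈ T, Fintype.card K ^ Fintype.card (Ix n) := by
          refine Finset.sum_le_sum fun w hw => ?_
          obtain ⟨x, hx, h1, h2, h3, h4⟩ := (Finset.mem_filter.1 hw).2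
          exact card_badCol w.1 w.2.1 w.2.2 x hx h1 h2 h3 h4
      _ = #T * Fintype.card K ^ Fintype.card (Ix n) := by rw [Finset.sum_const, smul_eq_mul]
      _ ≤ n ^ 12 * Fintype.card K ^ Fintype.card (Ix n) := by
          refine Nat.mul_le_mul_right _ ((Finset.card_filter_le _ _).trans (le_of_eq ?_))
          rw [Finset.card_univ]
          simp only [Fintype.card_prod, Fintype.card_fin]
          ring
  calc _ ≤ (#(R.biUnion (badRel : _ → Finset (Ix n → K))) +
        #(T.biUnion fun w => (badCol w.1 w.2.1 w.2.2 : Finset (Ix n → K)))) * Fintype.card K :=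
        Nat.mul_le_mul_right _ (Finset.card_union_le _ _)
    _ ≤ _ := by rw [add_mul, add_mul]; exact add_le_add h1 h2

/-- arrays outside `bad` are generic -/
theorem gen_of_not_bad (k : ℕ) (hk : 1 ≤ k)
    (hchar : ∀ z : ℤ, |z| ≤ 4 * k → (z : K) = 0 → z = 0) (f : Ix n → K) (hf : f ∉ bad K n k) :
    Gen k f := by
  classical
  unfold bad at hf
  rw [Finset.mem_union, not_or, Finset.mem_biUnion, Finset.mem_biUnion] at hf
  obtain ⟨hf1, hf2⟩ := hf
  have hrel : ∀ m : Ix n → ℤ, (∑ j, |m j|) ≤ 4 * k → ev f m = 0 → m = 0 := by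
    intro m hm h0
    by_contra hne
    have : ∃ x, m x ≠ 0 := by
      by_contra hcon
      push Not at hcon
      exact hne (funext hcon)
    obtain ⟨x, hx⟩ := this
    refine hf1 ⟨m, Finset.mem_filter.2 ⟨mem_ball _ _ (by exact_mod_cast hm), x, fun h => hx ?_⟩, ?_⟩
    · refine hchar _ ((Finset.single_le_sum (f := fun j => |m j|)
        (fun j _ => abs_nonneg (m j)) (Finset.mem_univ x)).trans hm) h
    · simp only [badRel, Finset.mem_filter, Finset.mem_univ, true_and]
      exact h0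
  refine ⟨hrel, fun c c' h hc hc' hcc => ?_⟩
  by_contra hcon
  push Not at hcon
  have hinj1 : ∀ w w' : (Fin n × Fin n) × (Fin n × Fin n), c * sm f w.1 - c' * sm f w.2 = h →
      c * sm f w'.1 - c' * sm f w'.2 = h → sm f w.1 = sm f w'.1 → w = w' := by
    intro w w' hw hw' he
    rw [he, ← hw'] at hw
    have h2 : c' * sm f w.2 = c' * sm f w'.2 := by linear_combination -hw
    exact Prod.ext (sm_inj hk hrel he) (sm_inj hk hrel (mul_left_cancel₀ hc' h2))
  have hinj2 : ∀ w w' : (Fin n × Fin n) × (Fin n × Fin n), c * sm f w.1 - c' * sm f w.2 = h →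
      c * sm f w'.1 - c' * sm f w'.2 = h → sm f w.2 = sm f w'.2 → w = w' := by
    intro w w' hw hw' he
    rw [he, ← hw'] at hw
    have h2 : c * sm f w.1 = c * sm f w'.1 := by linear_combination hw
    exact Prod.ext (sm_inj hk hrel (mul_left_cancel₀ hc h2)) (sm_inj hk hrel he)
  obtain ⟨w₁, hw₁, w₂, hw₂, w₃, hw₃, hne, x, hx, h1, h2, h3, h4⟩ :=
    exists_fresh {w : (Fin n × Fin n) × (Fin n × Fin n) | c * sm f w.1 - c' * sm f w.2 = h} hcon
      (by
        intro w hw w' hw' he
        simp only [Finset.mem_filter, Finset.mem_univ, true_and] at hw hw'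
        exact hinj1 w w' hw hw' (by rw [he]))
  simp only [Finset.mem_filter, Finset.mem_univ, true_and] at hw₁ hw₂ hw₃
  refine hf2 ⟨(w₁, (w₂, w₃)), Finset.mem_filter.2 ⟨Finset.mem_univ _, x, hx, h1, h2, h3, h4⟩, ?_⟩
  simp only [badCol, Finset.mem_filter, Finset.mem_univ, true_and]
  have e12 : c * (sm f w₁.1 - sm f w₂.1) = c' * (sm f w₁.2 - sm f w₂.2) := by
    linear_combination hw₁ - hw₂
  have e13 : c * (sm f w₁.1 - sm f w₃.1) = c' * (sm f w₁.2 - sm f w₃.2) := by
    linear_combination hw₁ - hw₃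
  have d1 : sm f w₁.1 - sm f w₂.1 ≠ 0 := fun h0 =>
    hne (hinj1 w₁ w₂ hw₁ hw₂ (sub_eq_zero.1 h0))
  refine ⟨d1, fun h0 => hne (hinj2 w₁ w₂ hw₁ hw₂ (sub_eq_zero.1 h0)), fun h0 => ?_, ?_⟩
  · rw [← h0] at e12
    exact hcc (mul_right_cancel₀ d1 e12)
  · have h5 : c' * ((sm f w₁.1 - sm f w₂.1) * (sm f w₁.2 - sm f w₃.2)) =
        c' * ((sm f w₁.1 - sm f w₃.1) * (sm f w₁.2 - sm f w₂.2)) := by
      linear_combination (sm f w₁.1 - sm f w₃.1) * e12 - (sm f w₁.1 - sm f w₂.1) * e13
    exact mul_left_cancel₀ hc' h5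

end Bad

end Pool.Agent.GGX
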