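import Mathlib

/-!
Labels of differences: if `b` has no nontrivial integer relation with at most `4k` terms then only
few indices `j` can occur in equations `g - g' = b j - b j'` with `g, g'` in a given finite set `G`.
-/

namespace Pool.Agent.GGX

open Finset

section Trails

variable {M : Type*} [AddCommGroup M] [DecidableEq M] {ε : Type*} [DecidableEq ε]

omit [AddCommGroup M] in
/-- a nonempty set of vertices in which every vertex has at least `D` edges -/
theorem exists_min_deg (H : Finset ε) (src tgt : ε → M) (G : Finset M)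
    (hs : ∀ e ∈ H, src e ∈ G) (ht : ∀ e ∈ H, tgt e ∈ G) (D : ℕ) (hD : D * #G < #H) :
    ∃ V ⊆ G, V.Nonempty ∧ ∀ v ∈ V,
      D ≤ #{e ∈ H | (src e ∈ V ∧ tgt e ∈ V) ∧ (src e = v ∨ tgt e = v)} := by
  classical
  let f : Finset M → ℤ := fun V => (#{e ∈ H | src e ∈ V ∧ tgt e ∈ V} : ℤ) - D * #V
  obtain ⟨V, hV, hmax⟩ := Finset.exists_max_image G.powerset f ⟨G, Finset.mem_powerset_self G⟩
  have hVG : V ⊆ G := Finset.mem_powerset.1 hV
  have hG : f G ≤ f V := hmax G (Finset.mem_powerset_self G)
  have hfG : f G = (#H : ℤ) - D * #G := by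
    simp only [f]
    congr 2
    congr 1
    exact Finset.filter_true_of_mem fun e he => ⟨hs e he, ht e he⟩
  have hpos : 0 < f V := by
    have : (D : ℤ) * #G < #H := by exact_mod_cast hD
    linarith
  have hne : V.Nonempty := by
    rcases Finset.eq_empty_or_nonempty V with h | h
    · subst h
      simp [f] at hpos
    · exact h
  refine ⟨V, hVG, hne, fun v hv => ?_⟩
  have hle : f (V.erase v) ≤ f V :=
    hmax _ (Finset.mem_powerset.2 ((Finset.erase_subset _ _).trans hVG))
  have hcard : #(V.erase v) + 1 = #V := Finset.card_erase_add_one hv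
  have hsub : ({e ∈ H | src e ∈ V ∧ tgt e ∈ V} : Finset ε) ⊆
      {e ∈ H | src e ∈ V.erase v ∧ tgt e ∈ V.erase v} ∪
      {e ∈ H | (src e ∈ V ∧ tgt e ∈ V) ∧ (src e = v ∨ tgt e = v)} := by
    intro e he
    simp only [Finset.mem_filter, Finset.mem_union, Finset.mem_erase, ne_eq] at he ⊢
    tauto
  have h2 := (Finset.card_le_card hsub).trans (Finset.card_union_le _ _)
  simp only [f] at hle
  have h3 : (#V : ℤ) = #(V.erase v) + 1 := by exact_mod_cast hcard.symm
  rw [h3] at hle
  have h4 : ((#{e ∈ H | src e ∈ V ∧ tgt e ∈ V} : ℕ) : ℤ) ≤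
      (#{e ∈ H | src e ∈ V.erase v ∧ tgt e ∈ V.erase v} : ℤ) +
      (#{e ∈ H | (src e ∈ V ∧ tgt e ∈ V) ∧ (src e = v ∨ tgt e = v)} : ℤ) := by
    exact_mod_cast h2
  have h5 : (D : ℤ) ≤ (#{e ∈ H | (src e ∈ V ∧ tgt e ∈ V) ∧ (src e = v ∨ tgt e = v)} : ℤ) := by
    nlinarith
  exact_mod_cast h5

/-- displacement of an oriented edge -/
def val (src tgt : ε → M) (st : ε × Bool) : M :=
  if st.2 then tgt st.1 - src st.1 else src st.1 - tgt st.1

/-- many trails from `v` -/
theorem exists_trails (H : Finset ε) (src tgt : ε → M) (V : Finset M) (D k : ℕ)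
    (hdeg : ∀ v ∈ V, D ≤ #{e ∈ H | (src e ∈ V ∧ tgt e ∈ V) ∧ (src e = v ∨ tgt e = v)})
    (v : M) (hv : v ∈ V) (s : ℕ) (hsk : s ≤ k) :
    ∃ 𝒯 : Finset (List (ε × Bool)), (D - k) ^ s ≤ #𝒯 ∧ ∀ l ∈ 𝒯, l.length = s ∧
      (l.map Prod.fst).Nodup ∧ (∀ st ∈ l, st.1 ∈ H) ∧ v + (l.map (val src tgt)).sum ∈ V := by
  classical
  induction s with
  | zero => exact ⟨{[]}, by simp, by simp [hv]⟩
  | succ s ih =>
    obtain ⟨𝒯, hc, h𝒯⟩ := ih (by omega)
    let u : List (ε × Bool) → M := fun l => v + (l.map (val src tgt)).sum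
    let nxt : List (ε × Bool) → Finset ε := fun l =>
      {e ∈ H | (src e ∈ V ∧ tgt e ∈ V) ∧ (src e = u l ∨ tgt e = u l)} \ (l.map Prod.fst).toFinset
    let ext : List (ε × Bool) → Finset (List (ε × Bool)) := fun l =>
      (nxt l).image fun e => (e, decide (src e = u l)) :: l
    refine ⟨𝒯.biUnion ext, ?_, ?_⟩
    · rw [Finset.card_biUnion]
      · have hext : ∀ l ∈ 𝒯, D - k ≤ #(ext l) := by
          intro l hl
          obtain ⟨h1, h2, h3, h4⟩ := h𝒯 l hl
          have : #(ext l) = #(nxt l) := by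
            refine Finset.card_image_of_injective _ ?_
            intro e e' h
            simp only [List.cons.injEq, Prod.mk.injEq, and_true] at h
            exact h.1
          rw [this]
          have h5 : #{e ∈ H | (src e ∈ V ∧ tgt e ∈ V) ∧ (src e = u l ∨ tgt e = u l)} -
              #((l.map Prod.fst).toFinset) ≤ #(nxt l) := Finset.le_card_sdiff _ _
          have h6 : #((l.map Prod.fst).toFinset) ≤ s := by
            refine (List.toFinset_card_le _).trans ?_
            simp [h1]
          have h7 := hdeg (u l) h4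
          omega
        calc (D - k) ^ (s + 1) = (D - k) ^ s * (D - k) := pow_succ _ _
          _ ≤ #𝒯 * (D - k) := Nat.mul_le_mul_right _ hc
          _ = ∑ _l ∈ 𝒯, (D - k) := by simp
          _ ≤ ∑ l ∈ 𝒯, #(ext l) := Finset.sum_le_sum hext
      · intro l hl l' hl' hne
        rw [Function.onFun, Finset.disjoint_left]
        intro x hx hx'
        simp only [ext, Finset.mem_image] at hx hx'
        obtain ⟨e, -, rfl⟩ := hx
        obtain ⟨e', -, h⟩ := hx'
        simp only [List.cons.injEq] at h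
        exact hne h.2.symm
    · intro l' hl'
      rw [Finset.mem_biUnion] at hl'
      obtain ⟨l, hl, hl'⟩ := hl'
      simp only [ext, Finset.mem_image] at hl'
      obtain ⟨e, he, rfl⟩ := hl'
      obtain ⟨h1, h2, h3, h4⟩ := h𝒯 l hl
      simp only [nxt, Finset.mem_sdiff, Finset.mem_filter, List.mem_toFinset] at he
      obtain ⟨⟨heH, ⟨heV1, heV2⟩, heu⟩, hel⟩ := he
      refine ⟨by simp [h1], ?_, ?_, ?_⟩
      · simpa using ⟨by simpa using hel, h2⟩
      · intro st hst
        rcases List.mem_cons.1 hst with h | h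
        · rw [h]; exact heH
        · exact h3 st h
      · rw [List.map_cons, List.sum_cons]
        by_cases hsrc : src e = u l
        · have : val src tgt (e, decide (src e = u l)) = tgt e - src e := by simp [val, hsrc]
          rw [this]
          have : v + (tgt e - src e + (l.map (val src tgt)).sum) = tgt e := by
            rw [hsrc]; simp only [u]; abel
          rw [this]; exact heV2
        · have htgt : tgt e = u l := by tauto
          have : val src tgt (e, decide (src e = u l)) = src e - tgt e := by simp [val, hsrc]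
          rw [this]
          have : v + (src e - tgt e + (l.map (val src tgt)).sum) = src e := by
            rw [htgt]; simp only [u]; abel
          rw [this]; exact heV1

variable {n : ℕ}

/-- coefficient vector of an oriented edge -/
def cf (jp jm : ε → Fin n) (st : ε × Bool) : Fin n → ℤ :=
  if st.2 then Pi.single (jp st.1) 1 - Pi.single (jm st.1) 1
  else Pi.single (jm st.1) 1 - Pi.single (jp st.1) 1

omit [DecidableEq M] in
theorem sum_single_smul (b : Fin n → M) (i : Fin n) :
    ∑ j, (Pi.single i (1 : ℤ) : Fin n → ℤ) j • b j = b i := by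
  rw [Finset.sum_eq_single i]
  · simp
  · intro j _ hj
    simp [Pi.single_eq_of_ne hj]
  · intro h; exact absurd (Finset.mem_univ i) h

omit [DecidableEq M] [DecidableEq ε] in
theorem sum_cf (b : Fin n → M) (src tgt : ε → M) (jp jm : ε → Fin n) (st : ε × Bool)
    (h : tgt st.1 - src st.1 = b (jp st.1) - b (jm st.1)) :
    ∑ j, cf jp jm st j • b j = val src tgt st := by
  rcases st with ⟨e, s⟩
  cases s
  · simp only [cf, val, Bool.false_eq_true, if_false, Pi.sub_apply, sub_smul,
      Finset.sum_sub_distrib, sum_single_smul] at h ⊢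
    rw [← neg_sub (tgt e), h]; abel
  · simp only [cf, val, if_true, Pi.sub_apply, sub_smul, Finset.sum_sub_distrib,
      sum_single_smul] at h ⊢
    exact h.symm

omit [DecidableEq ε] in
theorem abs_cf (jp jm : ε → Fin n) (st : ε × Bool) : ∑ j, |cf jp jm st j| ≤ 2 := by
  have h1 : ∀ i : Fin n, ∑ j, |(Pi.single i (1 : ℤ) : Fin n → ℤ) j| = 1 := by
    intro i
    rw [Finset.sum_eq_single i]
    · simp
    · intro j _ hj
      simp [Pi.single_eq_of_ne hj]
    · intro h; exact absurd (Finset.mem_univ i) h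
  have h2 : ∀ i i' : Fin n, ∑ j, |((Pi.single i (1 : ℤ) : Fin n → ℤ) -
      (Pi.single i' (1 : ℤ) : Fin n → ℤ)) j| ≤ 2 := by
    intro i i'
    calc ∑ j, |((Pi.single i (1 : ℤ) : Fin n → ℤ) - (Pi.single i' (1 : ℤ) : Fin n → ℤ)) j|
        ≤ ∑ j, (|(Pi.single i (1 : ℤ) : Fin n → ℤ) j| + |(Pi.single i' (1 : ℤ) : Fin n → ℤ) j|) := by
          refine Finset.sum_le_sum fun j _ => ?_
          rw [Pi.sub_apply]
          exact abs_sub _ _
      _ = 2 := by rw [Finset.sum_add_distrib, h1, h1]; norm_num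
  unfold cf
  split_ifs
  · exact h2 _ _
  · exact h2 _ _

omit [DecidableEq M] [DecidableEq ε] in
theorem sum_cf_list (b : Fin n → M) (src tgt : ε → M) (jp jm : ε → Fin n)
    (l : List (ε × Bool)) (h : ∀ st ∈ l, tgt st.1 - src st.1 = b (jp st.1) - b (jm st.1)) :
    ∑ j, (l.map (cf jp jm)).sum j • b j = (l.map (val src tgt)).sum := by
  induction l with
  | nil => simp
  | cons a l ih =>
    rw [List.map_cons, List.sum_cons, List.map_cons, List.sum_cons]
    simp only [Pi.add_apply, add_smul, Finset.sum_add_distrib]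
    rw [ih fun st hst => h st (List.mem_cons_of_mem _ hst),
      sum_cf b src tgt jp jm a (h a List.mem_cons_self)]

omit [DecidableEq ε] in
theorem abs_cf_list (jp jm : ε → Fin n) (l : List (ε × Bool)) :
    ∑ j, |(l.map (cf jp jm)).sum j| ≤ 2 * l.length := by
  induction l with
  | nil => simp
  | cons a l ih =>
    rw [List.map_cons, List.sum_cons]
    calc ∑ j, |(cf jp jm a + (l.map (cf jp jm)).sum) j|
        ≤ ∑ j, (|cf jp jm a j| + |(l.map (cf jp jm)).sum j|) :=
          Finset.sum_le_sum fun j _ => by rw [Pi.add_apply]; exact abs_add_le _ _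
      _ ≤ 2 + 2 * l.length := by
          rw [Finset.sum_add_distrib]; exact add_le_add (abs_cf _ _ _) ih
      _ = 2 * ((a :: l).length : ℤ) := by push_cast [List.length_cons]; ring

/-- the coefficient at a private index tells which orientation occurs -/
theorem coef_private (jp jm : ε → Fin n) (H : Finset ε) (e : ε) (q : Fin n)
    (hne : jp e ≠ jm e) (hq : q = jp e ∨ q = jm e)
    (hpriv : ∀ e' ∈ H, e' ≠ e → q ≠ jp e' ∧ q ≠ jm e')
    (l : List (ε × Bool)) (hH : ∀ st ∈ l, st.1 ∈ H) (hnd : (l.map Prod.fst).Nodup) :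
    (l.map (cf jp jm)).sum q = (if q = jp e then 1 else -1) *
      (if (e, true) ∈ l then 1 else if (e, false) ∈ l then -1 else 0) := by
  induction l with
  | nil => simp
  | cons a l ih =>
    rw [List.map_cons, List.nodup_cons] at hnd
    rw [List.map_cons, List.sum_cons, Pi.add_apply,
      ih (fun st hst => hH st (List.mem_cons_of_mem _ hst)) hnd.2]
    rcases a with ⟨e', s⟩
    by_cases hee : e' = e
    · subst hee
      have hn : ∀ s', (e', s') ∉ l := fun s' h => hnd.1 (List.mem_map.2 ⟨_, h, rfl⟩)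
      have h1 : cf jp jm (e', s) q =
          (if q = jp e' then 1 else -1) * (if s = true then 1 else -1) := by
        rcases hq with hq | hq
        · subst hq
          cases s <;> simp [cf, Pi.single_eq_of_ne hne]
        · subst hq
          cases s <;> simp [cf, hne.symm]
      rw [h1]
      cases s <;> simp [hn]
    · have h0 : cf jp jm (e', s) q = 0 := by
        obtain ⟨h1, h2⟩ := hpriv e' (hH _ List.mem_cons_self) hee
        cases s <;> simp [cf, Pi.single_eq_of_ne h1, Pi.single_eq_of_ne h2]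
      rw [h0, zero_add]
      have h2 : ∀ s', ((e, s') ∈ (e', s) :: l) ↔ (e, s') ∈ l := by
        intro s'
        rw [List.mem_cons]
        constructor
        · rintro (h | h)
          · exact absurd (congrArg Prod.fst h).symm hee
          · exact h
        · exact Or.inr
      simp only [h2]

theorem signs_eq {A B A' B' : Prop} [Decidable A] [Decidable B] [Decidable A'] [Decidable B']
    (h : (if A then (1 : ℤ) else if B then -1 else 0) = (if A' then 1 else if B' then -1 else 0))
    (h1 : A → ¬ B) (h2 : A' → ¬ B') : (A ↔ A') ∧ (B ↔ B') := by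
  by_cases c1 : A <;> by_cases c2 : B <;> by_cases c3 : A' <;> by_cases c4 : B' <;> simp_all

/-- Number of edges with private labels. -/
theorem card_private_le (b : Fin n → M) (k : ℕ) (hk : 0 < k)
    (hrel : ∀ m : Fin n → ℤ, (∑ j, |m j|) ≤ 4 * k → ∑ j, m j • b j = 0 → m = 0)
    (H : Finset ε) (src tgt : ε → M) (jp jm : ε → Fin n) (G : Finset M)
    (hs : ∀ e ∈ H, src e ∈ G) (ht : ∀ e ∈ H, tgt e ∈ G)
    (hlab : ∀ e ∈ H, tgt e - src e = b (jp e) - b (jm e)) (hne : ∀ e ∈ H, jp e ≠ jm e)
    (hpriv : ∀ e ∈ H, ∃ q, (q = jp e ∨ q = jm e) ∧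
      ∀ e' ∈ H, e' ≠ e → q ≠ jp e' ∧ q ≠ jm e')
    (r : ℕ) (hr : #G ≤ r ^ k) :
    #H ≤ (k + 1 + k * r) * #G := by
  classical
  by_contra hcon
  push Not at hcon
  obtain ⟨V, hVG, ⟨v, hv⟩, hdeg⟩ := exists_min_deg H src tgt G hs ht _ hcon
  obtain ⟨𝒯, hc, h𝒯⟩ := exists_trails H src tgt V (k + 1 + k * r) k hdeg v hv k le_rfl
  have h1 : k + 1 + k * r - k = k * r + 1 := by omega
  rw [h1] at hc
  -- lists with the same end point have the same set of steps
  have hkey : ∀ l ∈ 𝒯, ∀ l' ∈ 𝒯, (l.map (val src tgt)).sum = (l'.map (val src tgt)).sum →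
      l.toFinset = l'.toFinset := by
    intro l hl l' hl' heq
    obtain ⟨a1, a2, a3, -⟩ := h𝒯 l hl
    obtain ⟨b1, b2, b3, -⟩ := h𝒯 l' hl'
    have hz : (l.map (cf jp jm)).sum - (l'.map (cf jp jm)).sum = 0 := by
      refine hrel _ ?_ ?_
      · calc ∑ j, |((l.map (cf jp jm)).sum - (l'.map (cf jp jm)).sum) j|
            ≤ ∑ j, (|(l.map (cf jp jm)).sum j| + |(l'.map (cf jp jm)).sum j|) :=
              Finset.sum_le_sum fun j _ => by rw [Pi.sub_apply]; exact abs_sub _ _
          _ ≤ 2 * l.length + 2 * l'.length := by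
              rw [Finset.sum_add_distrib]
              exact add_le_add (abs_cf_list _ _ _) (abs_cf_list _ _ _)
          _ = 4 * k := by rw [a1, b1]; ring
      · simp only [Pi.sub_apply, sub_smul, Finset.sum_sub_distrib]
        rw [sum_cf_list b src tgt jp jm l fun st hst => hlab _ (a3 st hst),
          sum_cf_list b src tgt jp jm l' fun st hst => hlab _ (b3 st hst), heq, sub_self]
    have hmem : ∀ e ∈ H, ∀ s, ((e, s) ∈ l ↔ (e, s) ∈ l') := by
      intro e he s
      obtain ⟨q, hq, hq'⟩ := hpriv e he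
      have hq1 := congrFun hz q
      rw [Pi.sub_apply, Pi.zero_apply, coef_private jp jm H e q (hne e he) hq hq' l a3 a2,
        coef_private jp jm H e q (hne e he) hq hq' l' b3 b2] at hq1
      have hsg : (if q = jp e then (1 : ℤ) else -1) ≠ 0 := by split_ifs <;> norm_num
      have hq2 : (if (e, true) ∈ l then (1 : ℤ) else if (e, false) ∈ l then -1 else 0) =
          (if (e, true) ∈ l' then (1 : ℤ) else if (e, false) ∈ l' then -1 else 0) := by
        have := sub_eq_zero.1 hq1
        exact mul_left_cancel₀ hsg this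
      have hx : ∀ l : List (ε × Bool), (l.map Prod.fst).Nodup → (e, true) ∈ l →
          (e, false) ∉ l := by
        intro l hnd ht hf
        have := List.inj_on_of_nodup_map hnd ht hf rfl
        simp at this
      have hx3 := signs_eq hq2 (hx l a2) (hx l' b2)
      cases s
      · exact hx3.2
      · exact hx3.1
    ext ⟨e, s⟩
    simp only [List.mem_toFinset]
    constructor
    · intro h; exact (hmem e (a3 _ h) s).1 h
    · intro h; exact (hmem e (b3 _ h) s).2 h
  -- counting
  have hfib : #𝒯 ≤ k ^ k * #(𝒯.image List.toFinset) := by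
    refine Finset.card_le_mul_card_image _ _ fun F hF => ?_
    obtain ⟨l₀, hl₀, rfl⟩ := Finset.mem_image.1 hF
    have hF' : #(l₀.toFinset) ≤ k := by
      refine (List.toFinset_card_le _).trans ?_
      rw [(h𝒯 l₀ hl₀).1]
    have : #{l ∈ 𝒯 | l.toFinset = l₀.toFinset} ≤
        #(Fintype.piFinset fun _ : Fin k => l₀.toFinset) := by
      refine Finset.card_le_card_of_injOn
        (fun l => fun i : Fin k => if h : i.1 < l.length then l.get ⟨i.1, h⟩ else
          l₀.get ⟨0, by rw [(h𝒯 l₀ hl₀).1]; exact hk⟩) ?_ ?_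
      · intro l hl
        simp only [Finset.coe_filter, Set.mem_ofPred_eq] at hl
        simp only [Finset.mem_coe, Fintype.mem_piFinset]
        intro i
        have hlen : i.1 < l.length := by rw [(h𝒯 l hl.1).1]; exact i.2
        rw [dif_pos hlen, ← hl.2, List.mem_toFinset]
        exact List.get_mem _ _
      · intro l hl l' hl' heq
        simp only [Finset.coe_filter, Set.mem_ofPred_eq] at hl hl'
        have e1 : l.length = k := (h𝒯 l hl.1).1
        have e2 : l'.length = k := (h𝒯 l' hl'.1).1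
        refine List.ext_get (by rw [e1, e2]) fun i h1 h2 => ?_
        have := congrFun heq ⟨i, by rw [← e1]; exact h1⟩
        simp only [h1, h2, dif_pos] at this
        exact this
    refine this.trans ?_
    rw [Fintype.card_piFinset]
    simp only [Finset.prod_const, Finset.card_univ, Fintype.card_fin]
    exact Nat.pow_le_pow_left hF' k
  have himg : #(𝒯.image List.toFinset) ≤ #V := by
    -- choose representatives
    let g : Finset (ε × Bool) → M := fun F =>
      if h : ∃ l ∈ 𝒯, l.toFinset = F then v + ((Classical.choose h).map (val src tgt)).sum else v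
    refine Finset.card_le_card_of_injOn g ?_ ?_
    · intro F hF
      obtain ⟨l, hl, rfl⟩ := Finset.mem_image.1 hF
      have h : ∃ l' ∈ 𝒯, l'.toFinset = l.toFinset := ⟨l, hl, rfl⟩
      have hg : g l.toFinset = v + ((Classical.choose h).map (val src tgt)).sum := dif_pos h
      rw [Finset.mem_coe, hg]
      exact (h𝒯 _ (Classical.choose_spec h).1).2.2.2
    · intro F hF F' hF' heq
      obtain ⟨l, hl, rfl⟩ := Finset.mem_image.1 hF
      obtain ⟨l', hl', rfl⟩ := Finset.mem_image.1 hF'
      have h : ∃ m ∈ 𝒯, m.toFinset = l.toFinset := ⟨l, hl, rfl⟩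
      have h' : ∃ m ∈ 𝒯, m.toFinset = l'.toFinset := ⟨l', hl', rfl⟩
      have hg : g l.toFinset = v + ((Classical.choose h).map (val src tgt)).sum := dif_pos h
      have hg' : g l'.toFinset = v + ((Classical.choose h').map (val src tgt)).sum := dif_pos h'
      rw [hg, hg'] at heq
      have := hkey _ (Classical.choose_spec h).1 _ (Classical.choose_spec h').1
        (add_left_cancel heq)
      rw [(Classical.choose_spec h).2, (Classical.choose_spec h').2] at this
      exact this
  have hfin : (k * r + 1) ^ k ≤ (k * r) ^ k := by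
    calc (k * r + 1) ^ k ≤ #𝒯 := hc
      _ ≤ k ^ k * #(𝒯.image List.toFinset) := hfib
      _ ≤ k ^ k * #V := Nat.mul_le_mul_left _ himg
      _ ≤ k ^ k * #G := Nat.mul_le_mul_left _ (Finset.card_le_card hVG)
      _ ≤ k ^ k * r ^ k := Nat.mul_le_mul_left _ hr
      _ = (k * r) ^ k := (mul_pow _ _ _).symm
  exact absurd hfin (not_le.2 (Nat.pow_lt_pow_left (Nat.lt_succ_self _) hk.ne'))

end Trails

/-- **Few labels.** If `b` has no nontrivial integer relation with `∑ |m j| ≤ 4k`, then at most
`2 (k + 1 + k r) |G|` indices `j` occur in equations `g - g' = b j - b j'` (`j' ≠ j`,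
`g, g' ∈ G`), for every `r` with `|G| ≤ r ^ k`. -/
theorem card_occ_le {M : Type*} [AddCommGroup M] [DecidableEq M] {n : ℕ} (b : Fin n → M)
    (k : ℕ) (hk : 0 < k)
    (hrel : ∀ m : Fin n → ℤ, (∑ j, |m j|) ≤ 4 * k → ∑ j, m j • b j = 0 → m = 0)
    (G : Finset M) (r : ℕ) (hr : #G ≤ r ^ k)
    (J : Finset (Fin n))
    (hJ : ∀ j ∈ J, ∃ j', j' ≠ j ∧ ∃ g ∈ G, ∃ g' ∈ G, g - g' = b j - b j') :
    #J ≤ 2 * ((k + 1 + k * r) * #G) := by
  classical
  -- an edge is ((g, g'), (j, j'))
  let E : Finset ((M × M) × (Fin n × Fin n)) :=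
    {e ∈ (G ×ˢ G) ×ˢ (Finset.univ : Finset (Fin n × Fin n)) |
      e.1.1 - e.1.2 = b e.2.1 - b e.2.2 ∧ e.2.1 ≠ e.2.2}
  let Cov : Finset ((M × M) × (Fin n × Fin n)) → Prop := fun H =>
    ∀ j ∈ J, ∃ e ∈ H, j = e.2.1 ∨ j = e.2.2
  have hE : Cov E := by
    intro j hj
    obtain ⟨j', hne, g, hg, g', hg', h⟩ := hJ j hj
    refine ⟨((g, g'), (j, j')), ?_, Or.inl rfl⟩
    simp only [E, Finset.mem_filter, Finset.mem_product, Finset.mem_univ, and_true]
    exact ⟨⟨hg, hg'⟩, h, fun h => hne h.symm⟩
  obtain ⟨H, hH, hmin⟩ := Finset.exists_min_image (E.powerset.filter Cov) Finset.card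
    ⟨E, Finset.mem_filter.2 ⟨Finset.mem_powerset_self E, hE⟩⟩
  rw [Finset.mem_filter, Finset.mem_powerset] at hH
  obtain ⟨hHE, hHcov⟩ := hH
  have hmem : ∀ e ∈ H, (e.1.1 ∈ G ∧ e.1.2 ∈ G) ∧ e.1.1 - e.1.2 = b e.2.1 - b e.2.2 ∧
      e.2.1 ≠ e.2.2 := by
    intro e he
    have := hHE he
    simp only [E, Finset.mem_filter, Finset.mem_product, Finset.mem_univ, and_true] at this
    exact this
  have hpriv : ∀ e ∈ H, ∃ q, (q = e.2.1 ∨ q = e.2.2) ∧
      ∀ e' ∈ H, e' ≠ e → q ≠ e'.2.1 ∧ q ≠ e'.2.2 := by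
    intro e he
    by_contra hcon
    push Not at hcon
    have hcov : Cov (H.erase e) := by
      intro j hj
      obtain ⟨e₁, he₁, hj₁⟩ := hHcov j hj
      by_cases hee : e₁ = e
      · subst hee
        obtain ⟨e', he', hne', h⟩ := hcon j hj₁
        refine ⟨e', Finset.mem_erase.2 ⟨hne', he'⟩, ?_⟩
        by_cases h1 : j = e'.2.1
        · exact Or.inl h1
        · exact Or.inr (h h1)
      · exact ⟨e₁, Finset.mem_erase.2 ⟨hee, he₁⟩, hj₁⟩
    have h1 := hmin (H.erase e) (Finset.mem_filter.2 ⟨Finset.mem_powerset.2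
      ((Finset.erase_subset _ _).trans hHE), hcov⟩)
    have h2 := Finset.card_erase_lt_of_mem he
    omega
  have hmain := card_private_le b k hk hrel H (fun e => e.1.2) (fun e => e.1.1)
    (fun e => e.2.1) (fun e => e.2.2) G (fun e he => (hmem e he).1.2) (fun e he => (hmem e he).1.1)
    (fun e he => (hmem e he).2.1) (fun e he => (hmem e he).2.2) hpriv r hr
  have hsub : J ⊆ H.image (fun e => e.2.1) ∪ H.image (fun e => e.2.2) := by
    intro j hj
    obtain ⟨e, he, h⟩ := hHcov j hj
    rw [Finset.mem_union, Finset.mem_image, Finset.mem_image]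
    rcases h with h | h
    · exact Or.inl ⟨e, he, h.symm⟩
    · exact Or.inr ⟨e, he, h.symm⟩
  calc #J ≤ #(H.image (fun e => e.2.1) ∪ H.image (fun e => e.2.2)) := Finset.card_le_card hsub
    _ ≤ #(H.image (fun e => e.2.1)) + #(H.image (fun e => e.2.2)) := Finset.card_union_le _ _
    _ ≤ #H + #H := add_le_add Finset.card_image_le Finset.card_image_le
    _ ≤ 2 * ((k + 1 + k * r) * #G) := by omega

/-- The same with a multiplier `c ≠ 0` in a field. -/
theorem card_occ_mul_le {K : Type*} [Field K] [DecidableEq K] {n : ℕ} (b : Fin n → K)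
    (k : ℕ) (hk : 0 < k)
    (hrel : ∀ m : Fin n → ℤ, (∑ j, |m j|) ≤ 4 * k → ∑ j, (m j : K) * b j = 0 → m = 0)
    (c : K) (hc : c ≠ 0) (G : Finset K) (r : ℕ) (hr : #G ≤ r ^ k)
    (J : Finset (Fin n))
    (hJ : ∀ j ∈ J, ∃ j', j' ≠ j ∧ ∃ g ∈ G, ∃ g' ∈ G, g - g' = c * (b j - b j')) :
    #J ≤ 2 * ((k + 1 + k * r) * #G) := by
  refine card_occ_le (fun j => c * b j) k hk ?_ G r hr J ?_
  · intro m hm h
    refine hrel m hm ?_
    have : c * ∑ j, (m j : K) * b j = 0 := by
      rw [← h, Finset.mul_sum]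
      refine Finset.sum_congr rfl fun j _ => ?_
      rw [zsmul_eq_mul]; ring
    exact (mul_eq_zero.1 this).resolve_left hc
  · intro j hj
    obtain ⟨j', hne, g, hg, g', hg', h⟩ := hJ j hj
    exact ⟨j', hne, g, hg, g', hg', by rw [h, mul_sub]⟩

end Pool.Agent.GGX
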