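import Pool.Agent.GGX.Sel
import Pool.Agent.GGX.Trails
import Pool.Agent.GGX.Gen

/-!
For generic arrays only few sums share a query position with another sum.
-/

namespace Pool.Agent.GGX

open Finset

variable {K : Type*} [Field K] [DecidableEq K] {n k : ℕ}

theorem rel_inr {f : Ix n → K} (hf : Gen k f) (m : Fin n → ℤ) (hm : (∑ j, |m j|) ≤ 4 * k)
    (h0 : ∑ j, (m j : K) * f (Sum.inr j) = 0) : m = 0 := by
  have h := hf.rel (Sum.elim (fun _ => 0) m) (by simpa using hm) (by simpa using h0)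
  funext j
  simpa using congrFun h (Sum.inr j)

theorem rel_inl {f : Ix n → K} (hf : Gen k f) (m : Fin n → ℤ) (hm : (∑ j, |m j|) ≤ 4 * k)
    (h0 : ∑ j, (m j : K) * f (Sum.inl j) = 0) : m = 0 := by
  have h := hf.rel (Sum.elim m (fun _ => 0)) (by simpa using hm) (by simpa using h0)
  funext j
  simpa using congrFun h (Sum.inl j)

open Classical in
/-- few indices occur as labels of differences of shifts, over all multipliers -/
theorem card_rows (b : Fin n → K) (hk : 0 < k)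
    (hrel : ∀ m : Fin n → ℤ, (∑ j, |m j|) ≤ 4 * k → ∑ j, (m j : K) * b j = 0 → m = 0)
    (Q : Finset (K × K)) (r : ℕ) (hr : #Q ≤ r ^ k) :
    #{j : Fin n | ∃ q ∈ Q, ∃ q' ∈ Q, q.1 ≠ 0 ∧ q.1 = q'.1 ∧
      ∃ j', j' ≠ j ∧ q.2 - q'.2 = q.1 * (b j - b j')} ≤ 2 * (k + 1 + k * r) * #Q := by
  let Jc : K → Finset (Fin n) := fun c => {j : Fin n | ∃ q ∈ Q, ∃ q' ∈ Q, q.1 = c ∧ q'.1 = c ∧
      ∃ j', j' ≠ j ∧ q.2 - q'.2 = c * (b j - b j')}
  have h1 : ({j : Fin n | ∃ q ∈ Q, ∃ q' ∈ Q, q.1 ≠ 0 ∧ q.1 = q'.1 ∧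
      ∃ j', j' ≠ j ∧ q.2 - q'.2 = q.1 * (b j - b j')} : Finset (Fin n)) ⊆
      ((Q.image Prod.fst).filter (fun c => c ≠ 0)).biUnion Jc := by
    intro j hj
    simp only [Finset.mem_filter, Finset.mem_univ, true_and] at hj
    obtain ⟨q, hq, q', hq', h0, h1, j', hne, h2⟩ := hj
    rw [Finset.mem_biUnion]
    refine ⟨q.1, Finset.mem_filter.2 ⟨Finset.mem_image_of_mem _ hq, h0⟩, ?_⟩
    simp only [Jc, Finset.mem_filter, Finset.mem_univ, true_and]
    exact ⟨q, hq, q', hq', rfl, h1.symm, j', hne, h2⟩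
  have h2 : ∀ c ∈ (Q.image Prod.fst).filter (fun c => c ≠ 0),
      #(Jc c) ≤ 2 * (k + 1 + k * r) * #{q ∈ Q | q.1 = c} := by
    intro c hc
    have hc0 : c ≠ 0 := (Finset.mem_filter.1 hc).2
    have hG : #(({q ∈ Q | q.1 = c}).image Prod.snd) ≤ #{q ∈ Q | q.1 = c} := Finset.card_image_le
    have hGr : #(({q ∈ Q | q.1 = c}).image Prod.snd) ≤ r ^ k :=
      hG.trans ((Finset.card_filter_le _ _).trans hr)
    have := card_occ_mul_le b k hk hrel c hc0 (({q ∈ Q | q.1 = c}).image Prod.snd) r hGr (Jc c)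
      (by
        intro j hj
        simp only [Jc, Finset.mem_filter, Finset.mem_univ, true_and] at hj
        obtain ⟨q, hq, q', hq', h1, h2, j', hne, h3⟩ := hj
        exact ⟨j', hne, q.2, Finset.mem_image_of_mem _ (Finset.mem_filter.2 ⟨hq, h1⟩),
          q'.2, Finset.mem_image_of_mem _ (Finset.mem_filter.2 ⟨hq', h2⟩), h3⟩)
    calc #(Jc c) ≤ 2 * ((k + 1 + k * r) * #(({q ∈ Q | q.1 = c}).image Prod.snd)) := this
      _ ≤ 2 * ((k + 1 + k * r) * #{q ∈ Q | q.1 = c}) :=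
        Nat.mul_le_mul_left _ (Nat.mul_le_mul_left _ hG)
      _ = _ := by ring
  calc _ ≤ #(((Q.image Prod.fst).filter (fun c => c ≠ 0)).biUnion Jc) := Finset.card_le_card h1
    _ ≤ ∑ c ∈ (Q.image Prod.fst).filter (fun c => c ≠ 0), #(Jc c) := Finset.card_biUnion_le
    _ ≤ ∑ c ∈ (Q.image Prod.fst).filter (fun c => c ≠ 0),
          2 * (k + 1 + k * r) * #{q ∈ Q | q.1 = c} := Finset.sum_le_sum h2
    _ ≤ ∑ c ∈ Q.image Prod.fst, 2 * (k + 1 + k * r) * #{q ∈ Q | q.1 = c} :=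
        Finset.sum_le_sum_of_subset (Finset.filter_subset _ _)
    _ = 2 * (k + 1 + k * r) * ∑ c ∈ Q.image Prod.fst, #{q ∈ Q | q.1 = c} := by
        rw [Finset.mul_sum]
    _ = 2 * (k + 1 + k * r) * #Q := by
        rw [← Finset.card_eq_sum_card_image]

open Classical in
/-- **Few conflicts.** For generic arrays, all but few of the sums share no query position with
any other sum. -/
theorem card_conf (hk : 2 ≤ k) (f : Ix n → K) (hf : Gen k f) (Q : Finset (K × K)) (r : ℕ)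
    (hr : #Q ≤ r ^ k) :
    #{u : Fin n × Fin n | ∃ u', u' ≠ u ∧ Conf Q (sm f u) (sm f u')} ≤
      4 * n * (k + 1 + k * r) * #Q + 4 * #Q ^ 2 := by
  have hrel : ∀ m : Ix n → ℤ, (∑ j, |m j|) ≤ 4 * k → ev f m = 0 → m = 0 := hf.rel
  have hk1 : 1 ≤ k := by omega
  let JA : Finset (Fin n) := {j : Fin n | ∃ q ∈ Q, ∃ q' ∈ Q, q.1 ≠ 0 ∧ q.1 = q'.1 ∧
      ∃ j', j' ≠ j ∧ q.2 - q'.2 = q.1 * (f (Sum.inl j) - f (Sum.inl j'))}
  let JB : Finset (Fin n) := {j : Fin n | ∃ q ∈ Q, ∃ q' ∈ Q, q.1 ≠ 0 ∧ q.1 = q'.1 ∧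
      ∃ j', j' ≠ j ∧ q.2 - q'.2 = q.1 * (f (Sum.inr j) - f (Sum.inr j'))}
  have hJA : #JA ≤ 2 * (k + 1 + k * r) * #Q :=
    card_rows (fun j => f (Sum.inl j)) (by omega) (rel_inl hf) Q r hr
  have hJB : #JB ≤ 2 * (k + 1 + k * r) * #Q :=
    card_rows (fun j => f (Sum.inr j)) (by omega) (rel_inr hf) Q r hr
  let W : (K × K) × (K × K) → Finset ((Fin n × Fin n) × (Fin n × Fin n)) := fun p =>
    {w | p.1.1 ≠ 0 ∧ p.2.1 ≠ 0 ∧ p.1.1 * sm f w.1 + p.1.2 = p.2.1 * sm f w.2 + p.2.2 ∧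
      (p.1.1 = p.2.1 → w.1.1 ≠ w.2.1 ∧ w.1.2 ≠ w.2.2)}
  have hW : ∀ p ∈ Q ×ˢ Q, #((W p).image Prod.fst) ≤ 4 := by
    intro p _
    refine Finset.card_image_le.trans ?_
    by_cases h0 : p.1.1 ≠ 0 ∧ p.2.1 ≠ 0
    · by_cases hc : p.1.1 = p.2.1
      · have : #(W p) ≤ 1 := by
          rw [Finset.card_le_one]
          intro w hw w' hw'
          simp only [W, Finset.mem_filter, Finset.mem_univ, true_and] at hw hw'
          obtain ⟨-, -, e1, e2⟩ := hw
          obtain ⟨-, -, e3, -⟩ := hw'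
          obtain ⟨e4, e5⟩ := e2 hc
          rw [← hc] at e1 e3
          have h3 : p.1.1 * (sm f w.1 - sm f w.2) = p.1.1 * (sm f w'.1 - sm f w'.2) := by
            linear_combination e1 - e3
          have h4 := sub_inj hk hrel (mul_left_cancel₀ h0.1 h3) e4 e5
          exact Prod.ext h4.1 h4.2
        omega
      · refine (Finset.card_le_card ?_).trans
          (hf.col p.1.1 p.2.1 (p.2.2 - p.1.2) h0.1 h0.2 hc)
        intro w hw
        simp only [W, Finset.mem_filter, Finset.mem_univ, true_and] at hw ⊢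
        linear_combination hw.2.2.1
    · have : W p = ∅ := by
        refine Finset.filter_eq_empty_iff.2 fun w _ hw => h0 ⟨hw.1, hw.2.1⟩
      rw [this]; simp
  have hsub : ({u : Fin n × Fin n | ∃ u', u' ≠ u ∧ Conf Q (sm f u) (sm f u')} :
      Finset (Fin n × Fin n)) ⊆ (JA ×ˢ Finset.univ ∪ Finset.univ ×ˢ JB) ∪
        (Q ×ˢ Q).biUnion fun p => (W p).image Prod.fst := by
    intro u hu
    simp only [Finset.mem_filter, Finset.mem_univ, true_and] at hu
    obtain ⟨u', hne, q, hq, q', hq', h1, h2, h3⟩ := hu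
    by_cases hP : q.1 = q'.1 → u.1 ≠ u'.1 ∧ u.2 ≠ u'.2
    · refine Finset.mem_union_right _ (Finset.mem_biUnion.2 ⟨(q, q'),
        Finset.mem_product.2 ⟨hq, hq'⟩, Finset.mem_image.2 ⟨(u, u'), ?_, rfl⟩⟩)
      simp only [W, Finset.mem_filter, Finset.mem_univ, true_and]
      exact ⟨h1, h2, h3, hP⟩
    · refine Finset.mem_union_left _ ?_
      push Not at hP
      obtain ⟨hc, hP⟩ := hP
      by_cases h4 : u.1 = u'.1
      · -- same row
        have h5 : u.2 ≠ u'.2 := fun h => hne (Prod.ext h4 h).symm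
        refine Finset.mem_union_right _ (Finset.mem_product.2 ⟨Finset.mem_univ _, ?_⟩)
        simp only [JB, Finset.mem_filter, Finset.mem_univ, true_and]
        refine ⟨q', hq', q, hq, h2, hc.symm, u'.2, h5.symm, ?_⟩
        unfold sm at h3
        rw [← h4, hc] at h3
        linear_combination -h3
      · have h5 : u.2 = u'.2 := hP h4
        refine Finset.mem_union_left _ (Finset.mem_product.2 ⟨?_, Finset.mem_univ _⟩)
        simp only [JA, Finset.mem_filter, Finset.mem_univ, true_and]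
        refine ⟨q', hq', q, hq, h2, hc.symm, u'.1, fun h => h4 h.symm, ?_⟩
        unfold sm at h3
        rw [← h5, hc] at h3
        linear_combination -h3
  calc _ ≤ _ := Finset.card_le_card hsub
    _ ≤ #(JA ×ˢ (Finset.univ : Finset (Fin n)) ∪ (Finset.univ : Finset (Fin n)) ×ˢ JB) +
        #((Q ×ˢ Q).biUnion fun p => (W p).image Prod.fst) := Finset.card_union_le _ _
    _ ≤ (#(JA ×ˢ (Finset.univ : Finset (Fin n))) + #((Finset.univ : Finset (Fin n)) ×ˢ JB)) +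
        ∑ p ∈ Q ×ˢ Q, #((W p).image Prod.fst) :=
        add_le_add (Finset.card_union_le _ _) Finset.card_biUnion_le
    _ ≤ (#JA * n + n * #JB) + ∑ _p ∈ Q ×ˢ Q, 4 := by
        refine add_le_add (le_of_eq ?_) (Finset.sum_le_sum hW)
        rw [Finset.card_product, Finset.card_product, Finset.card_univ, Fintype.card_fin]
    _ ≤ (2 * (k + 1 + k * r) * #Q * n + n * (2 * (k + 1 + k * r) * #Q)) + #Q * #Q * 4 := by
        refine add_le_add (add_le_add (Nat.mul_le_mul_right _ hJA) (Nat.mul_le_mul_left _ hJB)) ?_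
        rw [Finset.sum_const, Finset.card_product, smul_eq_mul]
    _ = 4 * n * (k + 1 + k * r) * #Q + 4 * #Q ^ 2 := by ring

theorem card_sums (hk : 1 ≤ k) (f : Ix n → K) (hf : Gen k f) :
    #((Finset.univ : Finset (Fin n × Fin n)).image (sm f)) = n ^ 2 := by
  rw [Finset.card_image_of_injective _ fun u v h => sm_inj hk hf.rel h, Finset.card_univ,
    Fintype.card_prod, Fintype.card_fin, sq]

open Classical in
/-- the form used by `select` -/
theorem conf_sums (hk : 2 ≤ k) (f : Ix n → K) (hf : Gen k f) (Q : Finset (K × K)) (r : ℕ)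
    (hr : #Q ≤ r ^ k) :
    #{x ∈ (Finset.univ : Finset (Fin n × Fin n)).image (sm f) |
      ∃ x' ∈ (Finset.univ : Finset (Fin n × Fin n)).image (sm f), x' ≠ x ∧ Conf Q x x'} ≤
      4 * n * (k + 1 + k * r) * #Q + 4 * #Q ^ 2 := by
  refine (Finset.card_le_card ?_).trans ((Finset.card_image_le (f := sm f)).trans
    (card_conf hk f hf Q r hr))
  intro x hx
  rw [Finset.mem_filter, Finset.mem_image] at hx
  obtain ⟨⟨u, -, rfl⟩, x', hx', hne, hc⟩ := hx
  obtain ⟨u', -, rfl⟩ := Finset.mem_image.1 hx'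
  refine Finset.mem_image_of_mem _ (Finset.mem_filter.2 ⟨Finset.mem_univ _, u', ?_, hc⟩)
  rintro rfl
  exact hne rfl

end Pool.Agent.GGX
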