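import Mathlib
import Pool.Agent.GGX.Core
import Pool.Agent.GGX.Gen
import Pool.Agent.GGX.Dis
import Pool.Agent.GGX.Arith

/-!
# Assembly
-/

namespace Pool.Agent.GGX

open Finset

section fin

variable {K : Type*} [Field K] [Fintype K] [DecidableEq K] {n : ℕ}

theorem sums_eq (a b : Fin n → K) :
    sums a b = (univ : Finset (Fin n × Fin n)).image (sm (Sum.elim a b)) := by
  ext z
  simp only [sums, IsSum, mem_filter, mem_univ, true_and, mem_image, Prod.exists, sm,
    Sum.elim_inl, Sum.elim_inr]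

end fin

/-- **The lower bound.** -/
theorem lower (δ ε : ℝ) (hδ : 0 < δ) (hδ1 : δ < 1) (hε : 0 < ε) (hε1 : ε < 1) :
    ∃ C n₀ : ℕ, ∀ n ≥ n₀, ∀ p : ℕ, p.Prime → n ^ C ≤ p →
      ∃ Bad : Finset ((Fin n → ZMod p) × (Fin n → ZMod p)), n * Bad.card ≤ p ^ (2 * n) ∧
        ∀ a b, (a, b) ∉ Bad → ∀ (L : Type) [Finite L] (H T E F : ℕ)
          (P : Scheme (ZMod p) L H T), (T : ℝ) ≤ (n : ℝ) ^ (1 - δ) →
          (E : ℝ) ≤ ε / 8 * (n : ℝ) ^ 2 → (F : ℝ) ≤ (p : ℝ) ^ (ε / 8) →
          (Nat.card {σ : ZMod p → L // Function.Injective σ ∧ Works P a b E F σ} : ℝ) *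
              (p : ℝ) ^ ((1 - ε) * (n : ℝ) ^ 2) ≤
            H * Nat.card {σ : ZMod p → L // Function.Injective σ} := by
  classical
  obtain ⟨k, hk, hpar⟩ := params2 δ hδ hδ1
  obtain ⟨C, n0, hpar⟩ := hpar ε hε hε1
  refine ⟨C, max n0 1, fun n hn p hp hnp => ?_⟩
  have hn0 : n0 ≤ n := le_trans (le_max_left _ _) hn
  have hn1 : 1 ≤ n := le_trans (le_max_right _ _) hn
  have : Fact p.Prime := ⟨hp⟩
  have hcK : Fintype.card (ZMod p) = p := ZMod.card p
  have hpar := hpar n hn0 p hnp
  obtain ⟨-, -, -, -, -, -, -, -, hbig⟩ := hpar 0 (by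
    simp only [Nat.cast_zero]; positivity) 0 0 (by simp only [Nat.cast_zero]; positivity)
    (by simp only [Nat.cast_zero]; positivity)
  have hp4k : 4 * k < p := by
    have h1 : 4 * k < (4 * n + 1) ^ (4 * k) :=
      Nat.lt_pow_self (by omega)
    have h2 : (4 * n + 1) ^ (4 * k) ≤ n * ((4 * n + 1) ^ (4 * k) + 8 * n ^ 12) := by
      calc (4 * n + 1) ^ (4 * k) ≤ (4 * n + 1) ^ (4 * k) + 8 * n ^ 12 := Nat.le_add_right _ _
        _ = 1 * ((4 * n + 1) ^ (4 * k) + 8 * n ^ 12) := by ring
        _ ≤ n * ((4 * n + 1) ^ (4 * k) + 8 * n ^ 12) := Nat.mul_le_mul_right _ hn1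
    omega
  have hchar : ∀ z : ℤ, |z| ≤ 4 * (k : ℤ) → (z : ZMod p) = 0 → z = 0 := by
    intro z hz h0
    rw [ZMod.intCast_zmod_eq_zero_iff_dvd] at h0
    by_contra hne
    have h3 := Int.le_of_dvd (abs_pos.mpr hne) ((dvd_abs _ _).mpr h0)
    have h4 : ((4 * k : ℕ) : ℤ) < (p : ℤ) := by exact_mod_cast hp4k
    push_cast at h4
    omega
  refine ⟨(bad (ZMod p) n k).image (fun f => (f ∘ Sum.inl, f ∘ Sum.inr)), ?_, ?_⟩
  · have h1 := card_bad (K := ZMod p) (n := n) k
    rw [hcK] at h1
    have h2 : n * ((bad (ZMod p) n k).image (fun f => (f ∘ Sum.inl, f ∘ Sum.inr))).card ≤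
        n * (bad (ZMod p) n k).card := Nat.mul_le_mul_left _ card_image_le
    refine h2.trans ?_
    have h3 : n * (bad (ZMod p) n k).card * p ≤ p ^ (2 * n) * p := by
      calc n * (bad (ZMod p) n k).card * p = n * ((bad (ZMod p) n k).card * p) := by ring
        _ ≤ n * (((4 * n + 1) ^ (4 * k) + n ^ 12) * p ^ (2 * n)) := Nat.mul_le_mul_left _ h1
        _ = n * ((4 * n + 1) ^ (4 * k) + n ^ 12) * p ^ (2 * n) := by ring
        _ ≤ n * ((4 * n + 1) ^ (4 * k) + 8 * n ^ 12) * p ^ (2 * n) := by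
            apply Nat.mul_le_mul_right
            apply Nat.mul_le_mul_left
            omega
        _ ≤ p * p ^ (2 * n) := Nat.mul_le_mul_right _ hbig
        _ = p ^ (2 * n) * p := by ring
    exact Nat.le_of_mul_le_mul_right h3 hp.pos
  · intro a b hab L hL H T E F P hT hE hF
    have : Fintype L := Fintype.ofFinite L
    have hf : (Sum.elim a b : Ix n → ZMod p) ∉ bad (ZMod p) n k := by
      intro h
      apply hab
      rw [mem_image]
      exact ⟨Sum.elim a b, h, by simp⟩
    have hgen : Gen k (Sum.elim a b : Ix n → ZMod p) :=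
      gen_of_not_bad k (by omega) hchar _ hf
    obtain ⟨r, m, M, hr, hEm, hm, hM, hfin, -⟩ := hpar T hT E F hE hF
    have hcs : (sums a b).card = n ^ 2 := by
      rw [sums_eq]
      exact card_sums (by omega) _ hgen
    have hmain := core P a b (4 * n * ((k + 1 + k * r) * T) + 4 * T ^ 2) m M E F hEm
      (by
        intro Q hQ
        have h1 := conf_sums hk (Sum.elim a b) hgen Q r (hQ.trans hr)
        have h2 : 4 * n * (k + 1 + k * r) * Q.card + 4 * Q.card ^ 2 ≤
            4 * n * ((k + 1 + k * r) * T) + 4 * T ^ 2 := by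
          have h3 : 4 * n * (k + 1 + k * r) * Q.card ≤ 4 * n * ((k + 1 + k * r) * T) := by
            rw [mul_assoc (4 * n)]
            exact Nat.mul_le_mul_left _ (Nat.mul_le_mul_left _ hQ)
          have h4 : Q.card ^ 2 ≤ T ^ 2 := Nat.pow_le_pow_left hQ 2
          omega
        rw [sums_eq]
        exact h1.trans h2)
      (by rw [hcs]; exact hm) (by rw [hcs, hcK]; exact hM)
      (univ.filter (fun σ : ZMod p → L => Function.Injective σ))
      (by
        intro π σ hσ
        rw [mem_filter] at hσ ⊢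
        exact ⟨mem_univ _, hσ.2.comp π.injective⟩)
      (univ.filter (fun σ : ZMod p → L => Function.Injective σ ∧ Works P a b E F σ))
      (by
        intro σ hσ
        rw [mem_filter] at hσ ⊢
        exact ⟨hσ.1, hσ.2.1⟩)
      (by
        intro σ hσ
        exact (mem_filter.mp hσ).2.2)
    have hc1 : Nat.card {σ : ZMod p → L // Function.Injective σ ∧ Works P a b E F σ} =
        (univ.filter (fun σ : ZMod p → L =>
          Function.Injective σ ∧ Works P a b E F σ)).card := by
      rw [Nat.card_eq_fintype_card, Fintype.card_subtype]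
    have hc2 : Nat.card {σ : ZMod p → L // Function.Injective σ} =
        (univ.filter (fun σ : ZMod p → L => Function.Injective σ)).card := by
      rw [Nat.card_eq_fintype_card, Fintype.card_subtype]
    rw [hc1, hc2]
    set s' := (univ.filter (fun σ : ZMod p → L =>
          Function.Injective σ ∧ Works P a b E F σ)).card
    set s := (univ.filter (fun σ : ZMod p → L => Function.Injective σ)).card
    have hmain' : (s' : ℝ) * ((M + m).choose (m - E) : ℝ) ≤
        H * (s * ((m.choose (m - E) : ℝ) * ((m + F).choose (m - E) : ℝ))) := by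
      exact_mod_cast hmain
    have hpos : (0 : ℝ) < (m.choose (m - E) : ℝ) * ((m + F).choose (m - E) : ℝ) := by
      have h1 : 0 < m.choose (m - E) := Nat.choose_pos (by omega)
      have h2 : 0 < (m + F).choose (m - E) := Nat.choose_pos (by omega)
      exact_mod_cast Nat.mul_pos h1 h2
    have h5 : (s' : ℝ) * (p : ℝ) ^ ((1 - ε) * (n : ℝ) ^ 2) *
        ((m.choose (m - E) : ℝ) * ((m + F).choose (m - E) : ℝ)) ≤
        (H * s) * ((m.choose (m - E) : ℝ) * ((m + F).choose (m - E) : ℝ)) := by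
      calc (s' : ℝ) * (p : ℝ) ^ ((1 - ε) * (n : ℝ) ^ 2) *
            ((m.choose (m - E) : ℝ) * ((m + F).choose (m - E) : ℝ))
          = (s' : ℝ) * ((p : ℝ) ^ ((1 - ε) * (n : ℝ) ^ 2) * (m.choose (m - E) : ℝ) *
            ((m + F).choose (m - E) : ℝ)) := by ring
        _ ≤ (s' : ℝ) * ((M + m).choose (m - E) : ℝ) :=
            mul_le_mul_of_nonneg_left hfin (by positivity)
        _ ≤ H * (s * ((m.choose (m - E) : ℝ) * ((m + F).choose (m - E) : ℝ))) := hmain'
        _ = (H * s) * ((m.choose (m - E) : ℝ) * ((m + F).choose (m - E) : ℝ)) := by ring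
    exact le_of_mul_le_mul_right h5 hpos

end Pool.Agent.GGX
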