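import Mathlib
import Pool.Agent.GGX.Defs

/-!
# The matching structure: `n` queries and `n` labels of memory
-/

namespace Pool.Agent.GGX

open Finset

/-- `n` non-adaptive queries and the memory of `n` labels suffice, for all arrays. -/
theorem upper {K L : Type*} [Field K] [Fintype L] (n : ℕ) (a b : Fin n → K) :
    ∃ P : Scheme K L (Fintype.card L ^ n) n, ∀ σ : K → L, Function.Injective σ →
      Works P a b 0 0 σ := by
  classical
  have hcard : Fintype.card (Fin n → L) = Fintype.card L ^ n := by
    rw [Fintype.card_fun, Fintype.card_fin]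
  let e : (Fin n → L) ≃ Fin (Fintype.card L ^ n) := Fintype.equivFinOfCardEq hcard
  refine ⟨⟨fun _ t => (1, - a t), fun α l => ∃ t j, l t = e.symm α j⟩, fun σ hσ => ?_⟩
  have key : ∀ z, Accepts (⟨fun _ t => (1, - a t), fun α l => ∃ t j, l t = e.symm α j⟩ :
      Scheme K L (Fintype.card L ^ n) n) σ (e (fun j => σ (b j))) z ↔ IsSum a b z := ?_
  · refine ⟨e (fun j => σ (b j)), ?_, ?_⟩
    · have : {z | IsSum a b z ∧ ¬ Accepts (⟨fun _ t => (1, - a t),
          fun α l => ∃ t j, l t = e.symm α j⟩ : Scheme K L (Fintype.card L ^ n) n) σ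
          (e (fun j => σ (b j))) z} = ∅ := by
        ext z
        simp only [Set.mem_ofPred_eq, Set.mem_empty_iff_false, iff_false, not_and, not_not]
        exact (key z).mpr
      rw [this]
      simp
    · have : {z | ¬ IsSum a b z ∧ Accepts (⟨fun _ t => (1, - a t),
          fun α l => ∃ t j, l t = e.symm α j⟩ : Scheme K L (Fintype.card L ^ n) n) σ
          (e (fun j => σ (b j))) z} = ∅ := by
        ext z
        simp only [Set.mem_ofPred_eq, Set.mem_empty_iff_false, iff_false, not_and]
        exact fun h h' => h ((key z).mp h')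
      rw [this]
      simp
  intro z
  simp only [Accepts, Equiv.symm_apply_apply]
  constructor
  · rintro ⟨t, j, h⟩
    have h1 := hσ h
    exact ⟨t, j, by linear_combination -h1⟩
  · rintro ⟨t, j, h⟩
    refine ⟨t, j, ?_⟩
    congr 1
    rw [← h]
    ring

end Pool.Agent.GGX
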